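import Pool.Agent.W_5d512e_h57.Arr

/-!
# The algebra of catalytic evaluation
-/

set_option autoImplicit false

namespace Pool.Agent.W_5d512e_h57

open Polynomial

variable {p : ℕ} [Fact p.Prime]

/-- Product of the differences. -/
def NN (q : ℕ) (e : ℕ) (x : ZMod p) : ZMod p :=
  ∏ e' ∈ (Finset.range q).erase e, (x - (e' : ZMod p))

/-- Interpolation basis. -/
def DD (q : ℕ) (e : ℕ) (x : ZMod p) : ZMod p := NN q e x * NN q e (e : ZMod p) ^ (p - 2)

/-- Extension of a function of `D` digits less than `q`. -/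
def Ph (q D : ℕ) (h : ℕ → ZMod p) (b : ℕ → ZMod p) : ZMod p :=
  ∑ E ∈ Finset.range (q ^ D), h E * ∏ j ∈ Finset.range D, DD q (E / q ^ j % q) (b j)

lemma cast_inj {x y : ℕ} (hx : x < p) (hy : y < p) (h : (x : ZMod p) = (y : ZMod p)) : x = y := by
  have := (ZMod.natCast_eq_natCast_iff' x y p).1 h
  rwa [Nat.mod_eq_of_lt hx, Nat.mod_eq_of_lt hy] at this

lemma DD_eq {q : ℕ} (hq : q ≤ p) {e x : ℕ} (he : e < q) (hx : x < q) :
    DD q e (x : ZMod p) = if x = e then 1 else 0 := by
  unfold DD
  split_ifs with h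
  · subst h
    have hn : NN q x (x : ZMod p) ≠ 0 := by
      unfold NN
      rw [Finset.prod_ne_zero_iff]
      intro e' he' hc
      have h1 := Finset.ne_of_mem_erase he'
      have h2 := Finset.mem_range.1 (Finset.mem_of_mem_erase he')
      exact h1 (cast_inj (by omega) (by omega) (sub_eq_zero.1 hc)).symm
    have hp : 2 ≤ p := (Fact.out : p.Prime).two_le
    rw [← pow_succ', show p - 2 + 1 = p - 1 by omega]
    exact ZMod.pow_card_sub_one_eq_one hn
  · have : NN q e (x : ZMod p) = 0 := by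
      unfold NN
      apply Finset.prod_eq_zero (Finset.mem_erase.2 ⟨h, Finset.mem_range.2 hx⟩)
      rw [sub_self]
    rw [this, zero_mul]

lemma Ph_val {q D : ℕ} (hq : q ≤ p) (h : ℕ → ZMod p) (e : ℕ → ℕ) (he : ∀ j < D, e j < q) :
    Ph q D h (fun j => (e j : ZMod p)) = h (arr q D e) := by
  unfold Ph
  rw [Finset.sum_eq_single (arr q D e)]
  · have : ∏ j ∈ Finset.range D, DD q (arr q D e / q ^ j % q) (e j : ZMod p) = 1 := by
      apply Finset.prod_eq_one
      intro j hj
      have hj' := Finset.mem_range.1 hj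
      rw [arr_dig he hj', DD_eq hq (he j hj') (he j hj'), if_pos rfl]
    rw [this, mul_one]
  · intro E hE hne
    have hE' := Finset.mem_range.1 hE
    have : ∃ j < D, e j ≠ E / q ^ j % q := by
      by_contra hcon
      push Not at hcon
      apply hne
      rw [← arr_self hE']
      exact (arr_congr hcon).symm
    obtain ⟨j, hj, hjne⟩ := this
    have hq0 : 0 < q := by
      rcases Nat.eq_zero_or_pos q with h0 | h0
      · have := he j hj
        omega
      · exact h0
    rw [Finset.prod_eq_zero (Finset.mem_range.2 hj), mul_zero]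
    rw [DD_eq hq (Nat.mod_lt _ hq0) (he j hj), if_neg hjne]
  · intro hn
    exact absurd (Finset.mem_range.2 (arr_lt he)) hn

lemma sum_all (P : (ZMod p)[X]) (hP : P.natDegree < p - 1) : ∑ x : ZMod p, P.eval x = 0 := by
  have h1 : ∀ x : ZMod p, P.eval x = ∑ i ∈ Finset.range (P.natDegree + 1), P.coeff i * x ^ i :=
    fun x => Polynomial.eval_eq_sum_range x
  simp only [h1]
  rw [Finset.sum_comm]
  apply Finset.sum_eq_zero
  intro i hi
  have hi' := Finset.mem_range.1 hi
  rw [← Finset.mul_sum, FiniteField.sum_pow_lt_card_sub_one, mul_zero]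
  rw [ZMod.card]
  omega

lemma sum_zmod (f : ZMod p → ZMod p) : ∑ x : ZMod p, f x = ∑ i ∈ Finset.range p, f (i : ZMod p) := by
  have hp : NeZero p := ⟨(Fact.out : p.Prime).ne_zero⟩
  symm
  refine Finset.sum_nbij' (fun i => (i : ZMod p)) (fun x => x.val) ?_ ?_ ?_ ?_ ?_
  · intro i _
    exact Finset.mem_univ _
  · intro x _
    exact Finset.mem_range.2 (ZMod.val_lt x)
  · intro i hi
    exact ZMod.val_cast_of_lt (Finset.mem_range.1 hi)
  · intro x _
    exact ZMod.natCast_zmod_val x
  · intro i _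
    rfl

lemma sum_nonzero (P : (ZMod p)[X]) (hP : P.natDegree < p - 1) :
    ∑ i ∈ (Finset.range p).erase 0, P.eval (i : ZMod p) = - P.eval 0 := by
  have h1 := sum_all P hP
  rw [sum_zmod, ← Finset.add_sum_erase _ _ (Finset.mem_range.2 (Fact.out : p.Prime).pos),
    Nat.cast_zero] at h1
  exact eq_neg_of_add_eq_zero_right h1

/-- The extension along a line, as a polynomial. -/
noncomputable def PP (q D : ℕ) (h : ℕ → ZMod p) (a b : ℕ → ZMod p) : (ZMod p)[X] :=
  ∑ E ∈ Finset.range (q ^ D), C (h E) * ∏ j ∈ Finset.range D,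
    ((∏ e' ∈ (Finset.range q).erase (E / q ^ j % q), (C (b j) * X + C (a j - (e' : ZMod p)))) *
      C (NN q (E / q ^ j % q) ((E / q ^ j % q : ℕ) : ZMod p) ^ (p - 2)))

lemma PP_eval (q D : ℕ) (h : ℕ → ZMod p) (a b : ℕ → ZMod p) (x : ZMod p) :
    (PP q D h a b).eval x = Ph q D h (fun j => x * b j + a j) := by
  unfold PP Ph DD NN
  simp only [eval_finsetSum, eval_mul, eval_C, eval_prod, eval_add, eval_X]
  refine Finset.sum_congr rfl fun E _ => ?_
  congr 1
  refine Finset.prod_congr rfl fun j _ => ?_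
  congr 1
  refine Finset.prod_congr rfl fun e' _ => ?_
  ring

lemma PP_deg (q D : ℕ) (h : ℕ → ZMod p) (a b : ℕ → ZMod p) (hq : 1 ≤ q) :
    (PP q D h a b).natDegree ≤ D * (q - 1) := by
  unfold PP
  apply natDegree_sum_le_of_forall_le
  intro E _
  refine (natDegree_C_mul_le _ _).trans ?_
  refine (natDegree_prod_le _ _).trans ?_
  have h1 : ∀ j ∈ Finset.range D, ((∏ e' ∈ (Finset.range q).erase (E / q ^ j % q),
      (C (b j) * X + C (a j - (e' : ZMod p)))) *
      C (NN q (E / q ^ j % q) ((E / q ^ j % q : ℕ) : ZMod p) ^ (p - 2))).natDegree ≤ q - 1 := by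
    intro j _
    refine (natDegree_mul_C_le _ _).trans ?_
    refine (natDegree_prod_le _ _).trans ?_
    have h2 : ∀ e' ∈ (Finset.range q).erase (E / q ^ j % q),
        (C (b j) * X + C (a j - (e' : ZMod p))).natDegree ≤ 1 := fun e' _ =>
      natDegree_linear_le
    refine (Finset.sum_le_sum h2).trans ?_
    rw [Finset.sum_const, smul_eq_mul, mul_one, Finset.card_erase_of_mem, Finset.card_range]
    exact Finset.mem_range.2 (Nat.mod_lt _ (by omega))
  refine (Finset.sum_le_sum h1).trans ?_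
  rw [Finset.sum_const, smul_eq_mul, Finset.card_range]

/-- The identity behind catalytic evaluation. -/
lemma Ph_sum {q D : ℕ} (h : ℕ → ZMod p) (a b : ℕ → ZMod p) (hq : 1 ≤ q)
    (hD : D * (q - 1) < p - 1) :
    ∑ i ∈ (Finset.range p).erase 0, Ph q D h (fun j => (i : ZMod p) * b j + a j) =
      - Ph q D h a := by
  have h1 := sum_nonzero (PP q D h a b) ((PP_deg q D h a b hq).trans_lt hD)
  simp only [PP_eval, zero_mul, zero_add] at h1
  exact h1

end Pool.Agent.W_5d512e_h57
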