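import Pool.Agent.W_5d512e_h57.Ls

/-!
# Arrays as numbers
-/

set_option autoImplicit false

namespace Pool.Agent.W_5d512e_h57

/-- The number with the given digits. -/
def arr (p D : ℕ) (a : ℕ → ℕ) : ℕ := ∑ j ∈ Finset.range D, a j * p ^ j

lemma arr_fin (p D : ℕ) (a : ℕ → ℕ) (h : ∀ j < D, a j < p) :
    ((finFunctionFinEquiv (fun i : Fin D => (⟨a i, h i i.2⟩ : Fin p)) : Fin (p ^ D)) : ℕ) =
      arr p D a := by
  rw [finFunctionFinEquiv_apply, arr, Finset.sum_range]

lemma arr_lt {p D : ℕ} {a : ℕ → ℕ} (h : ∀ j < D, a j < p) : arr p D a < p ^ D := by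
  rw [← arr_fin p D a h]
  exact (finFunctionFinEquiv _).2

lemma arr_dig {p D : ℕ} {a : ℕ → ℕ} (h : ∀ j < D, a j < p) {i : ℕ} (hi : i < D) :
    arr p D a / p ^ i % p = a i := by
  have h1 := finFunctionFinEquiv.symm_apply_apply (fun i : Fin D => (⟨a i, h i i.2⟩ : Fin p))
  have h2 := congrArg Fin.val (congrFun h1 ⟨i, hi⟩)
  simp only at h2
  rw [← h2, ← arr_fin p D a h]
  rfl

lemma arr_self {p D A : ℕ} (h : A < p ^ D) : arr p D (fun j => A / p ^ j % p) = A := by
  have h1 := congrArg Fin.val (finFunctionFinEquiv.apply_symm_apply (⟨A, h⟩ : Fin (p ^ D)))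
  rw [finFunctionFinEquiv_apply] at h1
  simp only at h1
  rw [arr, Finset.sum_range]
  exact h1

lemma arr_congr {p D : ℕ} {a b : ℕ → ℕ} (h : ∀ j < D, a j = b j) : arr p D a = arr p D b :=
  Finset.sum_congr rfl fun j hj => by rw [h j (Finset.mem_range.1 hj)]

lemma arr_zero (p D : ℕ) : arr p D (fun _ => 0) = 0 := by
  simp [arr]

lemma arr_upd {p D : ℕ} (a : ℕ → ℕ) {i : ℕ} (hi : i < D) (x : ℕ) :
    arr p D a - a i * p ^ i + x * p ^ i = arr p D (Function.update a i x) := by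
  have h1 : arr p D a = a i * p ^ i + ∑ j ∈ (Finset.range D).erase i, a j * p ^ j := by
    rw [arr, ← Finset.add_sum_erase _ _ (Finset.mem_range.2 hi)]
  have h2 : arr p D (Function.update a i x) =
      x * p ^ i + ∑ j ∈ (Finset.range D).erase i, a j * p ^ j := by
    rw [arr, ← Finset.add_sum_erase _ _ (Finset.mem_range.2 hi), Function.update_self]
    congr 1
    refine Finset.sum_congr rfl fun j hj => ?_
    rw [Function.update_of_ne (Finset.ne_of_mem_erase hj)]
  omega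

/-- A digit. -/
def dgt (z p A i : ℕ) : ℕ := A / pw z p i % p

/-- Change a digit. -/
def upd (z p A i x : ℕ) : ℕ := cut z (A - dgt z p A i * pw z p i + x * pw z p i)

lemma upd_le (z p A i x : ℕ) : upd z p A i x ≤ z := cut_le _ _

section

variable {α : Type} [Cd α]

@[fun_prop]
lemma ls_dgt {f1 f2 f3 f4 : α → ℕ} (h1 : LS f1) (h2 : LS f2) (h3 : LS f3) (h4 : LS f4) :
    LS (fun a => dgt (f1 a) (f2 a) (f3 a) (f4 a)) := by
  unfold dgt
  fun_prop

@[fun_prop]
lemma ls_upd {f1 f2 f3 f4 f5 : α → ℕ} (h1 : LS f1) (h2 : LS f2) (h3 : LS f3) (h4 : LS f4)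
    (h5 : LS f5) : LS (fun a => upd (f1 a) (f2 a) (f3 a) (f4 a) (f5 a)) := by
  unfold upd
  fun_prop

end

section

variable {z p D : ℕ} (hp : 1 ≤ p) (hz : p ^ D ≤ z)

include hp hz

lemma pw_ok {i : ℕ} (hi : i ≤ D) : pw z p i = p ^ i :=
  pw_eq hp ((Nat.pow_le_pow_right hp hi).trans hz)

lemma dgt_arr {a : ℕ → ℕ} (h : ∀ j < D, a j < p) {i : ℕ} (hi : i < D) :
    dgt z p (arr p D a) i = a i := by
  unfold dgt
  rw [pw_ok hp hz hi.le, arr_dig h hi]

lemma upd_arr {a : ℕ → ℕ} (h : ∀ j < D, a j < p) {i : ℕ} (hi : i < D) {x : ℕ} (hx : x < p) :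
    upd z p (arr p D a) i x = arr p D (Function.update a i x) := by
  unfold upd
  rw [dgt_arr hp hz h hi, pw_ok hp hz hi.le, arr_upd a hi]
  apply cut_of_le
  refine le_trans (le_of_lt (arr_lt ?_)) hz
  intro j hj
  by_cases hji : j = i
  · rw [hji, Function.update_self]
    exact hx
  · rw [Function.update_of_ne hji]
    exact h j hj

end

end Pool.Agent.W_5d512e_h57
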