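import Pool.Agent.W_5d512e_h57.Num

/-!
# Catalytic evaluation
-/

set_option autoImplicit false

namespace Pool.Agent.W_5d512e_h57

section

variable (z p q D R : ℕ) (h : ℕ → ℕ → ℕ → ℕ) (tg ch : ℕ → ℕ → ℕ)

/-- The actions on the two arrays. -/
def act0 (v μ r : ℕ) (S : ℕ × ℕ) : ℕ × ℕ :=
  if r / 5 % p = 0 then S
  else if r % 5 = 0 then (S.1, scl z p D S.2 (r / 5 % p))
  else if r % 5 = 2 then
    (upd z p S.1 (tg v (r / 5 / p)) (md p (dgt z p S.1 (tg v (r / 5 / p)) +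
      (p - md p (μ * phn z p q D (h v (r / 5 / p)) S.2)))), S.2)
  else if r % 5 = 4 then (S.1, scl z p D S.2 (pwm p (r / 5 % p) (p - 2)))
  else S

/-- The actions, the roles of the arrays depending on the context. -/
def act (c : ℕ × ℕ × ℕ) (r : ℕ) (S : ℕ × ℕ) : ℕ × ℕ :=
  if c.2.2 = 0 then act0 z p q D h tg c.1 c.2.1 r S
  else ((act0 z p q D h tg c.1 c.2.1 r (S.2, S.1)).2, (act0 z p q D h tg c.1 c.2.1 r (S.2, S.1)).1)

/-- Is this a call? -/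
def sf (_c : ℕ × ℕ × ℕ) (r : ℕ) : ℕ :=
  if r / 5 % p = 0 then 0 else if r % 5 = 1 ∨ r % 5 = 3 then 1 else 0

/-- Context of the call. -/
def sc (c : ℕ × ℕ × ℕ) (r : ℕ) : ℕ × ℕ × ℕ :=
  (cut z (ch c.1 (r / 5 / p)), if r % 5 = 1 then 1 else p - 1, 1 - c.2.2)

/-- The evaluation. -/
def cat (J v : ℕ) : ℕ :=
  dgt z p (lp (stp (sf p) (sc z p ch) (act z p q D h tg) (pw z (R * p * 5)) J (v, 1, 0)) (0, 0)
    (pw z (R * p * 5) J)).1 0

end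

/-! ### Linear space -/

section

variable {α : Type} [Cd α] {z p q D R J v : α → ℕ} {h : α → ℕ → ℕ → ℕ → ℕ}
  {tg ch : α → ℕ → ℕ → ℕ}

lemma act0_le {z p q D : ℕ} {h : ℕ → ℕ → ℕ → ℕ} {tg : ℕ → ℕ → ℕ} {v μ r : ℕ} {S : ℕ × ℕ}
    (h1 : S.1 ≤ z) (h2 : S.2 ≤ z) :
    (act0 z p q D h tg v μ r S).1 ≤ z ∧ (act0 z p q D h tg v μ r S).2 ≤ z := by
  unfold act0
  split_ifs
  · exact ⟨h1, h2⟩
  · exact ⟨h1, scl_le h2⟩
  · exact ⟨upd_le _ _ _ _ _, h2⟩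
  · exact ⟨h1, scl_le h2⟩
  · exact ⟨h1, h2⟩

lemma act_le {z p q D : ℕ} {h : ℕ → ℕ → ℕ → ℕ} {tg : ℕ → ℕ → ℕ} {c : ℕ × ℕ × ℕ} {r : ℕ}
    {S : ℕ × ℕ} (h1 : S.1 ≤ z) (h2 : S.2 ≤ z) :
    (act z p q D h tg c r S).1 ≤ z ∧ (act z p q D h tg c r S).2 ≤ z := by
  unfold act
  split_ifs
  · exact act0_le h1 h2
  · have := act0_le (z := z) (p := p) (q := q) (D := D) (h := h) (tg := tg) (v := c.1)
      (μ := c.2.1) (r := r) (S := (S.2, S.1)) h2 h1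
    exact ⟨this.2, this.1⟩

lemma ls_act0 {v μ r : α → ℕ} {S : α → ℕ × ℕ} (hz : LS z) (hp : LS p) (hq : LS q) (hD : LS D)
    (hh : LS (fun x : α × ℕ × ℕ × ℕ => h x.1 x.2.1 x.2.2.1 x.2.2.2))
    (ht : LS (fun x : α × ℕ × ℕ => tg x.1 x.2.1 x.2.2)) (hv : LS v) (hμ : LS μ) (hr : LS r)
    (hS : LS S) :
    LS (fun a => act0 (z a) (p a) (q a) (D a) (h a) (tg a) (v a) (μ a) (r a) (S a)) := by
  unfold act0
  have h1 : LS (fun a => tg a (v a) (r a / 5 / p a)) :=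
    LS.comp (f := fun x : α × ℕ × ℕ => tg x.1 x.2.1 x.2.2)
      (g := fun a => (a, v a, r a / 5 / p a)) ht (by fun_prop)
  have h2 : LS (fun a => phn (z a) (p a) (q a) (D a) (h a (v a) (r a / 5 / p a)) (S a).2) :=
    ls_phn (hv := fun a => h a (v a) (r a / 5 / p a)) hz hp hq hD (by fun_prop)
      (LS.comp (f := fun x : α × ℕ × ℕ × ℕ => h x.1 x.2.1 x.2.2.1 x.2.2.2)
        (g := fun x : α × ℕ => (x.1, v x.1, r x.1 / 5 / p x.1, x.2)) hh (by fun_prop))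
  fun_prop

lemma ls_act {c : α → ℕ × ℕ × ℕ} {r : α → ℕ} {S : α → ℕ × ℕ} (hz : LS z) (hp : LS p)
    (hq : LS q) (hD : LS D)
    (hh : LS (fun x : α × ℕ × ℕ × ℕ => h x.1 x.2.1 x.2.2.1 x.2.2.2))
    (ht : LS (fun x : α × ℕ × ℕ => tg x.1 x.2.1 x.2.2)) (hc : LS c) (hr : LS r)
    (hS : LS S) : LS (fun a => act (z a) (p a) (q a) (D a) (h a) (tg a) (c a) (r a) (S a)) := by
  unfold act
  have h1 := ls_act0 (v := fun a => (c a).1) (μ := fun a => (c a).2.1) (r := r) (S := S)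
    hz hp hq hD hh ht (by fun_prop) (by fun_prop) hr hS
  have h2 := ls_act0 (v := fun a => (c a).1) (μ := fun a => (c a).2.1) (r := r)
    (S := fun a => ((S a).2, (S a).1))
    hz hp hq hD hh ht (by fun_prop) (by fun_prop) hr (by fun_prop)
  fun_prop

lemma ls_sf {c : α → ℕ × ℕ × ℕ} {r : α → ℕ} (hp : LS p) (_ : LS c) (hr : LS r) :
    LS (fun a => sf (p a) (c a) (r a)) := by
  unfold sf
  fun_prop

lemma ls_sc {c : α → ℕ × ℕ × ℕ} {r : α → ℕ} (hz : LS z) (hp : LS p)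
    (ht : LS (fun x : α × ℕ × ℕ => ch x.1 x.2.1 x.2.2)) (hc : LS c) (hr : LS r) :
    LS (fun a => sc (z a) (p a) (ch a) (c a) (r a)) := by
  unfold sc
  have h1 : LS (fun a => ch a (c a).1 (r a / 5 / p a)) :=
    LS.comp (f := fun x : α × ℕ × ℕ => ch x.1 x.2.1 x.2.2)
      (g := fun a => (a, (c a).1, r a / 5 / p a)) ht (by fun_prop)
  fun_prop

lemma ls_ls1 {b : α → ℕ} {x : α → (ℕ × ℕ × ℕ) × ℕ × ℕ × ℕ} (hz : LS z) (hp : LS p)
    (ht : LS (fun x : α × ℕ × ℕ => ch x.1 x.2.1 x.2.2)) (hb : LS b) (hx : LS x) :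
    LS (fun a => ls1 (sf (p a)) (sc (z a) (p a) (ch a)) (b a) (x a)) := by
  unfold ls1
  have h1 : LS (fun a => sf (p a) (x a).1 ((x a).2.1 / b a)) :=
    ls_sf hp (by fun_prop) (by fun_prop)
  have h2 : LS (fun a => sc (z a) (p a) (ch a) (x a).1 ((x a).2.1 / b a)) :=
    ls_sc hz hp ht (by fun_prop) (by fun_prop)
  fun_prop

/-- Bounds of the search. -/
def Lb (B I : ℕ) (x : (ℕ × ℕ × ℕ) × ℕ × ℕ × ℕ) : Prop :=
  x.1.1 ≤ B ∧ x.1.2.1 ≤ B ∧ x.1.2.2 ≤ B ∧ x.2.1 ≤ I ∧ x.2.2.1 ≤ I ∧ x.2.2.2 ≤ 2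

lemma Lb_ls1 {z p : ℕ} {ch : ℕ → ℕ → ℕ} {b B I : ℕ} {x : (ℕ × ℕ × ℕ) × ℕ × ℕ × ℕ}
    (hB : z + p + 1 ≤ B) (hx : Lb B I x) : Lb B I (ls1 (sf p) (sc z p ch) b x) := by
  obtain ⟨h1, h2, h3, h4, h5, h6⟩ := hx
  have h7 := Nat.div_le_self x.2.1 b
  have h8 := Nat.mod_le x.2.1 b
  unfold ls1
  by_cases c1 : x.2.2.2 = 0
  · rw [if_pos c1]
    by_cases c2 : sf p x.1 (x.2.1 / b) = 0
    · rw [if_pos c2]
      refine ⟨h1, h2, h3, Nat.zero_le _, h7.trans h4, ?_⟩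
      by_cases c3 : x.2.1 % b = 0
      · simp [c3]
      · simp [c3]
    · rw [if_neg c2]
      refine ⟨?_, ?_, ?_, h8.trans h4, Nat.zero_le _, Nat.zero_le _⟩
      · have := cut_le z (ch x.1.1 (x.2.1 / b / 5 / p))
        show cut z _ ≤ B
        omega
      · show (if (x.2.1 / b) % 5 = 1 then 1 else p - 1) ≤ B
        split_ifs <;> omega
      · show 1 - x.1.2.2 ≤ B
        omega
  · rw [if_neg c1]
    exact ⟨h1, h2, h3, h4, h5, h6⟩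

lemma ls_loc {i : α → ℕ} {J v : α → ℕ} (hz : LS z) (hp : LS p) (hR : LS R) (hJ : LS J)
    (hv : LS v) (ht : LS (fun x : α × ℕ × ℕ => ch x.1 x.2.1 x.2.2)) (hi : LS i) :
    LS (fun a => loc (sf (p a)) (sc (z a) (p a) (ch a)) (pw (z a) (R a * p a * 5)) (J a)
      ((v a, 1, 0), i a, 0, 0)) := by
  unfold loc
  have hB : LS (fun a => z a + p a + v a + 1) := by fun_prop
  have key : ∀ a m, Lb (z a + p a + v a + 1) (i a)
      (lp (fun l x => ls1 (sf (p a)) (sc (z a) (p a) (ch a))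
        (pw (z a) (R a * p a * 5) (J a - 1 - l)) x) ((v a, 1, 0), i a, 0, 0) m) := by
    intro a m
    refine lp_inv (P := Lb (z a + p a + v a + 1) (i a)) ?_ ?_
    · exact ⟨by simp only; omega, by simp only; omega, Nat.zero_le _, le_rfl, Nat.zero_le _,
        Nat.zero_le _⟩
    · intro l _ x hx
      exact Lb_ls1 (by omega) hx
  refine ls_lp (f := fun a => ((v a, 1, 0), i a, 0, 0)) (n := J)
    (g := fun a l x => ls1 (sf (p a)) (sc (z a) (p a) (ch a))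
      (pw (z a) (R a * p a * 5) (J a - 1 - l)) x) (by fun_prop) hJ ?_ ?_
  · refine ls_ls1 (z := fun x : α × ℕ × _ => z x.1) (p := fun x : α × ℕ × _ => p x.1)
      (ch := fun x : α × ℕ × _ => ch x.1) (by fun_prop) (by fun_prop) ?_ (by fun_prop)
      (by fun_prop)
    exact LS.comp (f := fun x : α × ℕ × ℕ => ch x.1 x.2.1 x.2.2)
      (g := fun x : (α × ℕ × ((ℕ × ℕ × ℕ) × ℕ × ℕ × ℕ)) × ℕ × ℕ => (x.1.1, x.2.1, x.2.2)) ht
      (by fun_prop)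
  · refine Bq.pair (Bq.pair ?_ (Bq.pair ?_ ?_)) (Bq.pair ?_ (Bq.pair ?_ ?_))
    · exact Bq.of_le hB fun a m _ => (key a m).1
    · exact Bq.of_le hB fun a m _ => (key a m).2.1
    · exact Bq.of_le hB fun a m _ => (key a m).2.2.1
    · exact Bq.of_le hi fun a m _ => (key a m).2.2.2.1
    · exact Bq.of_le hi fun a m _ => (key a m).2.2.2.2.1
    · exact Bq.of_le (f := fun _ => 2) (by fun_prop) fun a m _ => (key a m).2.2.2.2.2

theorem ls_cat (hz : LS z) (hp : LS p) (hq : LS q) (hD : LS D) (hR : LS R) (hJ : LS J)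
    (hv : LS v) (hh : LS (fun x : α × ℕ × ℕ × ℕ => h x.1 x.2.1 x.2.2.1 x.2.2.2))
    (ht : LS (fun x : α × ℕ × ℕ => tg x.1 x.2.1 x.2.2))
    (hc : LS (fun x : α × ℕ × ℕ => ch x.1 x.2.1 x.2.2)) :
    LS (fun a => cat (z a) (p a) (q a) (D a) (R a) (h a) (tg a) (ch a) (J a) (v a)) := by
  unfold cat
  have key : ∀ a m, (lp (stp (sf (p a)) (sc (z a) (p a) (ch a)) (act (z a) (p a) (q a) (D a) (h a)
      (tg a)) (pw (z a) (R a * p a * 5)) (J a) (v a, 1, 0)) (0, 0) m).1 ≤ z a ∧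
      (lp (stp (sf (p a)) (sc (z a) (p a) (ch a)) (act (z a) (p a) (q a) (D a) (h a)
      (tg a)) (pw (z a) (R a * p a * 5)) (J a) (v a, 1, 0)) (0, 0) m).2 ≤ z a := by
    intro a m
    refine lp_inv (P := fun S : ℕ × ℕ => S.1 ≤ z a ∧ S.2 ≤ z a) ⟨Nat.zero_le _, Nat.zero_le _⟩ ?_
    intro l _ S hS
    unfold stp
    split_ifs
    · exact act_le hS.1 hS.2
    · exact hS
  have h1 := ls_lp (f := fun _ : α => ((0 : ℕ), (0 : ℕ)))
    (n := fun a => pw (z a) (R a * p a * 5) (J a))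
    (g := fun a i S => stp (sf (p a)) (sc (z a) (p a) (ch a)) (act (z a) (p a) (q a) (D a) (h a)
      (tg a)) (pw (z a) (R a * p a * 5)) (J a) (v a, 1, 0) i S) (by fun_prop) (by fun_prop) ?_
    (Bq.pair (Bq.of_le hz fun a m _ => (key a m).1) (Bq.of_le hz fun a m _ => (key a m).2))
  · fun_prop
  · unfold stp
    have hl := ls_loc (z := fun x : α × ℕ × (ℕ × ℕ) => z x.1)
      (p := fun x : α × ℕ × (ℕ × ℕ) => p x.1) (R := fun x : α × ℕ × (ℕ × ℕ) => R x.1)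
      (J := fun x : α × ℕ × (ℕ × ℕ) => J x.1) (v := fun x : α × ℕ × (ℕ × ℕ) => v x.1)
      (ch := fun x : α × ℕ × (ℕ × ℕ) => ch x.1)
      (i := fun x : α × ℕ × (ℕ × ℕ) => x.2.1) (by fun_prop) (by fun_prop) (by fun_prop)
      (by fun_prop) (by fun_prop)
      (LS.comp (f := fun x : α × ℕ × ℕ => ch x.1 x.2.1 x.2.2)
        (g := fun x : (α × ℕ × (ℕ × ℕ)) × ℕ × ℕ => (x.1.1, x.2.1, x.2.2)) hc (by fun_prop))
      (by fun_prop)
    have ha := ls_act (z := fun x : α × ℕ × (ℕ × ℕ) => z x.1)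
      (p := fun x : α × ℕ × (ℕ × ℕ) => p x.1) (q := fun x : α × ℕ × (ℕ × ℕ) => q x.1)
      (D := fun x : α × ℕ × (ℕ × ℕ) => D x.1) (h := fun x : α × ℕ × (ℕ × ℕ) => h x.1)
      (tg := fun x : α × ℕ × (ℕ × ℕ) => tg x.1)
      (c := fun x : α × ℕ × (ℕ × ℕ) => (loc (sf (p x.1)) (sc (z x.1) (p x.1) (ch x.1))
        (pw (z x.1) (R x.1 * p x.1 * 5)) (J x.1) ((v x.1, 1, 0), x.2.1, 0, 0)).1)
      (r := fun x : α × ℕ × (ℕ × ℕ) => (loc (sf (p x.1)) (sc (z x.1) (p x.1) (ch x.1))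
        (pw (z x.1) (R x.1 * p x.1 * 5)) (J x.1) ((v x.1, 1, 0), x.2.1, 0, 0)).2.2.1)
      (S := fun x => x.2.2) (by fun_prop) (by fun_prop) (by fun_prop) (by fun_prop)
      (LS.comp (f := fun x : α × ℕ × ℕ × ℕ => h x.1 x.2.1 x.2.2.1 x.2.2.2)
        (g := fun x : (α × ℕ × (ℕ × ℕ)) × ℕ × ℕ × ℕ => (x.1.1, x.2.1, x.2.2.1, x.2.2.2)) hh
        (by fun_prop))
      (LS.comp (f := fun x : α × ℕ × ℕ => tg x.1 x.2.1 x.2.2)
        (g := fun x : (α × ℕ × (ℕ × ℕ)) × ℕ × ℕ => (x.1.1, x.2.1, x.2.2)) ht (by fun_prop))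
      (LS.fst hl) (LS.fst (LS.snd (LS.snd hl))) (by fun_prop)
    refine LS.ite ?_ ha (by fun_prop)
    exact LSp.eq (LS.snd (LS.snd (LS.snd hl))) (LS.const 1)

end

end Pool.Agent.W_5d512e_h57
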