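import Pool.Agent.W_5d512e_h57.Pair
import Pool.Agent.W_MP_5d512e_dic.Cmd

/-!
# Programs for the functions computed in linear space
-/

set_option autoImplicit false

namespace Pool.Agent.W_5d512e_h57

open Pool.Agent.W_MP_5d512e_dic

section

variable {E R A : Type} [DecidableEq R]

lemma evm {N N' : ℕ} {c : Cmd E R A} {s s' : E × (R → ℕ)} {o : List A}
    (h : Ev N c s o s') (hN : N ≤ N') : Ev N' c s o s' := by
  induction h with
  | act f σ v => exact Ev.act f σ v
  | inc r σ v h => exact Ev.inc r σ v (h.trans hN)
  | dec r σ v h => exact Ev.dec r σ v h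
  | out o σ v => exact Ev.out o σ v
  | sq c c' s s' s'' o o' _ _ ih1 ih2 => exact Ev.sq c c' s s' s'' o o' ih1 ih2
  | cas f σ v s' o _ ih => exact Ev.cas f σ v s' o ih
  | ifz0 r c c' σ v s' o h0 _ ih => exact Ev.ifz0 r c c' σ v s' o h0 ih
  | ifz1 r c c' σ v s' o h0 _ ih => exact Ev.ifz1 r c c' σ v s' o h0 ih
  | wh0 r c σ v h0 => exact Ev.wh0 r c σ v h0
  | wh1 r c σ v s' s'' o o' h0 _ _ ih1 ih2 => exact Ev.wh1 r c σ v s' s'' o o' h0 ih1 ih2

/-- Loops. -/
lemma ev_loop {N : ℕ} {r : R} {c : Cmd E R A} {σ : E} (V : ℕ → R → ℕ) (n : ℕ)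
    (h0 : V 0 r = 0) (h1 : ∀ i < n, V (i + 1) r ≠ 0)
    (h2 : ∀ i < n, Ev N c (σ, V (i + 1)) [] (σ, V i)) :
    Ev N (.wh r c) (σ, V n) [] (σ, V 0) := by
  induction n with
  | zero => exact Ev.wh0 _ _ _ _ h0
  | succ n ih =>
    exact Ev.wh1' (h1 n (by omega)) (h2 n (by omega))
      (ih (fun i hi => h1 i (by omega)) (fun i hi => h2 i (by omega)))

/-- All registers of the program are less than `K`. -/
def Blw (K : ℕ) : Cmd E ℕ A → Prop
  | .act _ => True
  | .inc r => r < K
  | .dec r => r < K
  | .out _ => True
  | .sq c c' => Blw K c ∧ Blw K c'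
  | .cas f => ∀ σ, Blw K (f σ)
  | .ifz r c c' => r < K ∧ Blw K c ∧ Blw K c'
  | .wh r c => r < K ∧ Blw K c

lemma Blw.mono {K K' : ℕ} (hK : K ≤ K') {c : Cmd E ℕ A} (h : Blw K c) : Blw K' c := by
  induction c with
  | act f => trivial
  | inc r => exact lt_of_lt_of_le h hK
  | dec r => exact lt_of_lt_of_le h hK
  | out o => trivial
  | sq c c' ih1 ih2 => exact ⟨ih1 h.1, ih2 h.2⟩
  | cas f ih => exact fun σ => ih σ (h σ)
  | ifz r c c' ih1 ih2 => exact ⟨lt_of_lt_of_le h.1 hK, ih1 h.2.1, ih2 h.2.2⟩
  | wh r c ih => exact ⟨lt_of_lt_of_le h.1 hK, ih h.2⟩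

/-- Change of the registers. -/
def rmap {R R' : Type} (ρ : R → R') : Cmd E R A → Cmd E R' A
  | .act f => .act f
  | .inc r => .inc (ρ r)
  | .dec r => .dec (ρ r)
  | .out o => .out o
  | .sq c c' => .sq (rmap ρ c) (rmap ρ c')
  | .cas f => .cas fun σ => rmap ρ (f σ)
  | .ifz r c c' => .ifz (ρ r) (rmap ρ c) (rmap ρ c')
  | .wh r c => .wh (ρ r) (rmap ρ c)

/-- Registers as elements of a finite type. -/
def rf (K : ℕ) (r : ℕ) : Fin (K + 1) := Fin.ofNat (K + 1) r

lemma rf_val {K r : ℕ} (h : r < K) : ((rf K r : Fin (K + 1)) : ℕ) = r := by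
  unfold rf
  rw [Fin.val_ofNat]
  exact Nat.mod_eq_of_lt (by omega)

lemma upd_rf {K r : ℕ} (h : r < K) (v : ℕ → ℕ) (y : ℕ) :
    (fun i : Fin (K + 1) => Function.update v r y i) =
      Function.update (fun i : Fin (K + 1) => v i) (rf K r) y := by
  funext i
  simp only [Function.update_apply]
  have h1 := rf_val h
  by_cases hi : (i : ℕ) = r
  · rw [if_pos hi, if_pos (Fin.ext (by rw [h1, hi]))]
  · rw [if_neg hi, if_neg (fun h' => hi (by rw [h', h1]))]

lemma ev_fin {N K : ℕ} {c : Cmd E ℕ A} {s s' : E × (ℕ → ℕ)} {o : List A}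
    (h : Ev N c s o s') (hc : Blw K c) :
    Ev N (rmap (rf K) c) (s.1, fun i : Fin (K + 1) => s.2 i) o
      (s'.1, fun i : Fin (K + 1) => s'.2 i) := by
  induction h with
  | act f σ v => exact Ev.act f σ _
  | inc r σ v h =>
    have hr : r < K := hc
    rw [upd_rf hr]
    have := Ev.inc (A := A) (N := N) (rf K r) σ (fun i : Fin (K + 1) => v i)
      (by rw [rf_val hr]; exact h)
    rw [rf_val hr] at this
    exact this
  | dec r σ v h =>
    have hr : r < K := hc
    rw [upd_rf hr]
    have := Ev.dec (A := A) (N := N) (rf K r) σ (fun i : Fin (K + 1) => v i)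
      (by rw [rf_val hr]; exact h)
    rw [rf_val hr] at this
    exact this
  | out o σ v => exact Ev.out o σ _
  | sq c c' s s' s'' o o' _ _ ih1 ih2 => exact Ev.sq _ _ _ _ _ _ _ (ih1 hc.1) (ih2 hc.2)
  | cas f σ v s' o _ ih => exact Ev.cas _ _ _ _ _ (ih (hc σ))
  | ifz0 r c c' σ v s' o h0 _ ih =>
    exact Ev.ifz0 _ _ _ _ _ _ _ (by rw [rf_val hc.1]; exact h0) (ih hc.2.1)
  | ifz1 r c c' σ v s' o h0 _ ih =>
    exact Ev.ifz1 _ _ _ _ _ _ _ (by rw [rf_val hc.1]; exact h0) (ih hc.2.2)
  | wh0 r c σ v h0 => exact Ev.wh0 _ _ _ _ (by rw [rf_val hc.1]; exact h0)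
  | wh1 r c σ v s' s'' o o' h0 _ _ ih1 ih2 =>
    exact Ev.wh1 _ _ _ _ _ _ _ _ (by rw [rf_val hc.1]; exact h0) (ih1 hc.2) (ih2 hc)

end

section

variable {E A : Type}

/-- The program takes the pair in registers `k`, `k+1` to its code in register `k`. -/
def prg (k : ℕ) : Cmd E ℕ A :=
  .sq (cp k (k + 2) (k + 3)) (.sq (mv k (k + 1))
    (.sq (.wh (k + 1) (.sq (cp (k + 1) (k + 2) (k + 3)) (.dec (k + 1)))) (mv (k + 2) k)))

lemma blw_prg (k : ℕ) : Blw (k + 4) (prg k : Cmd E ℕ A) := by
  simp [prg, Blw, cp, mv]

lemma ev_prg {N : ℕ} (k : ℕ) (σ : E) (v : ℕ → ℕ) (h : ∀ j, k + 1 < j → v j = 0)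
    (hN : kp (v k) (v (k + 1)) ≤ N) :
    Ev (A := A) N (prg k) (σ, v) []
      (σ, Function.update (Function.update v (k + 1) 0) k (kp (v k) (v (k + 1)))) := by
  obtain ⟨a, ha⟩ : ∃ a, v k = a := ⟨_, rfl⟩
  obtain ⟨b, hb⟩ : ∃ b, v (k + 1) = b := ⟨_, rfl⟩
  have z2 : v (k + 2) = 0 := h _ (by omega)
  have z3 : v (k + 3) = 0 := h _ (by omega)
  have hsum : a + b ≤ N := by
    have := le_tri (a + b)
    unfold kp at hN
    rw [ha, hb] at hN
    omega
  -- first copy
  have h1 := ev_cp (A := A) (N := N) (a := k) (b := k + 2) (t := k + 3) (by omega) (by omega)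
    (by omega) σ v z3 (by omega)
  set v1 := Function.update v (k + 2) (v (k + 2) + v k) with hv1
  have e10 : v1 k = a := by rw [hv1, Function.update_of_ne (by omega), ha]
  have e11 : v1 (k + 1) = b := by rw [hv1, Function.update_of_ne (by omega), hb]
  have h2 := ev_mv (A := A) (N := N) (a := k) (b := k + 1) (by omega) σ v1 (by omega)
  set v2 := Function.update (Function.update v1 k 0) (k + 1) (v1 (k + 1) + v1 k) with hv2
  -- the loop
  let V : ℕ → ℕ → ℕ := fun i => Function.update (Function.update v2 (k + 1) i) (k + 2)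
    (tri (a + b) - tri i + a)
  have hV2 : v2 = V (a + b) := by
    funext j
    simp only [V, Function.update_apply]
    by_cases hj1 : j = k + 1
    · subst hj1
      rw [if_neg (by omega), if_pos rfl, hv2, Function.update_self, e10, e11]
      omega
    · by_cases hj2 : j = k + 2
      · subst hj2
        rw [if_pos rfl, hv2, Function.update_of_ne (by omega), Function.update_of_ne (by omega),
          hv1, Function.update_self, z2, ha]
        omega
      · rw [if_neg hj2, if_neg hj1]
  have h3 : Ev (A := A) N (.wh (k + 1) (.sq (cp (k + 1) (k + 2) (k + 3)) (.dec (k + 1))))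
      (σ, v2) [] (σ, V 0) := by
    rw [hV2]
    refine ev_loop V (a + b) ?_ ?_ ?_
    · simp only [V]
      rw [Function.update_of_ne (by omega), Function.update_self]
    · intro i _
      simp only [V]
      rw [Function.update_of_ne (by omega), Function.update_self]
      omega
    · intro i hi
      have f1 : V (i + 1) (k + 1) = i + 1 := by
        simp only [V]
        rw [Function.update_of_ne (by omega), Function.update_self]
      have f2 : V (i + 1) (k + 2) = tri (a + b) - tri (i + 1) + a := by
        simp only [V]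
        rw [Function.update_self]
      have f3 : V (i + 1) (k + 3) = 0 := by
        simp only [V]
        rw [Function.update_of_ne (by omega), Function.update_of_ne (by omega), hv2,
          Function.update_of_ne (by omega), Function.update_of_ne (by omega), hv1,
          Function.update_of_ne (by omega), z3]
      have mono : ∀ x y : ℕ, x ≤ y → tri x ≤ tri y := by
        intro x y hxy
        induction y, hxy using Nat.le_induction with
        | base => exact le_rfl
        | succ y _ ih =>
          simp only [tri]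
          omega
      have m1 := mono (i + 1) (a + b) (by omega)
      have m2 : tri (i + 1) = tri i + (i + 1) := rfl
      have hN' : tri (a + b) + a ≤ N := by
        unfold kp at hN
        rw [ha, hb] at hN
        exact hN
      have g1 := ev_cp (A := A) (N := N) (a := k + 1) (b := k + 2) (t := k + 3) (by omega)
        (by omega) (by omega) σ (V (i + 1)) f3 (by rw [f1, f2]; omega)
      refine Ev.sq0 g1 ?_
      set v3 := Function.update (V (i + 1)) (k + 2) (V (i + 1) (k + 2) + V (i + 1) (k + 1))
        with hv3
      have g2 : v3 (k + 1) = i + 1 := by rw [hv3, Function.update_of_ne (by omega), f1]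
      have g3 := Ev.dec (A := A) (N := N) (k + 1) σ v3 (by omega)
      have e : Function.update v3 (k + 1) (v3 (k + 1) - 1) = V i := by
        funext j
        by_cases hj1 : j = k + 1
        · subst hj1
          simp only [V]
          rw [Function.update_self, g2, Function.update_of_ne (by omega), Function.update_self]
          omega
        · rw [Function.update_of_ne hj1, hv3]
          by_cases hj2 : j = k + 2
          · subst hj2
            simp only [V]
            rw [Function.update_self, Function.update_self, Function.update_of_ne (by omega),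
              Function.update_self, Function.update_self]
            omega
          · simp only [V]
            rw [Function.update_of_ne hj2, Function.update_of_ne hj2, Function.update_of_ne hj1,
              Function.update_of_ne hj2, Function.update_of_ne hj1]
      rw [e] at g3
      exact g3
  have e20 : V 0 k = 0 := by
    simp only [V]
    rw [Function.update_of_ne (by omega), Function.update_of_ne (by omega), hv2,
      Function.update_of_ne (by omega), Function.update_self]
  have e22 : V 0 (k + 2) = kp a b := by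
    simp only [V]
    rw [Function.update_self]
    simp [kp, tri]
  have h4 := ev_mv (A := A) (N := N) (a := k + 2) (b := k) (by omega) σ (V 0) (by
    rw [e20, e22]
    rw [ha, hb] at hN
    omega)
  have e : Function.update (Function.update (V 0) (k + 2) 0) k (V 0 k + V 0 (k + 2)) =
      Function.update (Function.update v (k + 1) 0) k (kp (v k) (v (k + 1))) := by
    rw [e20, e22, ha, hb, zero_add]
    funext j
    by_cases hj0 : j = k
    · subst hj0
      rw [Function.update_self, Function.update_self]
    · rw [Function.update_of_ne hj0, Function.update_of_ne hj0]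
      by_cases hj2 : j = k + 2
      · subst hj2
        rw [Function.update_self, Function.update_of_ne (by omega), z2]
      · rw [Function.update_of_ne hj2]
        simp only [V]
        rw [Function.update_of_ne hj2]
        by_cases hj1 : j = k + 1
        · subst hj1
          rw [Function.update_self, Function.update_self]
        · rw [Function.update_of_ne hj1, Function.update_of_ne hj1, hv2,
            Function.update_of_ne hj1, Function.update_of_ne hj0, hv1,
            Function.update_of_ne hj2]
  rw [e] at h4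
  exact Ev.sq0 h1 (Ev.sq0 h2 (Ev.sq0 h3 h4))

/-- The program splits the pair in register `k` into registers `k+1`, `k+2`. -/
def unp (k : ℕ) : Cmd E ℕ A :=
  .sq (cp k (k + 3) (k + 4)) (.wh (k + 3) (.sq (.dec (k + 3))
    (.ifz (k + 2) (.sq (mv (k + 1) (k + 2)) (.inc (k + 2))) (.sq (.dec (k + 2)) (.inc (k + 1))))))

lemma blw_unp (k : ℕ) : Blw (k + 5) (unp k : Cmd E ℕ A) := by
  simp [unp, Blw, cp, mv]

lemma ku_le (n : ℕ) : (ku n).1 ≤ n ∧ (ku n).2 ≤ n := by
  have h1 := left_le_kp (ku n).1 (ku n).2
  have h2 := right_le_kp (ku n).1 (ku n).2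
  rw [kp_ku] at h1 h2
  exact ⟨h1, h2⟩

lemma ku_sum (n : ℕ) : (ku n).1 + (ku n).2 ≤ n := by
  have h := kp_ku n
  unfold kp at h
  have := le_tri ((ku n).1 + (ku n).2)
  omega

lemma ev_unp {N : ℕ} (k : ℕ) (σ : E) (v : ℕ → ℕ) (h : ∀ j, k < j → v j = 0) (hN : v k ≤ N) :
    Ev (A := A) N (unp k) (σ, v) []
      (σ, Function.update (Function.update v (k + 1) (ku (v k)).1) (k + 2) (ku (v k)).2) := by
  obtain ⟨n, hn⟩ : ∃ n, v k = n := ⟨_, rfl⟩
  have z1 : v (k + 1) = 0 := h _ (by omega)
  have z2 : v (k + 2) = 0 := h _ (by omega)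
  have z3 : v (k + 3) = 0 := h _ (by omega)
  have z4 : v (k + 4) = 0 := h _ (by omega)
  have h1 := ev_cp (A := A) (N := N) (a := k) (b := k + 3) (t := k + 4) (by omega) (by omega)
    (by omega) σ v z4 (by omega)
  set v1 := Function.update v (k + 3) (v (k + 3) + v k) with hv1
  let V : ℕ → ℕ → ℕ := fun i => Function.update (Function.update (Function.update v (k + 3) i)
    (k + 1) (ku (n - i)).1) (k + 2) (ku (n - i)).2
  have hV1 : v1 = V n := by
    funext j
    simp only [V]
    by_cases hj2 : j = k + 2
    · subst hj2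
      rw [Function.update_self, hv1, Function.update_of_ne (by omega), z2, Nat.sub_self]
      rfl
    · rw [Function.update_of_ne hj2]
      by_cases hj1 : j = k + 1
      · subst hj1
        rw [Function.update_self, hv1, Function.update_of_ne (by omega), z1, Nat.sub_self]
        rfl
      · rw [Function.update_of_ne hj1, hv1, z3, hn, zero_add]
  have hV0 : V 0 = Function.update (Function.update v (k + 1) (ku (v k)).1) (k + 2)
      (ku (v k)).2 := by
    funext j
    simp only [V, hn, Nat.sub_zero]
    by_cases hj2 : j = k + 2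
    · subst hj2
      rw [Function.update_self, Function.update_self]
    · rw [Function.update_of_ne hj2, Function.update_of_ne hj2]
      by_cases hj1 : j = k + 1
      · subst hj1
        rw [Function.update_self, Function.update_self]
      · rw [Function.update_of_ne hj1, Function.update_of_ne hj1]
        by_cases hj3 : j = k + 3
        · subst hj3
          rw [Function.update_self, z3]
        · rw [Function.update_of_ne hj3]
  rw [← hV0]
  refine Ev.sq0 h1 ?_
  rw [hV1]
  have V1 : ∀ i, V i (k + 1) = (ku (n - i)).1 := by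
    intro i
    simp only [V]
    rw [Function.update_of_ne (by omega), Function.update_self]
  have V2 : ∀ i, V i (k + 2) = (ku (n - i)).2 := by
    intro i
    simp only [V]
    rw [Function.update_self]
  have V3 : ∀ i, V i (k + 3) = i := by
    intro i
    simp only [V]
    rw [Function.update_of_ne (by omega), Function.update_of_ne (by omega), Function.update_self]
  have V4 : ∀ i j, j ≠ k + 1 → j ≠ k + 2 → j ≠ k + 3 → V i j = v j := by
    intro i j h1 h2 h3
    simp only [V]
    rw [Function.update_of_ne h2, Function.update_of_ne h1, Function.update_of_ne h3]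
  refine ev_loop V n (V3 0) (fun i _ => by rw [V3]; omega) ?_
  intro i hi
  have hs : n - i = (n - (i + 1)) + 1 := by omega
  have hku : ku (n - i) = nx (ku (n - (i + 1))) := by
    rw [hs]
    unfold ku
    rw [Function.iterate_succ_apply']
  have hle := ku_sum (n - (i + 1))
  have hle' := ku_sum (n - i)
  refine Ev.sq0 (Ev.dec (k + 3) σ (V (i + 1)) (by rw [V3]; omega)) ?_
  set v2 := Function.update (V (i + 1)) (k + 3) (V (i + 1) (k + 3) - 1) with hv2
  have w1 : v2 (k + 1) = (ku (n - (i + 1))).1 := by
    rw [hv2, Function.update_of_ne (by omega), V1]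
  have w2 : v2 (k + 2) = (ku (n - (i + 1))).2 := by
    rw [hv2, Function.update_of_ne (by omega), V2]
  have w3 : v2 (k + 3) = i := by
    rw [hv2, Function.update_self, V3]
    rfl
  have w4 : ∀ j, j ≠ k + 1 → j ≠ k + 2 → j ≠ k + 3 → v2 j = v j := by
    intro j h1 h2 h3
    rw [hv2, Function.update_of_ne h3, V4 _ _ h1 h2 h3]
  by_cases hz : (ku (n - (i + 1))).2 = 0
  · refine Ev.ifz0 _ _ _ _ _ _ _ (by rw [w2]; exact hz) ?_
    have g1 := ev_mv (A := A) (N := N) (a := k + 1) (b := k + 2) (by omega) σ v2 (by
      rw [w1, w2]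
      omega)
    refine Ev.sq0 g1 ?_
    set v3 := Function.update (Function.update v2 (k + 1) 0) (k + 2) (v2 (k + 2) + v2 (k + 1))
      with hv3
    have x2 : v3 (k + 2) = (ku (n - (i + 1))).1 := by
      rw [hv3, Function.update_self, w1, w2, hz, zero_add]
    have g2 := Ev.inc (A := A) (N := N) (k + 2) σ v3 (by rw [x2]; omega)
    have e : Function.update v3 (k + 2) (v3 (k + 2) + 1) = V i := by
      have hnx : nx (ku (n - (i + 1))) = (0, (ku (n - (i + 1))).1 + 1) := by
        unfold nx
        rw [if_pos hz]
      funext j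
      by_cases hj2 : j = k + 2
      · subst hj2
        rw [Function.update_self, x2, V2, hku, hnx]
      · rw [Function.update_of_ne hj2]
        by_cases hj1 : j = k + 1
        · subst hj1
          rw [hv3, Function.update_of_ne (by omega), Function.update_self, V1, hku, hnx]
        · rw [hv3, Function.update_of_ne hj2, Function.update_of_ne hj1]
          by_cases hj3 : j = k + 3
          · subst hj3
            rw [w3, V3]
          · rw [w4 j hj1 hj2 hj3, V4 _ _ hj1 hj2 hj3]
    rw [e] at g2
    exact g2
  · refine Ev.ifz1 _ _ _ _ _ _ _ (by rw [w2]; exact hz) ?_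
    have g1 := Ev.dec (A := A) (N := N) (k + 2) σ v2 (by rw [w2]; exact hz)
    refine Ev.sq0 g1 ?_
    set v3 := Function.update v2 (k + 2) (v2 (k + 2) - 1) with hv3
    have x1 : v3 (k + 1) = (ku (n - (i + 1))).1 := by
      rw [hv3, Function.update_of_ne (by omega), w1]
    have g2 := Ev.inc (A := A) (N := N) (k + 1) σ v3 (by rw [x1]; omega)
    have e : Function.update v3 (k + 1) (v3 (k + 1) + 1) = V i := by
      have hnx : nx (ku (n - (i + 1))) =
          ((ku (n - (i + 1))).1 + 1, (ku (n - (i + 1))).2 - 1) := by
        unfold nx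
        rw [if_neg hz]
      funext j
      by_cases hj1 : j = k + 1
      · subst hj1
        rw [Function.update_self, x1, V1, hku, hnx]
      · rw [Function.update_of_ne hj1]
        by_cases hj2 : j = k + 2
        · subst hj2
          rw [hv3, Function.update_self, w2, V2, hku, hnx]
        · rw [hv3, Function.update_of_ne hj2]
          by_cases hj3 : j = k + 3
          · subst hj3
            rw [w3, V3]
          · rw [w4 j hj1 hj2 hj3, V4 _ _ hj1 hj2 hj3]
    rw [e] at g2
    exact g2

/-- The function has a program. -/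
def Im (E A : Type) (f : ℕ → ℕ) : Prop :=
  ∃ (P : ℕ → Cmd E ℕ A) (w e : ℕ), (∀ k, Blw (k + w) (P k)) ∧ (∀ x, f x ≤ (x + 2) ^ e) ∧
    ∀ (k : ℕ) (σ : E) (v : ℕ → ℕ), (∀ j, k < j → v j = 0) →
      Ev ((v k + 2) ^ e) (P k) (σ, v) [] (σ, Function.update v (k + 1) (f (v k)))

lemma im_zero : Im E A (fun _ => 0) := by
  refine ⟨fun _ => skp, 0, 0, fun k => trivial, fun x => Nat.zero_le _, ?_⟩
  intro k σ v h
  have e : Function.update v (k + 1) 0 = v := by
    rw [← h (k + 1) (by omega), Function.update_eq_self]
  rw [e]
  exact ev_skp _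

lemma le_pow_one {x e : ℕ} (he : 1 ≤ e) : x + 1 ≤ (x + 2) ^ e := by
  calc x + 1 ≤ (x + 2) ^ 1 := by simp
    _ ≤ (x + 2) ^ e := pow_le_pow2 he

lemma im_id : Im E A (fun x => x) := by
  refine ⟨fun k => cp k (k + 1) (k + 2), 3, 1, fun k => by simp [Blw, cp, mv],
    fun x => by show _ ≤ _; simp only [pow_one]; omega, ?_⟩
  intro k σ v h
  have z1 : v (k + 1) = 0 := h _ (by omega)
  have z2 : v (k + 2) = 0 := h _ (by omega)
  have h1 := ev_cp (A := A) (N := (v k + 2) ^ 1) (a := k) (b := k + 1) (t := k + 2) (by omega)
    (by omega) (by omega) σ v z2 (by rw [pow_one]; omega)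
  rw [z1, zero_add] at h1
  exact h1

lemma im_succ : Im E A (fun x => x + 1) := by
  refine ⟨fun k => .sq (cp k (k + 1) (k + 2)) (.inc (k + 1)), 3, 1,
    fun k => by simp [Blw, cp, mv], fun x => by show _ ≤ _; simp only [pow_one]; omega, ?_⟩
  intro k σ v h
  have z1 : v (k + 1) = 0 := h _ (by omega)
  have z2 : v (k + 2) = 0 := h _ (by omega)
  have h1 := ev_cp (A := A) (N := (v k + 2) ^ 1) (a := k) (b := k + 1) (t := k + 2) (by omega)
    (by omega) (by omega) σ v z2 (by rw [pow_one]; omega)
  rw [z1, zero_add] at h1
  have h2 := Ev.inc (A := A) (N := (v k + 2) ^ 1) (k + 1) σ (Function.update v (k + 1) (v k))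
    (by rw [Function.update_self, pow_one]; omega)
  rw [Function.update_idem, Function.update_self] at h2
  exact Ev.sq0 h1 h2

lemma im_fst : Im E A (fun x => (ku x).1) := by
  refine ⟨fun k => .sq (unp k) (clr (k + 2)), 5, 1,
    fun k => ⟨blw_unp k, by simp [Blw, clr]⟩,
    fun x => by have := (ku_le x).1; show _ ≤ _; simp only [pow_one]; omega, ?_⟩
  intro k σ v h
  have z2 : v (k + 2) = 0 := h _ (by omega)
  have h1 := ev_unp (A := A) (N := (v k + 2) ^ 1) k σ v h (by rw [pow_one]; omega)
  have h2 := ev_cl (A := A) (N := (v k + 2) ^ 1) (k + 2) σ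
    (Function.update (Function.update v (k + 1) (ku (v k)).1) (k + 2) (ku (v k)).2)
  rw [Function.update_idem] at h2
  have e : Function.update (Function.update v (k + 1) (ku (v k)).1) (k + 2) 0 =
      Function.update v (k + 1) (ku (v k)).1 := by
    funext j
    by_cases hj2 : j = k + 2
    · subst hj2
      rw [Function.update_self, Function.update_of_ne (by omega), z2]
    · rw [Function.update_of_ne hj2]
  rw [e] at h2
  exact Ev.sq0 h1 h2

lemma im_snd : Im E A (fun x => (ku x).2) := by
  refine ⟨fun k => .sq (unp k) (.sq (clr (k + 1)) (mv (k + 2) (k + 1))), 5, 1,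
    fun k => ⟨blw_unp k, by simp [Blw, clr, mv]⟩,
    fun x => by have := (ku_le x).2; show _ ≤ _; simp only [pow_one]; omega, ?_⟩
  intro k σ v h
  have z2 : v (k + 2) = 0 := h _ (by omega)
  have h1 := ev_unp (A := A) (N := (v k + 2) ^ 1) k σ v h (by rw [pow_one]; omega)
  set v1 := Function.update (Function.update v (k + 1) (ku (v k)).1) (k + 2) (ku (v k)).2
    with hv1
  have h2 := ev_cl (A := A) (N := (v k + 2) ^ 1) (k + 1) σ v1
  set v2 := Function.update v1 (k + 1) 0 with hv2
  have w1 : v2 (k + 1) = 0 := by rw [hv2, Function.update_self]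
  have w2 : v2 (k + 2) = (ku (v k)).2 := by
    rw [hv2, Function.update_of_ne (by omega), hv1, Function.update_self]
  have h3 := ev_mv (A := A) (N := (v k + 2) ^ 1) (a := k + 2) (b := k + 1) (by omega) σ v2 (by
    rw [w1, w2, pow_one]
    have := (ku_le (v k)).2
    omega)
  have e : Function.update (Function.update v2 (k + 2) 0) (k + 1) (v2 (k + 1) + v2 (k + 2)) =
      Function.update v (k + 1) (ku (v k)).2 := by
    rw [w1, w2, zero_add]
    funext j
    by_cases hj1 : j = k + 1
    · subst hj1
      rw [Function.update_self, Function.update_self]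
    · rw [Function.update_of_ne hj1, Function.update_of_ne hj1]
      by_cases hj2 : j = k + 2
      · subst hj2
        rw [Function.update_self, z2]
      · rw [Function.update_of_ne hj2, hv2, Function.update_of_ne hj1, hv1,
          Function.update_of_ne hj2, Function.update_of_ne hj1]
  rw [e] at h3
  exact Ev.sq0 h1 (Ev.sq0 h2 h3)

lemma im_comp {f g : ℕ → ℕ} (hf : Im E A f) (hg : Im E A g) : Im E A (fun x => f (g x)) := by
  obtain ⟨P, w, e, hP, bf, sf⟩ := hf
  obtain ⟨P', w', e', hP', bg, sg⟩ := hg
  refine ⟨fun k => .sq (P' k) (.sq (P (k + 1)) (.sq (clr (k + 1)) (mv (k + 2) (k + 1)))),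
    w + w' + 3, e' + (e' + 2) * e, ?_, ?_, ?_⟩
  · intro k
    exact ⟨(hP' k).mono (by omega), (hP (k + 1)).mono (by omega), by simp [Blw, clr],
      by simp [Blw, mv]⟩
  · intro x
    exact ((bf _).trans (pow_comp (bg x))).trans (pow_le_pow2 (by omega))
  · intro k σ v h
    set N := (v k + 2) ^ (e' + (e' + 2) * e) with hN
    have h1 := evm (sg k σ v h) (pow_le_pow2 (show e' ≤ e' + (e' + 2) * e by omega))
    rw [← hN] at h1
    set v1 := Function.update v (k + 1) (g (v k)) with hv1
    have w1 : v1 (k + 1) = g (v k) := by rw [hv1, Function.update_self]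
    have h2 := sf (k + 1) σ v1 (fun j hj => by
      rw [hv1, Function.update_of_ne (by omega)]
      exact h j (by omega))
    rw [w1] at h2
    have hN2 : (g (v k) + 2) ^ e ≤ N := (pow_comp (bg (v k))).trans (pow_le_pow2 (by omega))
    have h2' := evm h2 hN2
    set v2 := Function.update v1 (k + 1 + 1) (f (g (v k))) with hv2
    have h3 := ev_cl (A := A) (N := N) (k + 1) σ v2
    set v3 := Function.update v2 (k + 1) 0 with hv3
    have x1 : v3 (k + 1) = 0 := by rw [hv3, Function.update_self]
    have x2 : v3 (k + 2) = f (g (v k)) := by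
      rw [hv3, Function.update_of_ne (by omega), hv2, Function.update_self]
    have h4 := ev_mv (A := A) (N := N) (a := k + 2) (b := k + 1) (by omega) σ v3 (by
      rw [x1, x2]
      have := (bf (g (v k))).trans hN2
      omega)
    have ee : Function.update (Function.update v3 (k + 2) 0) (k + 1) (v3 (k + 1) + v3 (k + 2)) =
        Function.update v (k + 1) (f (g (v k))) := by
      rw [x1, x2, zero_add]
      funext j
      by_cases hj1 : j = k + 1
      · subst hj1
        rw [Function.update_self, Function.update_self]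
      · rw [Function.update_of_ne hj1, Function.update_of_ne hj1]
        by_cases hj2 : j = k + 2
        · subst hj2
          rw [Function.update_self, h _ (by omega)]
        · rw [Function.update_of_ne hj2, hv3, Function.update_of_ne hj1, hv2,
            Function.update_of_ne hj2, hv1, Function.update_of_ne hj1]
    rw [ee] at h4
    exact Ev.sq0 h1 (Ev.sq0 h2' (Ev.sq0 h3 h4))

lemma im_pair {f g : ℕ → ℕ} (hf : Im E A f) (hg : Im E A g) :
    Im E A (fun x => kp (f x) (g x)) := by
  obtain ⟨P, w, e, hP, bf, sf⟩ := hf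
  obtain ⟨P', w', e', hP', bg, sg⟩ := hg
  refine ⟨fun k => .sq (P k) (.sq (cp k (k + 2) (k + 3)) (.sq (P' (k + 2))
    (.sq (clr (k + 2)) (.sq (mv (k + 3) (k + 2)) (prg (k + 1)))))),
    w + w' + 5, 2 * (e + e') + 4, ?_, ?_, ?_⟩
  · intro k
    exact ⟨(hP k).mono (by omega), by simp [Blw, cp, mv], (hP' (k + 2)).mono (by omega),
      by simp [Blw, clr], by simp [Blw, mv], (blw_prg (k + 1)).mono (by omega)⟩
  · intro x
    exact kp_le_pow ((bf x).trans (pow_le_pow2 (by omega))) ((bg x).trans (pow_le_pow2 (by omega)))
  · intro k σ v h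
    set N := (v k + 2) ^ (2 * (e + e') + 4) with hN
    have hkp : kp (f (v k)) (g (v k)) ≤ N :=
      kp_le_pow ((bf (v k)).trans (pow_le_pow2 (by omega)))
        ((bg (v k)).trans (pow_le_pow2 (by omega)))
    have hx : v k + 1 ≤ N := le_pow_one (by omega)
    have h1 := evm (sf k σ v h) (pow_le_pow2 (show e ≤ 2 * (e + e') + 4 by omega))
    rw [← hN] at h1
    set v1 := Function.update v (k + 1) (f (v k)) with hv1
    have a0 : v1 k = v k := by rw [hv1, Function.update_of_ne (by omega)]
    have a1 : v1 (k + 1) = f (v k) := by rw [hv1, Function.update_self]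
    have a2 : ∀ j, k + 1 < j → v1 j = 0 := by
      intro j hj
      rw [hv1, Function.update_of_ne (by omega), h j (by omega)]
    have h2 := ev_cp (A := A) (N := N) (a := k) (b := k + 2) (t := k + 3) (by omega) (by omega)
      (by omega) σ v1 (a2 _ (by omega)) (by rw [a0, a2 _ (by omega)]; omega)
    rw [a0, a2 (k + 2) (by omega), zero_add] at h2
    set v2 := Function.update v1 (k + 2) (v k) with hv2
    have b1 : v2 (k + 1) = f (v k) := by rw [hv2, Function.update_of_ne (by omega), a1]
    have b2 : v2 (k + 2) = v k := by rw [hv2, Function.update_self]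
    have b3 : ∀ j, k + 2 < j → v2 j = 0 := by
      intro j hj
      rw [hv2, Function.update_of_ne (by omega), a2 j (by omega)]
    have h3 := evm (N' := N) (sg (k + 2) σ v2 b3) (by
      rw [b2]
      exact pow_le_pow2 (by omega))
    rw [b2] at h3
    set v3 := Function.update v2 (k + 2 + 1) (g (v k)) with hv3
    have c3 : v3 (k + 3) = g (v k) := by rw [hv3, Function.update_self]
    have h4 := ev_cl (A := A) (N := N) (k + 2) σ v3
    set v4 := Function.update v3 (k + 2) 0 with hv4
    have d2 : v4 (k + 2) = 0 := by rw [hv4, Function.update_self]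
    have d3 : v4 (k + 3) = g (v k) := by rw [hv4, Function.update_of_ne (by omega), c3]
    have h5 := ev_mv (A := A) (N := N) (a := k + 3) (b := k + 2) (by omega) σ v4 (by
      rw [d2, d3]
      have := right_le_kp (f (v k)) (g (v k))
      omega)
    set v5 := Function.update (Function.update v4 (k + 3) 0) (k + 2) (v4 (k + 2) + v4 (k + 3))
      with hv5
    have g1 : v5 (k + 1) = f (v k) := by
      rw [hv5, Function.update_of_ne (by omega), Function.update_of_ne (by omega), hv4,
        Function.update_of_ne (by omega), hv3, Function.update_of_ne (by omega), b1]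
    have g2 : v5 (k + 2) = g (v k) := by rw [hv5, Function.update_self, d2, d3, zero_add]
    have g3 : ∀ j, k + 2 < j → v5 j = 0 := by
      intro j hj
      rw [hv5, Function.update_of_ne (by omega)]
      by_cases hj3 : j = k + 3
      · subst hj3
        rw [Function.update_self]
      · rw [Function.update_of_ne hj3, hv4, Function.update_of_ne (by omega), hv3,
          Function.update_of_ne (by omega), b3 j hj]
    have h6 := ev_prg (A := A) (N := N) (k + 1) σ v5 (fun j hj => g3 j (by omega)) (by
      rw [g1]
      show kp (f (v k)) (v5 (k + 2)) ≤ N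
      rw [g2]
      exact hkp)
    have ee : Function.update (Function.update v5 (k + 1 + 1) 0) (k + 1)
        (kp (v5 (k + 1)) (v5 (k + 1 + 1))) = Function.update v (k + 1) (kp (f (v k)) (g (v k))) := by
      rw [g1]
      show Function.update (Function.update v5 (k + 2) 0) (k + 1)
        (kp (f (v k)) (v5 (k + 2))) = _
      rw [g2]
      funext j
      by_cases hj1 : j = k + 1
      · subst hj1
        rw [Function.update_self, Function.update_self]
      · rw [Function.update_of_ne hj1, Function.update_of_ne hj1]
        by_cases hj2 : j = k + 2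
        · subst hj2
          rw [Function.update_self, h _ (by omega)]
        · rw [Function.update_of_ne hj2]
          by_cases hj3 : j = k + 3
          · subst hj3
            rw [g3 _ (by omega), h _ (by omega)]
          · rw [hv5, Function.update_of_ne hj2, Function.update_of_ne hj3, hv4,
              Function.update_of_ne hj2, hv3, Function.update_of_ne hj3, hv2,
              Function.update_of_ne hj2, hv1, Function.update_of_ne hj1]
    rw [ee] at h6
    exact Ev.sq0 h1 (Ev.sq0 h2 (Ev.sq0 h3 (Ev.sq0 h4 (Ev.sq0 h5 h6))))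

/-- The body of the loop. -/
def lbody (P : ℕ → Cmd E ℕ A) (k : ℕ) : Cmd E ℕ A :=
  .sq (.dec (k + 1)) (.sq (cp k (k + 3) (k + 5)) (.sq (mv (k + 2) (k + 4)) (.sq (prg (k + 3))
    (.sq (P (k + 3)) (.sq (clr (k + 3)) (mv (k + 4) (k + 2)))))))

lemma ev_lbody {P : ℕ → Cmd E ℕ A} {g : ℕ → ℕ} {e N : ℕ}
    (sg : ∀ (k : ℕ) (σ : E) (v : ℕ → ℕ), (∀ j, k < j → v j = 0) →
      Ev ((v k + 2) ^ e) (P k) (σ, v) [] (σ, Function.update v (k + 1) (g (v k))))
    (k : ℕ) (σ : E) (v : ℕ → ℕ) (h : ∀ j, k + 2 < j → v j = 0) (h1 : v (k + 1) ≠ 0)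
    (hN : kp (v k) (v (k + 2)) ≤ N) (hN2 : (kp (v k) (v (k + 2)) + 2) ^ e ≤ N)
    (hN3 : g (kp (v k) (v (k + 2))) ≤ N) :
    Ev N (lbody P k) (σ, v) []
      (σ, Function.update (Function.update v (k + 1) (v (k + 1) - 1)) (k + 2)
        (g (kp (v k) (v (k + 2))))) := by
  have hl := left_le_kp (v k) (v (k + 2))
  have hr := right_le_kp (v k) (v (k + 2))
  have s1 := Ev.dec (A := A) (N := N) (k + 1) σ v h1
  set v1 := Function.update v (k + 1) (v (k + 1) - 1) with hv1
  have a0 : v1 k = v k := by rw [hv1, Function.update_of_ne (by omega)]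
  have a2 : v1 (k + 2) = v (k + 2) := by rw [hv1, Function.update_of_ne (by omega)]
  have a3 : ∀ j, k + 2 < j → v1 j = 0 := by
    intro j hj
    rw [hv1, Function.update_of_ne (by omega), h j hj]
  have s2 := ev_cp (A := A) (N := N) (a := k) (b := k + 3) (t := k + 5) (by omega) (by omega)
    (by omega) σ v1 (a3 _ (by omega)) (by rw [a0, a3 _ (by omega)]; omega)
  rw [a0, a3 (k + 3) (by omega), zero_add] at s2
  set v2 := Function.update v1 (k + 3) (v k) with hv2
  have b2 : v2 (k + 2) = v (k + 2) := by rw [hv2, Function.update_of_ne (by omega), a2]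
  have b3 : v2 (k + 3) = v k := by rw [hv2, Function.update_self]
  have b4 : ∀ j, k + 3 < j → v2 j = 0 := by
    intro j hj
    rw [hv2, Function.update_of_ne (by omega), a3 j (by omega)]
  have s3 := ev_mv (A := A) (N := N) (a := k + 2) (b := k + 4) (by omega) σ v2 (by
    rw [b2, b4 _ (by omega)]
    omega)
  rw [b2, b4 (k + 4) (by omega), zero_add] at s3
  set v3 := Function.update (Function.update v2 (k + 2) 0) (k + 4) (v (k + 2)) with hv3
  have c2 : v3 (k + 2) = 0 := by
    rw [hv3, Function.update_of_ne (by omega), Function.update_self]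
  have c3 : v3 (k + 3) = v k := by
    rw [hv3, Function.update_of_ne (by omega), Function.update_of_ne (by omega), b3]
  have c4 : v3 (k + 3 + 1) = v (k + 2) := by
    show v3 (k + 4) = _
    rw [hv3, Function.update_self]
  have c5 : ∀ j, k + 3 + 1 < j → v3 j = 0 := by
    intro j hj
    rw [hv3, Function.update_of_ne (by omega), Function.update_of_ne (by omega),
      b4 j (by omega)]
  have s4 := ev_prg (A := A) (N := N) (k + 3) σ v3 c5 (by rw [c3, c4]; exact hN)
  rw [c3, c4] at s4
  set v4 := Function.update (Function.update v3 (k + 3 + 1) 0) (k + 3) (kp (v k) (v (k + 2)))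
    with hv4
  have d2 : v4 (k + 2) = 0 := by
    rw [hv4, Function.update_of_ne (by omega), Function.update_of_ne (by omega), c2]
  have d3 : v4 (k + 3) = kp (v k) (v (k + 2)) := by rw [hv4, Function.update_self]
  have d4 : ∀ j, k + 3 < j → v4 j = 0 := by
    intro j hj
    rw [hv4, Function.update_of_ne (by omega)]
    by_cases hj4 : j = k + 3 + 1
    · rw [hj4, Function.update_self]
    · rw [Function.update_of_ne hj4, c5 j (by omega)]
  have s5 := evm (N' := N) (sg (k + 3) σ v4 d4) (by rw [d3]; exact hN2)
  rw [d3] at s5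
  set v5 := Function.update v4 (k + 3 + 1) (g (kp (v k) (v (k + 2)))) with hv5
  have s6 := ev_cl (A := A) (N := N) (k + 3) σ v5
  set v6 := Function.update v5 (k + 3) 0 with hv6
  have f2 : v6 (k + 2) = 0 := by
    rw [hv6, Function.update_of_ne (by omega), hv5, Function.update_of_ne (by omega), d2]
  have f4 : v6 (k + 4) = g (kp (v k) (v (k + 2))) := by
    rw [hv6, Function.update_of_ne (by omega), hv5, Function.update_self]
  have s7 := ev_mv (A := A) (N := N) (a := k + 4) (b := k + 2) (by omega) σ v6 (by
    rw [f2, f4]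
    omega)
  rw [f2, f4, zero_add] at s7
  have ee : Function.update (Function.update v6 (k + 4) 0) (k + 2)
      (g (kp (v k) (v (k + 2)))) = Function.update v1 (k + 2) (g (kp (v k) (v (k + 2)))) := by
    funext j
    by_cases hj2 : j = k + 2
    · subst hj2
      rw [Function.update_self, Function.update_self]
    · rw [Function.update_of_ne hj2, Function.update_of_ne hj2]
      by_cases hj4 : j = k + 4
      · subst hj4
        rw [Function.update_self, a3 _ (by omega)]
      · rw [Function.update_of_ne hj4]
        by_cases hj3 : j = k + 3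
        · subst hj3
          rw [hv6, Function.update_self, a3 _ (by omega)]
        · rw [hv6, Function.update_of_ne hj3, hv5, Function.update_of_ne hj4, hv4,
            Function.update_of_ne hj3, Function.update_of_ne hj4, hv3,
            Function.update_of_ne hj4, Function.update_of_ne hj2, hv2,
            Function.update_of_ne hj3]
  rw [ee] at s7
  exact Ev.sq0 s1 (Ev.sq0 s2 (Ev.sq0 s3 (Ev.sq0 s4 (Ev.sq0 s5 (Ev.sq0 s6 s7)))))

lemma blw_lbody {P : ℕ → Cmd E ℕ A} {w : ℕ} (hP : ∀ k, Blw (k + w) (P k)) (k : ℕ) :
    Blw (k + w + 9) (lbody P k) :=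
  ⟨by simp only [Blw]; omega, by simp only [Blw, cp, mv]; omega, by simp only [Blw, mv]; omega,
    (blw_prg (k + 3)).mono (by omega), (hP (k + 3)).mono (by omega),
    by simp only [Blw, clr]; omega, by simp only [Blw, mv]; omega⟩

lemma im_iter {f n g : ℕ → ℕ} (hf : Im E A f) (hn : Im E A n) (hg : Im E A g) (c : ℕ)
    (hb : ∀ x i, i ≤ n x → (fun s => g (kp x s))^[i] (f x) ≤ (x + 2) ^ c) :
    Im E A (fun x => (fun s => g (kp x s))^[n x] (f x)) := by
  obtain ⟨P, w, e, hP, bf, sf⟩ := hf
  obtain ⟨P', w', e', hP', bn, sn⟩ := hn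
  obtain ⟨P'', w'', e'', hP'', bg, sg⟩ := hg
  set ex := e + e' + (c + 1) + (2 * (c + 1) + 4) + (2 * (c + 1) + 4 + 2) * e'' with hex
  refine ⟨fun k => .sq (P' k) (.sq (cp k (k + 2) (k + 3)) (.sq (P (k + 2)) (.sq (clr (k + 2))
    (.sq (mv (k + 3) (k + 2)) (.sq (.wh (k + 1) (lbody P'' k)) (mv (k + 2) (k + 1))))))),
    w + w' + w'' + 9, ex, ?_, ?_, ?_⟩
  · intro k
    exact ⟨(hP' k).mono (by omega), by simp only [Blw, cp, mv]; omega,
      (hP (k + 2)).mono (by omega), by simp only [Blw, clr]; omega, by simp only [Blw, mv]; omega,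
      ⟨by omega, (blw_lbody hP'' k).mono (by omega)⟩, by simp only [Blw, mv]; omega⟩
  · intro x
    exact (hb x (n x) le_rfl).trans (pow_le_pow2 (by omega))
  · intro k σ v h
    set x := v k with hx
    set N := (x + 2) ^ ex with hN
    have hxN : x + 1 ≤ N := le_pow_one (by omega)
    have hnN : n x ≤ N := (bn x).trans (pow_le_pow2 (by omega))
    have hfN : f x ≤ N := (bf x).trans (pow_le_pow2 (by omega))
    have hsN : ∀ i, i ≤ n x → (fun s => g (kp x s))^[i] (f x) ≤ N := fun i hi =>
      (hb x i hi).trans (pow_le_pow2 (by omega))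
    have hkc : ∀ i, i ≤ n x → kp x ((fun s => g (kp x s))^[i] (f x)) ≤
        (x + 2) ^ (2 * (c + 1) + 4) := fun i hi =>
      kp_le_pow (by
        have : x + 1 ≤ (x + 2) ^ (c + 1) := le_pow_one (by omega)
        omega) ((hb x i hi).trans (pow_le_pow2 (by omega)))
    have s1 := evm (N' := N) (sn k σ v h) (pow_le_pow2 (by omega))
    set v1 := Function.update v (k + 1) (n (v k)) with hv1
    have a0 : v1 k = x := by rw [hv1, Function.update_of_ne (by omega)]
    have a1 : v1 (k + 1) = n x := by rw [hv1, Function.update_self]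
    have a2 : ∀ j, k + 1 < j → v1 j = 0 := by
      intro j hj
      rw [hv1, Function.update_of_ne (by omega), h j (by omega)]
    have s2 := ev_cp (A := A) (N := N) (a := k) (b := k + 2) (t := k + 3) (by omega) (by omega)
      (by omega) σ v1 (a2 _ (by omega)) (by rw [a0, a2 _ (by omega)]; omega)
    rw [a0, a2 (k + 2) (by omega), zero_add] at s2
    set v2 := Function.update v1 (k + 2) x with hv2
    have b1 : v2 (k + 1) = n x := by rw [hv2, Function.update_of_ne (by omega), a1]
    have b2 : v2 (k + 2) = x := by rw [hv2, Function.update_self]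
    have b3 : ∀ j, k + 2 < j → v2 j = 0 := by
      intro j hj
      rw [hv2, Function.update_of_ne (by omega), a2 j (by omega)]
    have s3 := evm (N' := N) (sf (k + 2) σ v2 b3) (by
      rw [b2]
      exact pow_le_pow2 (by omega))
    rw [b2] at s3
    set v3 := Function.update v2 (k + 2 + 1) (f x) with hv3
    have c3 : v3 (k + 3) = f x := by rw [hv3, Function.update_self]
    have s4 := ev_cl (A := A) (N := N) (k + 2) σ v3
    set v4 := Function.update v3 (k + 2) 0 with hv4
    have d2 : v4 (k + 2) = 0 := by rw [hv4, Function.update_self]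
    have d3 : v4 (k + 3) = f x := by rw [hv4, Function.update_of_ne (by omega), c3]
    have s5 := ev_mv (A := A) (N := N) (a := k + 3) (b := k + 2) (by omega) σ v4 (by
      rw [d2, d3]
      omega)
    rw [d2, d3, zero_add] at s5
    set v5 := Function.update (Function.update v4 (k + 3) 0) (k + 2) (f x) with hv5
    let V : ℕ → ℕ → ℕ := fun i => Function.update (Function.update v (k + 1) i) (k + 2)
      ((fun s => g (kp x s))^[n x - i] (f x))
    have V0 : ∀ i, V i k = x := by
      intro i
      simp only [V]
      rw [Function.update_of_ne (by omega), Function.update_of_ne (by omega)]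
    have V1 : ∀ i, V i (k + 1) = i := by
      intro i
      simp only [V]
      rw [Function.update_of_ne (by omega), Function.update_self]
    have V2 : ∀ i, V i (k + 2) = (fun s => g (kp x s))^[n x - i] (f x) := by
      intro i
      simp only [V]
      rw [Function.update_self]
    have V3 : ∀ i j, k + 2 < j → V i j = 0 := by
      intro i j hj
      simp only [V]
      rw [Function.update_of_ne (by omega), Function.update_of_ne (by omega), h j (by omega)]
    have e5 : v5 = V (n x) := by
      funext j
      simp only [V, Nat.sub_self, Function.iterate_zero, _root_.id]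
      by_cases hj2 : j = k + 2
      · subst hj2
        rw [hv5, Function.update_self, Function.update_self]
      · rw [hv5, Function.update_of_ne hj2, Function.update_of_ne hj2]
        by_cases hj3 : j = k + 3
        · subst hj3
          rw [Function.update_self, Function.update_of_ne (by omega), h _ (by omega)]
        · rw [Function.update_of_ne hj3, hv4, Function.update_of_ne hj2, hv3,
            Function.update_of_ne hj3, hv2, Function.update_of_ne hj2]
    have s6 : Ev (A := A) N (.wh (k + 1) (lbody P'' k)) (σ, V (n x)) [] (σ, V 0) := by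
      refine ev_loop V (n x) (V1 0) (fun i _ => by rw [V1]; omega) ?_
      intro i hi
      have g0 := ev_lbody (N := N) sg k σ (V (i + 1)) (V3 (i + 1)) (by rw [V1]; omega)
        (by
          rw [V0, V2]
          exact (hkc _ (by omega)).trans (pow_le_pow2 (by omega)))
        (by
          rw [V0, V2]
          exact (pow_comp (hkc _ (by omega))).trans (pow_le_pow2 (by omega)))
        (by
          rw [V0, V2]
          exact (bg _).trans ((pow_comp (hkc _ (by omega))).trans (pow_le_pow2 (by omega))))
      rw [V0, V1, V2] at g0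
      have ee : Function.update (Function.update (V (i + 1)) (k + 1) (i + 1 - 1)) (k + 2)
          (g (kp x ((fun s => g (kp x s))^[n x - (i + 1)] (f x)))) = V i := by
        have hs : n x - i = (n x - (i + 1)) + 1 := by omega
        funext j
        by_cases hj2 : j = k + 2
        · subst hj2
          rw [Function.update_self, V2, hs, Function.iterate_succ_apply']
        · rw [Function.update_of_ne hj2]
          by_cases hj1 : j = k + 1
          · subst hj1
            rw [Function.update_self, V1]
            omega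
          · rw [Function.update_of_ne hj1]
            simp only [V]
            rw [Function.update_of_ne hj2, Function.update_of_ne hj1,
              Function.update_of_ne hj2, Function.update_of_ne hj1]
      rw [ee] at g0
      exact g0
    have s7 := ev_mv (A := A) (N := N) (a := k + 2) (b := k + 1) (by omega) σ (V 0) (by
      rw [V1, V2, Nat.sub_zero, add_zero]
      exact hsN _ le_rfl)
    have ee : Function.update (Function.update (V 0) (k + 2) 0) (k + 1)
        (V 0 (k + 1) + V 0 (k + 2)) = Function.update v (k + 1)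
          ((fun s => g (kp x s))^[n x] (f x)) := by
      rw [V1, V2, Nat.sub_zero, zero_add]
      funext j
      by_cases hj1 : j = k + 1
      · subst hj1
        rw [Function.update_self, Function.update_self]
      · rw [Function.update_of_ne hj1, Function.update_of_ne hj1]
        by_cases hj2 : j = k + 2
        · subst hj2
          rw [Function.update_self, h _ (by omega)]
        · rw [Function.update_of_ne hj2]
          simp only [V]
          rw [Function.update_of_ne hj2, Function.update_of_ne hj1]
    rw [ee] at s7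
    rw [← e5] at s6
    exact Ev.sq0 s1 (Ev.sq0 s2 (Ev.sq0 s3 (Ev.sq0 s4 (Ev.sq0 s5 (Ev.sq0 s6 s7)))))

/-- Every function computed in linear space has a program. -/
theorem im_of_E2 {f : ℕ → ℕ} (hf : E2 f) : Im E A f := by
  induction hf with
  | zero => exact im_zero
  | id => exact im_id
  | succ => exact im_succ
  | fst => exact im_fst
  | snd => exact im_snd
  | pair f g _ _ ih1 ih2 => exact im_pair ih1 ih2
  | comp f g _ _ ih1 ih2 => exact im_comp ih1 ih2
  | iter f n g _ _ _ c hb ih1 ih2 ih3 => exact im_iter ih1 ih2 ih3 c hb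

end

end Pool.Agent.W_5d512e_h57
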