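import Pool.Agent.W_5d512e_h57.Cat

/-!
# Catalytic evaluation: correctness
-/

set_option autoImplicit false

namespace Pool.Agent.W_5d512e_h57

variable {p : ℕ} [hp : Fact p.Prime]

/-- The values computed by the recursion. -/
def VV (q D R : ℕ) (h : ℕ → ℕ → ℕ → ℕ) (tg ch : ℕ → ℕ → ℕ) : ℕ → ℕ → ℕ → ZMod p
  | 0, _, _ => 0
  | k + 1, v, j => ∑ t ∈ Finset.range R, if tg v t = j then
      Ph q D (fun E => (h v t E : ZMod p)) (VV q D R h tg ch k (ch v t)) else 0

omit hp in
lemma run_swap (z q D R : ℕ) (h : ℕ → ℕ → ℕ → ℕ) (tg ch : ℕ → ℕ → ℕ) (k : ℕ) :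
    ∀ (v μ : ℕ) (S : ℕ × ℕ), run (sf p) (sc z p ch) (act z p q D h tg) (R * p * 5) k (v, μ, 1) S =
      (run (sf p) (sc z p ch) (act z p q D h tg) (R * p * 5) k (v, μ, 0) S.swap).swap := by
  induction k with
  | zero =>
    intro v μ S
    rfl
  | succ k ih =>
    intro v μ S
    unfold run
    have key : ∀ m, lp (fun r s => if sf p (v, μ, 1) r = 0 then
        act z p q D h tg (v, μ, 1) r s else run (sf p) (sc z p ch) (act z p q D h tg)
          (R * p * 5) k (sc z p ch (v, μ, 1) r) s) S m =
        (lp (fun r s => if sf p (v, μ, 0) r = 0 then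
        act z p q D h tg (v, μ, 0) r s else run (sf p) (sc z p ch) (act z p q D h tg)
          (R * p * 5) k (sc z p ch (v, μ, 0) r) s) S.swap m).swap := by
      intro m
      induction m with
      | zero => rfl
      | succ m ihm =>
        rw [lp_succ, lp_succ, ihm]
        set T := lp (fun r s => if sf p (v, μ, 0) r = 0 then
          act z p q D h tg (v, μ, 0) r s else run (sf p) (sc z p ch) (act z p q D h tg)
          (R * p * 5) k (sc z p ch (v, μ, 0) r) s) S.swap m with hT
        have e : sf p (v, μ, 1) m = sf p (v, μ, 0) m := rfl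
        rw [e]
        split_ifs with h1
        · unfold act
          simp only [one_ne_zero, if_false, if_true]
          rfl
        · have e1 : sc z p ch (v, μ, 1) m =
              (cut z (ch v (m / 5 / p)), (if m % 5 = 1 then 1 else p - 1), 0) := rfl
          have e2 : sc z p ch (v, μ, 0) m =
              (cut z (ch v (m / 5 / p)), (if m % 5 = 1 then 1 else p - 1), 1) := rfl
          rw [e1, e2, ih, Prod.swap_swap]
    exact key _

section

variable {z q D R : ℕ} {h : ℕ → ℕ → ℕ → ℕ} {tg ch : ℕ → ℕ → ℕ}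
  (hz : p ^ D ≤ z) (hzq : q ^ D ≤ z) (hq1 : 1 ≤ q) (hq : q ≤ p) (hD : D * (q - 1) < p - 1)
  (htg : ∀ v t, tg v t < D) (hch : ∀ v t, ch v t ≤ z)

include hz hzq hq1 hq hD htg hch

omit hD in
/-- The five phases. -/
lemma five {k v μ t l : ℕ} (ih : ∀ (v μ : ℕ) (a b : ℕ → ZMod p),
      run (sf p) (sc z p ch) (act z p q D h tg) (R * p * 5) k (v, μ, 0) (Enc D a, Enc D b) =
        (Enc D (fun j => a j + (μ : ZMod p) * VV q D R h tg ch k v j), Enc D b))
    (hl : l < p) (a b : ℕ → ZMod p) :
    lp (fun ph s => if sf p (v, μ, 0) ((t * p + l) * 5 + ph) = 0 then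
        act z p q D h tg (v, μ, 0) ((t * p + l) * 5 + ph) s else
        run (sf p) (sc z p ch) (act z p q D h tg) (R * p * 5) k
          (sc z p ch (v, μ, 0) ((t * p + l) * 5 + ph)) s) (Enc D a, Enc D b) 5 =
      if l = 0 then (Enc D a, Enc D b) else
        (Enc D (Function.update a (tg v t) (a (tg v t) - (μ : ZMod p) *
          Ph q D (fun E => (h v t E : ZMod p))
            (fun j => (l : ZMod p) * b j + VV q D R h tg ch k (ch v t) j))), Enc D b) := by
  have hp0 : 0 < p := hp.out.pos
  have d1 : ∀ ph < 5, ((t * p + l) * 5 + ph) / 5 = t * p + l := by intro ph hph; omega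
  have d2 : ∀ ph < 5, ((t * p + l) * 5 + ph) % 5 = ph := by intro ph hph; omega
  have d3 : (t * p + l) % p = l := by
    rw [mul_comm, Nat.mul_add_mod, Nat.mod_eq_of_lt hl]
  have d4 : (t * p + l) / p = t := by
    rw [mul_comm, Nat.mul_add_div hp0, Nat.div_eq_of_lt hl, add_zero]
  by_cases hl0 : l = 0
  · rw [if_pos hl0]
    apply lp_fix
    intro ph hph
    have e1 : sf p (v, μ, 0) ((t * p + l) * 5 + ph) = 0 := by
      unfold sf
      rw [d1 ph hph, d3, if_pos hl0]
    rw [if_pos e1]
    unfold act act0
    simp only [if_true]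
    rw [d1 ph hph, d3, if_pos hl0]
  · rw [if_neg hl0]
    have s0 : ∀ ph < 5, sf p (v, μ, 0) ((t * p + l) * 5 + ph) =
        if ph = 1 ∨ ph = 3 then 1 else 0 := by
      intro ph hph
      unfold sf
      rw [d1 ph hph, d2 ph hph, d3, if_neg hl0]
    have s1 : ∀ ph < 5, sc z p ch (v, μ, 0) ((t * p + l) * 5 + ph) =
        (ch v t, (if ph = 1 then 1 else p - 1), 1) := by
      intro ph hph
      unfold sc
      rw [d1 ph hph, d2 ph hph, d4, cut_of_le (hch v t)]
      rfl
    have s2 : ∀ ph < 5, ∀ S, act z p q D h tg (v, μ, 0) ((t * p + l) * 5 + ph) S =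
        if ph = 0 then (S.1, scl z p D S.2 l)
        else if ph = 2 then
          (upd z p S.1 (tg v t) (md p (dgt z p S.1 (tg v t) +
            (p - md p (μ * phn z p q D (h v t) S.2)))), S.2)
        else if ph = 4 then (S.1, scl z p D S.2 (pwm p l (p - 2)))
        else S := by
      intro ph hph S
      unfold act act0
      simp only [if_true]
      rw [d1 ph hph, d2 ph hph, d3, d4, if_neg hl0]
    -- the phases
    set b1 : ℕ → ZMod p := fun j => (l : ZMod p) * b j with hb1
    set b2 : ℕ → ZMod p := fun j => (l : ZMod p) * b j + VV q D R h tg ch k (ch v t) j with hb2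
    set a2 : ℕ → ZMod p := Function.update a (tg v t) (a (tg v t) - (μ : ZMod p) *
          Ph q D (fun E => (h v t E : ZMod p)) b2) with ha2
    have r1 : run (sf p) (sc z p ch) (act z p q D h tg) (R * p * 5) k (ch v t, 1, 1)
        (Enc D a, Enc D b1) = (Enc D a, Enc D b2) := by
      rw [run_swap]
      show (run (sf p) (sc z p ch) (act z p q D h tg) (R * p * 5) k (ch v t, 1, 0)
        (Enc D b1, Enc D a)).swap = _
      rw [ih]
      simp only [Nat.cast_one, one_mul, Prod.swap_prod_mk]
      rfl
    have r3 : run (sf p) (sc z p ch) (act z p q D h tg) (R * p * 5) k (ch v t, p - 1, 1)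
        (Enc D a2, Enc D b2) = (Enc D a2, Enc D b1) := by
      rw [run_swap]
      show (run (sf p) (sc z p ch) (act z p q D h tg) (R * p * 5) k (ch v t, p - 1, 0)
        (Enc D b2, Enc D a2)).swap = _
      rw [ih, Prod.swap_prod_mk]
      congr 2
      funext j
      rw [hb1, hb2, Nat.cast_sub hp.out.one_lt.le, ZMod.natCast_self, Nat.cast_one]
      ring
    have r2 : upd z p (Enc D a) (tg v t) (md p (dgt z p (Enc D a) (tg v t) +
            (p - md p (μ * phn z p q D (h v t) (Enc D b2))))) = Enc D a2 := by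
      rw [md_val, Enc_upd hz a (htg v t), ha2, Enc_dgt hz a (htg v t), phn_val hz hq hq1 hzq]
      congr 2
      rw [Nat.cast_add, Nat.cast_sub (md_le _ _), md_cast hp0, ZMod.natCast_self, Nat.cast_mul,
        ZMod.natCast_val, ZMod.natCast_val, ZMod.cast_id, ZMod.cast_id]
      ring
    have r4 : scl z p D (Enc D b1) (pwm p l (p - 2)) = Enc D b := by
      rw [Enc_scl hz]
      congr 1
      funext j
      rw [pwm_cast, hb1, ← mul_assoc, ← pow_succ,
        show p - 2 + 1 = p - 1 by have := hp.out.two_le; omega, ZMod.pow_card_sub_one_eq_one,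
        one_mul]
      intro hc
      exact hl0 (cast_inj hl hp0 (by rw [hc, Nat.cast_zero]))
    rw [show (5 : ℕ) = 0 + 1 + 1 + 1 + 1 + 1 by rfl]
    simp only [lp_succ, zero_add]
    simp only [s0 0 (by norm_num), s0 1 (by norm_num), s0 2 (by norm_num),
      s0 (1 + 1 + 1) (by norm_num), s0 (1 + 1 + 1 + 1) (by norm_num),
      s1 1 (by norm_num), s1 (1 + 1 + 1) (by norm_num), s2 0 (by norm_num),
      s2 (1 + 1) (by norm_num), s2 (1 + 1 + 1 + 1) (by norm_num)]
    simp [lp]
    rw [Enc_scl hz, r1]
    simp only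
    rw [r2, r3]
    simp only
    rw [r4]
    exact ⟨trivial, rfl⟩

theorem run_ok (k : ℕ) : ∀ (v μ : ℕ) (a b : ℕ → ZMod p),
    run (sf p) (sc z p ch) (act z p q D h tg) (R * p * 5) k (v, μ, 0) (Enc D a, Enc D b) =
      (Enc D (fun j => a j + (μ : ZMod p) * VV q D R h tg ch k v j), Enc D b) := by
  induction k with
  | zero =>
    intro v μ a b
    simp [run, VV]
  | succ k ih =>
    intro v μ a b
    have hp0 : 0 < p := hp.out.pos
    -- the sum over the scalars
    have inner : ∀ t, ∀ n ≤ p, ∀ a : ℕ → ZMod p,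
        lp (fun l s => lp (fun ph s => if sf p (v, μ, 0) ((t * p + l) * 5 + ph) = 0 then
        act z p q D h tg (v, μ, 0) ((t * p + l) * 5 + ph) s else
        run (sf p) (sc z p ch) (act z p q D h tg) (R * p * 5) k
          (sc z p ch (v, μ, 0) ((t * p + l) * 5 + ph)) s) s 5) (Enc D a, Enc D b) n =
        (Enc D (Function.update a (tg v t) (a (tg v t) - (μ : ZMod p) *
          ∑ l ∈ (Finset.range n).erase 0, Ph q D (fun E => (h v t E : ZMod p))
            (fun j => (l : ZMod p) * b j + VV q D R h tg ch k (ch v t) j))), Enc D b) := by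
      intro t n
      induction n with
      | zero =>
        intro _ a
        simp [lp]
      | succ n ihn =>
        intro hn a
        rw [lp_succ, ihn (by omega),
          five hz hzq hq1 hq htg hch ih (show n < p by omega)]
        by_cases hn0 : n = 0
        · subst hn0
          rw [if_pos rfl]
          rfl
        · rw [if_neg hn0, Function.update_self, Function.update_idem]
          have e1 : (Finset.range (n + 1)).erase 0 = insert n ((Finset.range n).erase 0) := by
            ext y
            simp only [Finset.mem_erase, Finset.mem_range, Finset.mem_insert]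
            omega
          rw [e1, Finset.sum_insert (by simp)]
          congr 3
          ring
    have inner' : ∀ t, ∀ a : ℕ → ZMod p,
        lp (fun l s => lp (fun ph s => if sf p (v, μ, 0) ((t * p + l) * 5 + ph) = 0 then
        act z p q D h tg (v, μ, 0) ((t * p + l) * 5 + ph) s else
        run (sf p) (sc z p ch) (act z p q D h tg) (R * p * 5) k
          (sc z p ch (v, μ, 0) ((t * p + l) * 5 + ph)) s) s 5) (Enc D a, Enc D b) p =
        (Enc D (fun j => a j + (μ : ZMod p) * if tg v t = j then
          Ph q D (fun E => (h v t E : ZMod p)) (VV q D R h tg ch k (ch v t)) else 0),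
          Enc D b) := by
      intro t a
      rw [inner t p le_rfl a, Ph_sum _ _ _ hq1 hD]
      congr 2
      funext j
      by_cases hj : tg v t = j
      · subst hj
        rw [Function.update_self, if_pos rfl]
        ring
      · rw [Function.update_of_ne (Ne.symm hj), if_neg hj, mul_zero, add_zero]
    unfold run
    rw [lp_mul, lp_mul]
    have outer : ∀ n, lp (fun t s => lp (fun l s => lp (fun ph s =>
        if sf p (v, μ, 0) ((t * p + l) * 5 + ph) = 0 then
        act z p q D h tg (v, μ, 0) ((t * p + l) * 5 + ph) s else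
        run (sf p) (sc z p ch) (act z p q D h tg) (R * p * 5) k
          (sc z p ch (v, μ, 0) ((t * p + l) * 5 + ph)) s) s 5) s p) (Enc D a, Enc D b) n =
        (Enc D (fun j => a j + (μ : ZMod p) * ∑ t ∈ Finset.range n, if tg v t = j then
          Ph q D (fun E => (h v t E : ZMod p)) (VV q D R h tg ch k (ch v t)) else 0),
          Enc D b) := by
      intro n
      induction n with
      | zero => simp [lp]
      | succ n ihn =>
        rw [lp_succ, ihn, inner']
        congr 2
        funext j
        rw [Finset.sum_range_succ]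
        ring
    exact outer R

theorem cat_eq {J v : ℕ} (hJ : (R * p * 5) ^ J ≤ z) (hR : 0 < R) (hD0 : 0 < D) :
    cat z p q D R h tg ch J v = (VV q D R h tg ch J v 0 : ZMod p).val := by
  have hp0 : 0 < p := hp.out.pos
  have hQ : 0 < R * p * 5 := by positivity
  unfold cat
  have e1 : pw z (R * p * 5) J = (R * p * 5) ^ J := pw_eq hQ hJ
  have e2 : lp (stp (sf p) (sc z p ch) (act z p q D h tg) (pw z (R * p * 5)) J (v, 1, 0))
      (0, 0) ((R * p * 5) ^ J) =
      lp (flat (sf p) (sc z p ch) (act z p q D h tg) (R * p * 5) J (v, 1, 0))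
      (0, 0) ((R * p * 5) ^ J) := by
    apply lp_congr
    intro i _ s
    apply stp_eq
    intro l hl
    exact pw_eq hQ ((Nat.pow_le_pow_right hQ hl.le).trans hJ)
  have e3 : (0 : ℕ) = Enc D (fun _ => (0 : ZMod p)) := by
    unfold Enc
    simp only [ZMod.val_zero]
    exact (arr_zero p D).symm
  rw [e1, e2, lp_flat _ _ _ _ hQ]
  have e4 : ((0 : ℕ), (0 : ℕ)) = (Enc D (fun _ => (0 : ZMod p)), Enc D (fun _ => (0 : ZMod p))) := by
    rw [← e3]
  rw [e4, run_ok hz hzq hq1 hq hD htg hch]
  simp only [Nat.cast_one, one_mul, zero_add]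
  exact Enc_dgt hz _ hD0

end

end Pool.Agent.W_5d512e_h57
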