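import Pool.Agent.W_5d512e_h57.Dfs

/-!
# Running a cascade of transducers: correctness
-/

set_option autoImplicit false

namespace Pool.Agent.W_5d512e_h57

open Pool.Agent.W_MP_5d512e_h33 (run_cons run_append run_nil)

/-- The stream above level `j`. -/
def str {S A : Type} (δ : S → A → S) (out : S → A → List A) (V : ℕ → S × List A) (u : List A) :
    ℕ → List A
  | 0 => u
  | j + 1 => (V j).2 ++
      (Pool.Agent.W_MP_5d512e_h33.run δ out (V j).1 (str δ out V u j)).2

/-- The remaining input. -/
def rin {A : Type} (inp : ℕ → A) (lo : ℕ) : ℕ → List A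
  | 0 => []
  | k + 1 => inp (lo + k) :: rin inp lo k

/-- Potential. -/
def pot {S A : Type} (Cm b : ℕ) (V : ℕ → S × List A) (k : ℕ) : ℕ :=
  ∑ j ∈ Finset.range b, (V j).2.length * (Cm + 1) ^ (b - 1 - j) + k * (Cm + 1) ^ b

section

variable {S A : Type} {δ : S → A → S} {out : S → A → List A} {q0 : S} (T : Tab δ out q0)

/-- The numbers represent a configuration. -/
structure Rep (b idx : ℕ) (x : ℕ × ℕ × ℕ × ℕ) (V : ℕ → S × List A) (k : ℕ) (o : List A) :
    Prop where
  h1 : x.1 = arr T.K0 b (fun j => T.cX (V j).1 (V j).2)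
  h2 : x.2.1 = k
  h3 : x.2.2.1 = o.length
  h4 : x.2.2.2 = ((o[idx]?).map T.cA).getD 0
  h5 : ∀ j < b, (V j).2.length ≤ T.Cm

omit T in
lemma str_congr {V V' : ℕ → S × List A} {u u' : List A} {i : ℕ}
    (h : str δ out V u i = str δ out V' u' i) (n : ℕ) (hV : ∀ j, i ≤ j → j < n → V j = V' j)
    (hn : i ≤ n) : str δ out V u n = str δ out V' u' n := by
  induction n, hn using Nat.le_induction with
  | base => exact h
  | succ n hn ih =>
    simp only [str]
    rw [ih (fun j hj1 hj2 => hV j hj1 (by omega)), hV n hn (by omega)]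

omit T in
lemma str_congr0 {V V' : ℕ → S × List A} {u : List A} (n : ℕ) (hV : ∀ j < n, V j = V' j) :
    str δ out V u n = str δ out V' u n :=
  str_congr (δ := δ) (out := out) (V := V) (V' := V') (u := u) (u' := u) (i := 0) rfl n
    (fun j _ hj => hV j hj) (Nat.zero_le _)

variable {z b q E lo idx : ℕ} (hz : T.K0 ^ b ≤ z)

include hz

lemma dgt_rep {V : ℕ → S × List A} (h5 : ∀ j < b, (V j).2.length ≤ T.Cm) {j : ℕ} (hj : j < b) :
    dgt z T.K0 (arr T.K0 b (fun j => T.cX (V j).1 (V j).2)) j = T.cX (V j).1 (V j).2 :=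
  dgt_arr (a := fun j => T.cX (V j).1 (V j).2) T.hK0 hz (fun i hi => T.hlt _ _ (h5 i hi)) hj

lemma upd_rep {V : ℕ → S × List A} (h5 : ∀ j < b, (V j).2.length ≤ T.Cm) {j : ℕ} (hj : j < b)
    (y : S × List A) (hy : y.2.length ≤ T.Cm) :
    upd z T.K0 (arr T.K0 b (fun j => T.cX (V j).1 (V j).2)) j (T.cX y.1 y.2) =
      arr T.K0 b (fun i => T.cX (Function.update V j y i).1 (Function.update V j y i).2) := by
  rw [upd_arr T.hK0 hz (fun i hi => T.hlt _ _ (h5 i hi)) hj (T.hlt _ _ hy)]
  congr 1
  funext i
  by_cases hi : i = j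
  · subst hi
    rw [Function.update_self, Function.update_self]
  · rw [Function.update_of_ne hi, Function.update_of_ne hi]

lemma topn_spec {V : ℕ → S × List A} (h5 : ∀ j < b, (V j).2.length ≤ T.Cm) :
    (topn T z b (arr T.K0 b (fun j => T.cX (V j).1 (V j).2)) = 0 ∧ ∀ i < b, (V i).2 = []) ∨
    (∃ t, topn T z b (arr T.K0 b (fun j => T.cX (V j).1 (V j).2)) = t + 1 ∧ t < b ∧
      (V t).2 ≠ [] ∧ ∀ i, t < i → i < b → (V i).2 = []) := by
  set Vn := arr T.K0 b (fun j => T.cX (V j).1 (V j).2) with hVn
  have key : ∀ m ≤ b, (lp (fun j acc => if T.neT (dgt z T.K0 Vn j) = 0 then acc else j + 1) 0 m = 0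
      ∧ ∀ i < m, (V i).2 = []) ∨
    (∃ t, lp (fun j acc => if T.neT (dgt z T.K0 Vn j) = 0 then acc else j + 1) 0 m = t + 1 ∧
      t < m ∧ (V t).2 ≠ [] ∧ ∀ i, t < i → i < m → (V i).2 = []) := by
    intro m
    induction m with
    | zero =>
      intro _
      exact Or.inl ⟨rfl, fun i hi => absurd hi (by omega)⟩
    | succ m ih =>
      intro hm
      rw [lp_succ, hVn, dgt_rep T hz h5 (show m < b by omega), ← hVn]
      rcases hr : (V m).2 with _ | ⟨c, r⟩
      · rw [if_pos (T.hnil _)]
        rcases ih (by omega) with ⟨i1, i2⟩ | ⟨t, i1, i2, i3, i4⟩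
        · refine Or.inl ⟨i1, fun i hi => ?_⟩
          by_cases him : i = m
          · rw [him]; exact hr
          · exact i2 i (by omega)
        · refine Or.inr ⟨t, i1, by omega, i3, fun i h1 h2 => ?_⟩
          by_cases him : i = m
          · rw [him]; exact hr
          · exact i4 i h1 (by omega)
      · have hl := h5 m (by omega)
        rw [hr] at hl
        rw [if_neg (T.hcons _ _ _ hl)]
        exact Or.inr ⟨m, rfl, by omega, by rw [hr]; simp, fun i h1 h2 => by omega⟩
  exact key b le_rfl

omit T hz in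
lemma sum_one {b i : ℕ} (f g : ℕ → ℕ) (hi : i < b) (h : ∀ j < b, j ≠ i → f j = g j) :
    ∑ j ∈ Finset.range b, f j + g i = ∑ j ∈ Finset.range b, g j + f i := by
  have h1 := Finset.add_sum_erase (Finset.range b) f (Finset.mem_range.2 hi)
  have h2 := Finset.add_sum_erase (Finset.range b) g (Finset.mem_range.2 hi)
  have h3 : ∑ j ∈ (Finset.range b).erase i, f j = ∑ j ∈ (Finset.range b).erase i, g j :=
    Finset.sum_congr rfl fun j hj => h j (Finset.mem_range.1 (Finset.mem_of_mem_erase hj))
      (Finset.ne_of_mem_erase hj)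
  omega

lemma dst_ok {x : ℕ × ℕ × ℕ × ℕ} {V : ℕ → S × List A} {k : ℕ} {o : List A} {inp : ℕ → A}
    (hb : 1 ≤ b) (hR : Rep T b idx x V k o)
    (hE : ∀ i, lo ≤ i → i < lo + k → dgt z q E i = T.cA (inp i)) :
    ∃ V' k' o', Rep T b idx (dst T z b q E lo idx x) V' k' o' ∧ k' ≤ k ∧
      o' ++ str δ out V' (rin inp lo k') b = o ++ str δ out V (rin inp lo k) b ∧
      pot T.Cm b V' k' ≤ pot T.Cm b V k - 1 := by
  obtain ⟨h1, h2, h3, h4, h5⟩ := hR
  have hG : ∀ i, (T.Cm + 1) ^ (i + 1) = T.Cm * (T.Cm + 1) ^ i + (T.Cm + 1) ^ i := by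
    intro i
    ring
  have hG1 : ∀ i, 1 ≤ (T.Cm + 1) ^ i := fun i => Nat.one_le_pow _ _ (by omega)
  unfold dst
  rw [h1]
  rcases topn_spec T hz h5 with ⟨t1, t2⟩ | ⟨t, t1, t2, t3, t4⟩
  · rw [if_pos t1]
    by_cases hk : x.2.1 = 0
    · rw [if_pos hk]
      rw [h2] at hk
      refine ⟨V, k, o, ⟨h1, h2, h3, h4, h5⟩, le_rfl, rfl, ?_⟩
      have : pot T.Cm b V k = 0 := by
        unfold pot
        rw [hk, zero_mul, add_zero]
        apply Finset.sum_eq_zero
        intro j hj
        rw [t2 j (Finset.mem_range.1 hj)]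
        simp
      omega
    · rw [if_neg hk]
      rw [h2] at hk ⊢
      obtain ⟨k, rfl⟩ : ∃ k', k = k' + 1 := ⟨k - 1, by omega⟩
      rw [show lo + (k + 1) - 1 = lo + k by omega, hE _ (by omega) (by omega),
        dgt_rep T hz h5 (show 0 < b by omega), T.hfeed _ _ _ (h5 0 (by omega)),
        upd_rep T hz h5 (show 0 < b by omega) (δ (V 0).1 (inp (lo + k)), out (V 0).1 (inp (lo + k)))
          (T.hCm _ _), Nat.add_sub_cancel]
      refine ⟨_, k, o, ⟨rfl, rfl, h3, h4, ?_⟩, by omega, ?_, ?_⟩
      · intro j hj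
        by_cases hj0 : j = 0
        · subst hj0
          rw [Function.update_self]
          exact T.hCm _ _
        · rw [Function.update_of_ne hj0]
          exact h5 j hj
      · congr 1
        refine str_congr (i := 1) ?_ b ?_ hb
        · simp only [str, Function.update_self, rin]
          rw [run_cons, t2 0 (by omega), List.nil_append]
        · intro j hj1 _
          rw [Function.update_of_ne (by omega)]
      · unfold pot
        have h6 := sum_one (b := b) (i := 0)
          (fun j => (Function.update V 0 (δ (V 0).1 (inp (lo + k)), out (V 0).1 (inp (lo + k)))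
            j).2.length * (T.Cm + 1) ^ (b - 1 - j))
          (fun j => (V j).2.length * (T.Cm + 1) ^ (b - 1 - j)) (by omega) (by
            intro j _ hj
            simp only [Function.update_of_ne hj])
        simp only [Function.update_self, t2 0 (by omega : 0 < b), List.length_nil, zero_mul,
          add_zero, Nat.sub_zero] at h6
        obtain ⟨b', rfl⟩ : ∃ b', b = b' + 1 := ⟨b - 1, by omega⟩
        have h7 := hG b'
        have h8 := Nat.mul_le_mul_right ((T.Cm + 1) ^ b') (T.hCm (V 0).1 (inp (lo + k)))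
        have h9 := hG1 b'
        rw [Nat.add_sub_cancel] at h6 ⊢
        have h10 : (k + 1) * (T.Cm + 1) ^ (b' + 1) =
            k * (T.Cm + 1) ^ (b' + 1) + (T.Cm + 1) ^ (b' + 1) := by ring
        omega
  · rw [t1, if_neg (by omega), Nat.add_sub_cancel]
    obtain ⟨c, r, hr⟩ : ∃ c r, (V t).2 = c :: r := by
      rcases hr : (V t).2 with _ | ⟨c, r⟩
      · exact absurd hr t3
      · exact ⟨c, r, rfl⟩
    have hlt := h5 t t2
    have hpopv : T.popT (dgt z T.K0 (arr T.K0 b (fun j => T.cX (V j).1 (V j).2)) t) =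
        T.cX (V t).1 r := by
      rw [dgt_rep T hz h5 t2, hr]
      exact T.hpop _ _ _ (by rw [← hr]; exact hlt)
    have hheadv : T.headT (dgt z T.K0 (arr T.K0 b (fun j => T.cX (V j).1 (V j).2)) t) =
        T.cA c := by
      rw [dgt_rep T hz h5 t2, hr]
      exact T.hhead _ _ _ (by rw [← hr]; exact hlt)
    have hrl : r.length + 1 = (V t).2.length := by rw [hr]; rfl
    have hupd := upd_rep T hz h5 t2 ((V t).1, r) (by show r.length ≤ T.Cm; omega)
    simp only at hupd
    set V1 := Function.update V t ((V t).1, r) with hV1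
    have h51 : ∀ j < b, (V1 j).2.length ≤ T.Cm := by
      intro j hj
      by_cases hjt : j = t
      · subst hjt
        rw [hV1, Function.update_self]
        show r.length ≤ T.Cm
        omega
      · rw [hV1, Function.update_of_ne hjt]
        exact h5 j hj
    have s6 := sum_one (b := b) (i := t)
      (fun j => (V1 j).2.length * (T.Cm + 1) ^ (b - 1 - j))
      (fun j => (V j).2.length * (T.Cm + 1) ^ (b - 1 - j)) t2 (by
        intro j _ hj
        simp only [hV1, Function.update_of_ne hj])
    have e1 : (V1 t).2 = r := by rw [hV1, Function.update_self]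
    simp only [e1] at s6
    have e2 : (V t).2.length * (T.Cm + 1) ^ (b - 1 - t) =
        r.length * (T.Cm + 1) ^ (b - 1 - t) + (T.Cm + 1) ^ (b - 1 - t) := by
      rw [← hrl]
      ring
    -- streams up to the level t
    have str_t : ∀ u, str δ out V1 u t = str δ out V u t := by
      intro u
      exact str_congr0 t fun j hj => by rw [hV1, Function.update_of_ne (by omega)]
    by_cases htb : t + 1 = b
    · rw [if_pos htb, hpopv, hheadv, hupd]
      refine ⟨V1, k, o ++ [c], ⟨rfl, h2, by simp [h3], ?_, h51⟩, le_rfl, ?_, ?_⟩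
      · simp only
        rw [h3, h4]
        split_ifs with hi
        · rw [← hi]
          simp
        · rcases Nat.lt_or_ge idx o.length with h | h
          · rw [List.getElem?_append_left h]
          · rw [List.getElem?_append_right h, List.getElem?_eq_none h,
              List.getElem?_eq_none (by simp; omega)]
      · have e3 : str δ out V (rin inp lo k) b = c :: str δ out V1 (rin inp lo k) b := by
          rw [← htb]
          simp only [str]
          rw [str_t, e1, hr]
          have : (V1 t).1 = (V t).1 := by rw [hV1, Function.update_self]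
          rw [this]
          rfl
        rw [e3, List.append_assoc]
        rfl
      · unfold pot
        have e4 : b - 1 - t = 0 := by omega
        rw [e4, pow_zero, mul_one] at e2
        rw [e4, pow_zero, mul_one, mul_one] at s6
        omega
    · rw [if_neg htb, hpopv, hheadv, hupd]
      have ht1 : t + 1 < b := by omega
      have e5 : V1 (t + 1) = V (t + 1) := by rw [hV1, Function.update_of_ne (by omega)]
      have e6 : (V (t + 1)).2 = [] := t4 _ (by omega) ht1
      have e7 : dgt z T.K0 (arr T.K0 b (fun j => T.cX (V j).1 (V j).2)) (t + 1) =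
          T.cX (V1 (t + 1)).1 (V1 (t + 1)).2 := by
        rw [dgt_rep T hz h5 ht1, e5]
      rw [e7, T.hfeed _ _ _ (h51 _ ht1)]
      have hupd2 := upd_rep T hz h51 ht1 (δ (V1 (t + 1)).1 c, out (V1 (t + 1)).1 c) (T.hCm _ _)
      simp only at hupd2
      rw [hupd2]
      set V2 := Function.update V1 (t + 1) (δ (V1 (t + 1)).1 c, out (V1 (t + 1)).1 c) with hV2
      refine ⟨V2, k, o, ⟨rfl, h2, h3, h4, ?_⟩, le_rfl, ?_, ?_⟩
      · intro j hj
        by_cases hjt : j = t + 1
        · subst hjt
          rw [hV2, Function.update_self]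
          exact T.hCm _ _
        · rw [hV2, Function.update_of_ne hjt]
          exact h51 j hj
      · congr 1
        refine str_congr (i := t + 2) ?_ b ?_ (by omega)
        · have f1 : V2 t = V1 t := by rw [hV2, Function.update_of_ne (by omega)]
          have f2 : str δ out V2 (rin inp lo k) t = str δ out V (rin inp lo k) t := by
            rw [← str_t]
            exact str_congr0 t fun j hj => by rw [hV2, Function.update_of_ne (by omega)]
          have f3 : V2 (t + 1) = (δ (V (t + 1)).1 c, out (V (t + 1)).1 c) := by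
            rw [hV2, Function.update_self, e5]
          have f4 : (V1 t).1 = (V t).1 := by rw [hV1, Function.update_self]
          simp only [str]
          rw [f3, f1, f2, e1, f4, hr, e6, List.cons_append, run_cons, List.nil_append]
        · intro j hj1 _
          rw [hV2, Function.update_of_ne (by omega), hV1, Function.update_of_ne (by omega)]
      · unfold pot
        have s7 := sum_one (b := b) (i := t + 1)
          (fun j => (V2 j).2.length * (T.Cm + 1) ^ (b - 1 - j))
          (fun j => (V1 j).2.length * (T.Cm + 1) ^ (b - 1 - j)) ht1 (by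
            intro j _ hj
            simp only [hV2, Function.update_of_ne hj])
        have e8 : (V2 (t + 1)).2 = out (V1 (t + 1)).1 c := by rw [hV2, Function.update_self]
        have e9 : (V1 (t + 1)).2 = [] := by rw [e5, e6]
        simp only [e8, e9, List.length_nil, zero_mul, add_zero] at s7
        have h7 := hG (b - 1 - (t + 1))
        rw [show b - 1 - (t + 1) + 1 = b - 1 - t by omega] at h7
        have h8 := Nat.mul_le_mul_right ((T.Cm + 1) ^ (b - 1 - (t + 1)))
          (T.hCm (V1 (t + 1)).1 c)
        have h9 := hG1 (b - 1 - (t + 1))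
        omega

/-- The cascade is computed correctly if the number of steps is large enough. -/
theorem dfs_ok {V0 : ℕ → S × List A} {k : ℕ} {inp : ℕ → A} (hb : 1 ≤ b)
    (h5 : ∀ j < b, (V0 j).2.length ≤ T.Cm)
    (hE : ∀ i, lo ≤ i → i < lo + k → dgt z q E i = T.cA (inp i))
    (hpot : pot T.Cm b V0 k ≤ z) :
    (dfs T z b q E lo idx (arr T.K0 b (fun j => T.cX (V0 j).1 (V0 j).2)) k).2.2 =
      ((str δ out V0 (rin inp lo k) b).length,
        (((str δ out V0 (rin inp lo k) b)[idx]?).map T.cA).getD 0) := by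
  unfold dfs
  have key : ∀ m, ∃ V' k' o', Rep T b idx (lp (fun _ x => dst T z b q E lo idx x)
      (arr T.K0 b (fun j => T.cX (V0 j).1 (V0 j).2), k, 0, 0) m) V' k' o' ∧ k' ≤ k ∧
      o' ++ str δ out V' (rin inp lo k') b = str δ out V0 (rin inp lo k) b ∧
      pot T.Cm b V' k' ≤ pot T.Cm b V0 k - m := by
    intro m
    induction m with
    | zero => exact ⟨V0, k, [], ⟨rfl, rfl, rfl, rfl, h5⟩, le_rfl, rfl, by omega⟩
    | succ m ih =>
      obtain ⟨V1, k1, o1, i1, i2, i3, i4⟩ := ih
      rw [lp_succ]
      obtain ⟨V2, k2, o2, j1, j2, j3, j4⟩ := dst_ok (q := q) (E := E) (lo := lo) T hz hb i1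
        (fun i hi1 hi2 => hE i hi1 (by omega))
      exact ⟨V2, k2, o2, j1, by omega, by rw [j3, i3], by omega⟩
  obtain ⟨V', k', o', i1, i2, i3, i4⟩ := key z
  have hp0 : pot T.Cm b V' k' = 0 := by omega
  unfold pot at hp0
  have hG1 : ∀ i, 1 ≤ (T.Cm + 1) ^ i := fun i => Nat.one_le_pow _ _ (by omega)
  have hk0 : k' = 0 := by
    rcases Nat.eq_zero_or_pos k' with h | h
    · exact h
    · have := Nat.mul_pos h (hG1 b)
      omega
  have hs0 : ∑ j ∈ Finset.range b, (V' j).2.length * (T.Cm + 1) ^ (b - 1 - j) = 0 := by omega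
  have hV' : ∀ j < b, (V' j).2 = [] := by
    intro j hj
    have h1 := (Finset.sum_eq_zero_iff.1 hs0) j (Finset.mem_range.2 hj)
    rcases Nat.mul_eq_zero.1 h1 with h2 | h2
    · exact List.length_eq_zero_iff.1 h2
    · have := hG1 (b - 1 - j)
      omega
  have hstr : ∀ n ≤ b, str δ out V' [] n = [] := by
    intro n
    induction n with
    | zero => intro _; rfl
    | succ n ih =>
      intro hn
      simp only [str]
      rw [ih (by omega), hV' n (by omega)]
      rfl
  rw [hk0] at i3
  have e1 : rin inp lo 0 = [] := rfl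
  rw [e1, hstr b le_rfl, List.append_nil] at i3
  rw [← i3]
  exact Prod.ext i1.h3 i1.h4

end

end Pool.Agent.W_5d512e_h57
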