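import Pool.Agent.W_MP_5d512e_dic.Easy

/-!
# Windows of synchronised self-similar words
-/

set_option autoImplicit false

namespace Pool.Agent.W_5d512e_h57

open Pool.Agent.W_MP_5d512e_h33 Pool.Agent.W_MP_5d512e_dic

/-- A word that is mapped to itself by a transducer, with the states and the positions. -/
structure Self (S A : Type) where
  δ : S → A → S
  out : S → A → List A
  hne : ∀ q x, out q x ≠ []
  w : ℕ → A
  q : ℕ → S
  f : ℕ → ℕ
  hq : ∀ i, q (i + 1) = δ (q i) (w i)
  hf : ∀ i, f i ≤ f (i + 1)
  hw : ∀ i, out (q i) (w i) = blk w (f i) (f (i + 1) - f i)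

namespace Self

variable {S A : Type} (Y : Self S A)

lemma f_mono : Monotone Y.f := monotone_nat_of_le_succ Y.hf

lemma hrun (i n : ℕ) : Pool.Agent.W_MP_5d512e_h33.run Y.δ Y.out (Y.q i) (blk Y.w i n) =
    (Y.q (i + n), blk Y.w (Y.f i) (Y.f (i + n) - Y.f i)) := by
  induction n generalizing i with
  | zero => simp [blk]
  | succ n ih =>
    rw [blk, run_cons, ← Y.hq, ih (i + 1), Y.hw]
    have h1 := Y.hf i
    have h2 := Y.f_mono (show i + 1 ≤ i + 1 + n by omega)
    refine Prod.ext ?_ ?_
    · simp only
      congr 1
      ring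
    · simp only
      have e1 : Y.f (i + (n + 1)) - Y.f i = (Y.f (i + 1) - Y.f i) +
          (Y.f (i + 1 + n) - Y.f (i + 1)) := by
        rw [show i + (n + 1) = i + 1 + n by ring]
        omega
      rw [e1, blk_append]
      congr 2
      omega

lemma f_add (i n : ℕ) : Y.f i + n ≤ Y.f (i + n) := by
  have h1 := run_length Y.δ Y.out Y.hne (Y.q i) (blk Y.w i n)
  have h2 := Y.f_mono (show i ≤ i + n by omega)
  rw [hrun, length_blk, length_blk] at h1
  omega

lemma f_ge (i : ℕ) : i ≤ Y.f i := by
  have := Y.f_add 0 i
  rw [zero_add] at this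
  omega

/-- Iterates of the position map. -/
def F (b : ℕ) : ℕ → ℕ := Y.f^[b]

lemma F_mono (b : ℕ) : Monotone (Y.F b) := Y.f_mono.iterate b

lemma F_add (b i n : ℕ) : Y.F b i + n ≤ Y.F b (i + n) := by
  induction b generalizing i n with
  | zero => exact le_rfl
  | succ b ih =>
    unfold F at ih ⊢
    rw [Function.iterate_succ_apply, Function.iterate_succ_apply]
    have h1 := Y.f_add i n
    have h2 := ih (Y.f i) (Y.f (i + n) - Y.f i)
    rw [show Y.f i + (Y.f (i + n) - Y.f i) = Y.f (i + n) by omega] at h2
    omega

end Self

/-- The cascade of `V.length` transducers. -/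
def cas {S A : Type} (δ : S → A → S) (out : S → A → List A) : List S → List A → List A
  | [], u => u
  | s :: V, u => cas δ out V (Pool.Agent.W_MP_5d512e_h33.run δ out s u).2

/-- Every factor of length `m` is synchronising. -/
def Syn {S A : Type} (δ : S → A → S) (out : S → A → List A) (w : ℕ → A) (m : ℕ) : Prop :=
  ∀ i s t, (Pool.Agent.W_MP_5d512e_h33.run δ out s (blk w i m)).1 =
    (Pool.Agent.W_MP_5d512e_h33.run δ out t (blk w i m)).1

namespace Self

variable {S A : Type} (Y : Self S A)

lemma syn_state {m : ℕ} (hm : Syn Y.δ Y.out Y.w m) (s : S) (g : List A) (y K : ℕ) (hK : m ≤ K)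
    (hy : K ≤ y) :
    (Pool.Agent.W_MP_5d512e_h33.run Y.δ Y.out s (g ++ blk Y.w (y - K) K)).1 = Y.q y := by
  obtain ⟨K', rfl⟩ : ∃ K', K = K' + m := ⟨K - m, by omega⟩
  rw [blk_append, ← List.append_assoc, run_append]
  simp only
  rw [show y - (K' + m) + K' = y - m by omega, hm _ _ (Y.q (y - m)), hrun]
  simp only
  congr 1
  omega

/-- The cascade, after reading a long enough window, computes the iterated images. -/
theorem cas_win {m : ℕ} (hm : Syn Y.δ Y.out Y.w m) (V : List S) :
    ∀ (x : List A) (y n : ℕ), m * V.length ≤ y →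
      (∃ g, x = g ++ blk Y.w (y - m * V.length) (m * V.length)) →
      cas Y.δ Y.out V (x ++ blk Y.w y n) = cas Y.δ Y.out V x ++
        blk Y.w (Y.F V.length y) (Y.F V.length (y + n) - Y.F V.length y) := by
  induction V with
  | nil =>
    intro x y n _ _
    simp only [cas, List.length_nil, F, Function.iterate_zero, id]
    rw [Nat.add_sub_cancel_left]
  | cons s V ih =>
    rintro x y n hy ⟨g, hx⟩
    rw [List.length_cons] at hy hx ⊢
    set b := V.length with hb
    have hmb : m * (b + 1) = m * b + m := by ring
    have h1 : (Pool.Agent.W_MP_5d512e_h33.run Y.δ Y.out s x).1 = Y.q y := by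
      rw [hx]
      exact Y.syn_state hm s g y _ (by rw [hmb]; omega) hy
    have h2 := run_append Y.δ Y.out s x (blk Y.w y n)
    rw [h1, hrun] at h2
    simp only [cas]
    rw [h2]
    simp only
    have hyf := Y.f_ge y
    have h3 := ih (Pool.Agent.W_MP_5d512e_h33.run Y.δ Y.out s x).2 (Y.f y)
      (Y.f (y + n) - Y.f y) (by omega) ?_
    · rw [h3]
      have h4 := Y.f_mono (show y ≤ y + n by omega)
      rw [show Y.f y + (Y.f (y + n) - Y.f y) = Y.f (y + n) by omega]
      rfl
    · rw [hx, hmb, show m * b + m = m + m * b by ring, blk_append, ← List.append_assoc,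
        run_append]
      simp only
      rw [show y - (m + m * b) + m = y - m * b by omega]
      have h5 : (Pool.Agent.W_MP_5d512e_h33.run Y.δ Y.out s
          (g ++ blk Y.w (y - (m + m * b)) m)).1 = Y.q (y - m * b) := by
        have := Y.syn_state hm s g (y - m * b) m le_rfl (by omega)
        rw [show y - m * b - m = y - (m + m * b) by omega] at this
        exact this
      rw [h5, hrun]
      simp only
      rw [show y - m * b + m * b = y by omega]
      have h6 := Y.f_add (y - m * b) (m * b)
      rw [show y - m * b + m * b = y by omega] at h6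
      obtain ⟨r, hr⟩ : ∃ r, Y.f y - Y.f (y - m * b) = r + m * b :=
        ⟨Y.f y - Y.f (y - m * b) - m * b, by omega⟩
      rw [hr, blk_append, ← List.append_assoc,
        show Y.f (y - m * b) + r = Y.f y - m * b by omega]
      exact ⟨_, rfl⟩

end Self

/-! ### Padding -/

section

variable {S A : Type} (δ : S → A → S) (out : S → A → List A) (q0 : S)

/-- The transducer with a blank letter. -/
def δo : S → Option A → S
  | _, none => q0
  | s, some x => δ s x

/-- Outputs with a blank letter. -/
def outo : S → Option A → List (Option A)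
  | _, none => [none]
  | s, some x => (out s x).map some

lemma run_some (s : S) (u : List A) : Pool.Agent.W_MP_5d512e_h33.run (δo δ q0) (outo out) s
    (u.map some) = ((Pool.Agent.W_MP_5d512e_h33.run δ out s u).1,
      (Pool.Agent.W_MP_5d512e_h33.run δ out s u).2.map some) := by
  induction u generalizing s with
  | nil => simp
  | cons x u ih =>
    rw [List.map_cons, run_cons, run_cons]
    show ((Pool.Agent.W_MP_5d512e_h33.run (δo δ q0) (outo out) (δ s x) (u.map some)).1,
      (out s x).map some ++
        (Pool.Agent.W_MP_5d512e_h33.run (δo δ q0) (outo out) (δ s x) (u.map some)).2) = _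
    rw [ih, List.map_append]

/-- The padded word. -/
def padw (w : ℕ → A) (Z i : ℕ) : Option A := if i < Z then none else some (w (i - Z))

lemma blk_padw_low (w : ℕ → A) (Z i n : ℕ) (h : i + n ≤ Z) :
    blk (padw w Z) i n = List.replicate n none := by
  induction n generalizing i with
  | zero => rfl
  | succ n ih =>
    rw [blk, ih (i + 1) (by omega), padw, if_pos (by omega)]
    rfl

lemma blk_padw_high (w : ℕ → A) (Z i n : ℕ) (h : Z ≤ i) :
    blk (padw w Z) i n = (blk w (i - Z) n).map some := by
  induction n generalizing i with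
  | zero => rfl
  | succ n ih =>
    rw [blk, ih (i + 1) (by omega), padw, if_neg (by omega), blk, List.map_cons,
      show i + 1 - Z = i - Z + 1 by omega]

end

variable {S A : Type}

/-- The padded system. -/
noncomputable def padS (Y : Sys S A) (Z : ℕ) : Self S (Option A) where
  δ := δo Y.δ Y.q0
  out := outo Y.out
  hne := by
    intro q x
    cases x with
    | none => simp [outo]
    | some x =>
      have := Y.hne q x
      simpa [outo] using this
  w := padw Y.lim Z
  q := fun i => if i < Z then Y.q0 else Y.sq (i - Z)
  f := fun i => if i < Z then i else Z + Y.fo (i - Z)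
  hq := by
    intro i
    by_cases h1 : i + 1 < Z
    · simp only [h1, if_true, padw, show i < Z by omega, δo]
    · by_cases h2 : i < Z
      · simp only [h1, if_false, padw, h2, if_true, δo]
        rw [show i + 1 - Z = 0 by omega]
        rfl
      · simp only [h1, if_false, padw, h2, δo]
        rw [show i + 1 - Z = i - Z + 1 by omega]
        exact Y.sq_succ _
  hf := by
    intro i
    by_cases h1 : i + 1 < Z
    · simp only [h1, if_true, show i < Z by omega]
      omega
    · by_cases h2 : i < Z
      · simp only [h1, if_false, h2, if_true]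
        omega
      · simp only [h1, if_false, h2]
        rw [show i + 1 - Z = i - Z + 1 by omega]
        have := Y.fo_mono (show i - Z ≤ i - Z + 1 by omega)
        omega
  hw := by
    intro i
    by_cases h1 : i + 1 < Z
    · simp only [h1, if_true, show i < Z by omega, padw, outo]
      rw [show i + 1 - i = 1 by omega, blk, blk, padw, if_pos (by omega)]
    · by_cases h2 : i < Z
      · simp only [h1, if_false, h2, if_true, outo]
        have h3 : i + 1 = Z := by omega
        rw [h3, Nat.sub_self, Sys.fo_zero, add_zero, show Z - i = 1 by omega, blk, blk]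
        unfold padw
        rw [if_pos h2]
      · simp only [h1, if_false, h2]
        have e1 : padw Y.lim Z i = some (Y.lim (i - Z)) := by
          unfold padw
          rw [if_neg h2]
        rw [e1]
        show (Y.out (Y.sq (i - Z)) (Y.lim (i - Z))).map some = _
        rw [Y.out_blk, blk_padw_high _ _ _ _ (by omega), show i + 1 - Z = i - Z + 1 by omega,
          show Z + Y.fo (i - Z) - Z = Y.fo (i - Z) by omega,
          show Z + Y.fo (i - Z + 1) - (Z + Y.fo (i - Z)) = Y.fo (i - Z + 1) - Y.fo (i - Z) by
            omega]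

/-- Synchronisation is preserved by padding. -/
lemma syn_pad (Y : Sys S A) (Z m : ℕ) (hm : Syn Y.δ Y.out Y.lim m) :
    Syn (padS Y Z).δ (padS Y Z).out (padS Y Z).w m := by
  intro i s t
  show (Pool.Agent.W_MP_5d512e_h33.run (δo Y.δ Y.q0) (outo Y.out) s
    (blk (padw Y.lim Z) i m)).1 = (Pool.Agent.W_MP_5d512e_h33.run (δo Y.δ Y.q0) (outo Y.out) t
    (blk (padw Y.lim Z) i m)).1
  by_cases hi : Z ≤ i
  · rw [blk_padw_high _ _ _ _ hi, run_some, run_some]
    exact hm _ _ _
  · cases m with
    | zero => exact hm 0 s t
    | succ m =>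
      have e1 : padw Y.lim Z i = none := by
        unfold padw
        rw [if_pos (by omega)]
      rw [blk, e1, run_cons, run_cons]
      rfl

end Pool.Agent.W_5d512e_h57
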