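import Pool.Agent.W_5d512e_h57.Num
import Pool.Agent.W_5d512e_h57.Win

/-!
# Running a cascade of transducers with little space
-/

set_option autoImplicit false

namespace Pool.Agent.W_5d512e_h57

open Pool.Agent.W_MP_5d512e_h33 (run_cons run_append)

/-- Tables of a transducer on codes. -/
structure Tab {S A : Type} (δ : S → A → S) (out : S → A → List A) (q0 : S) where
  K0 : ℕ
  Cm : ℕ
  Hd : ℕ
  cA : A → ℕ
  cX : S → List A → ℕ
  feedT : ℕ → ℕ → ℕ
  popT : ℕ → ℕ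
  headT : ℕ → ℕ
  neT : ℕ → ℕ
  hfeed : ∀ s r c, r.length ≤ Cm → feedT (cX s r) (cA c) = cX (δ s c) (out s c)
  hpop : ∀ s c r, (c :: r).length ≤ Cm → popT (cX s (c :: r)) = cX s r
  hhead : ∀ s c r, (c :: r).length ≤ Cm → headT (cX s (c :: r)) = cA c
  hnil : ∀ s, neT (cX s []) = 0
  hcons : ∀ s c r, (c :: r).length ≤ Cm → neT (cX s (c :: r)) ≠ 0
  h0 : cX q0 [] = 0
  hlt : ∀ s r, r.length ≤ Cm → cX s r < K0
  hK0 : 1 ≤ K0
  hCm : ∀ s c, (out s c).length ≤ Cm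
  hHd : ∀ x, headT x ≤ Hd
  lsf : LS (fun x : ℕ × ℕ => feedT x.1 x.2)
  lsp : LS popT
  lsh : LS headT
  lsn : LS neT

section

variable {S A : Type} {δ : S → A → S} {out : S → A → List A} {q0 : S}
  {α : Type} [Cd α] (T : Tab δ out q0)

@[fun_prop]
lemma ls_feedT {f g : α → ℕ} (hf : LS f) (hg : LS g) : LS (fun a => T.feedT (f a) (g a)) :=
  LS.comp (f := fun x : ℕ × ℕ => T.feedT x.1 x.2) (g := fun a => (f a, g a)) T.lsf (by fun_prop)

@[fun_prop]
lemma ls_popT {f : α → ℕ} (hf : LS f) : LS (fun a => T.popT (f a)) := LS.comp T.lsp hf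

@[fun_prop]
lemma ls_headT {f : α → ℕ} (hf : LS f) : LS (fun a => T.headT (f a)) := LS.comp T.lsh hf

@[fun_prop]
lemma ls_neT {f : α → ℕ} (hf : LS f) : LS (fun a => T.neT (f a)) := LS.comp T.lsn hf

/-- The highest level with a pending letter, plus one. -/
def topn (z b V : ℕ) : ℕ := lp (fun j acc => if T.neT (dgt z T.K0 V j) = 0 then acc else j + 1) 0 b

/-- One step of the cascade. -/
def dst (z b q E lo idx : ℕ) (x : ℕ × ℕ × ℕ × ℕ) : ℕ × ℕ × ℕ × ℕ :=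
  if topn T z b x.1 = 0 then
    if x.2.1 = 0 then x
    else (upd z T.K0 x.1 0 (T.feedT (dgt z T.K0 x.1 0) (dgt z q E (lo + x.2.1 - 1))), x.2.1 - 1,
      x.2.2.1, x.2.2.2)
  else if topn T z b x.1 = b then
    (upd z T.K0 x.1 (topn T z b x.1 - 1) (T.popT (dgt z T.K0 x.1 (topn T z b x.1 - 1))), x.2.1,
      x.2.2.1 + 1, if x.2.2.1 = idx then T.headT (dgt z T.K0 x.1 (topn T z b x.1 - 1))
        else x.2.2.2)
  else
    (upd z T.K0 (upd z T.K0 x.1 (topn T z b x.1 - 1)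
      (T.popT (dgt z T.K0 x.1 (topn T z b x.1 - 1)))) (topn T z b x.1)
      (T.feedT (dgt z T.K0 x.1 (topn T z b x.1))
        (T.headT (dgt z T.K0 x.1 (topn T z b x.1 - 1)))), x.2.1, x.2.2.1, x.2.2.2)

/-- The cascade, started with the vector `V0`, on `k` letters. -/
def dfs (z b q E lo idx V0 k : ℕ) : ℕ × ℕ × ℕ × ℕ :=
  lp (fun _ x => dst T z b q E lo idx x) (V0, k, 0, 0) z

lemma topn_le (z b V : ℕ) : topn T z b V ≤ b := by
  unfold topn
  induction b with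
  | zero => exact le_rfl
  | succ b ih =>
    rw [lp_succ]
    split_ifs
    · omega
    · exact le_rfl

@[fun_prop]
lemma ls_topn {f1 f2 f3 : α → ℕ} (h1 : LS f1) (h2 : LS f2) (h3 : LS f3) :
    LS (fun a => topn T (f1 a) (f2 a) (f3 a)) := by
  unfold topn
  exact ls_lp (f := fun _ => 0) (n := f2) (g := fun a j acc =>
    if T.neT (dgt (f1 a) T.K0 (f3 a) j) = 0 then acc else j + 1) (by fun_prop) h2 (by fun_prop)
    (Bq.of_le h2 fun a i hi => (topn_le T (f1 a) i (f3 a)).trans hi)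

@[fun_prop]
lemma ls_dst {f1 f2 f3 f4 f5 f6 : α → ℕ} {x : α → ℕ × ℕ × ℕ × ℕ} (h1 : LS f1) (h2 : LS f2)
    (h3 : LS f3) (h4 : LS f4) (h5 : LS f5) (h6 : LS f6) (hx : LS x) :
    LS (fun a => dst T (f1 a) (f2 a) (f3 a) (f4 a) (f5 a) (f6 a) (x a)) := by
  unfold dst
  fun_prop

@[fun_prop]
lemma ls_dfs {f1 f2 f3 f4 f5 f6 f7 f8 : α → ℕ} (h1 : LS f1) (h2 : LS f2)
    (h3 : LS f3) (h4 : LS f4) (h5 : LS f5) (h6 : LS f6) (h7 : LS f7) (h8 : LS f8) :
    LS (fun a => dfs T (f1 a) (f2 a) (f3 a) (f4 a) (f5 a) (f6 a) (f7 a) (f8 a)) := by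
  unfold dfs
  have key : ∀ a m, (lp (fun _ x => dst T (f1 a) (f2 a) (f3 a) (f4 a) (f5 a) (f6 a) x)
      (f7 a, f8 a, 0, 0) m).1 ≤ f1 a + f7 a ∧
      (lp (fun _ x => dst T (f1 a) (f2 a) (f3 a) (f4 a) (f5 a) (f6 a) x)
      (f7 a, f8 a, 0, 0) m).2.1 ≤ f8 a ∧
      (lp (fun _ x => dst T (f1 a) (f2 a) (f3 a) (f4 a) (f5 a) (f6 a) x)
      (f7 a, f8 a, 0, 0) m).2.2.1 ≤ m ∧
      (lp (fun _ x => dst T (f1 a) (f2 a) (f3 a) (f4 a) (f5 a) (f6 a) x)
      (f7 a, f8 a, 0, 0) m).2.2.2 ≤ T.Hd := by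
    intro a m
    induction m with
    | zero => exact ⟨Nat.le_add_left _ _, le_rfl, le_rfl, Nat.zero_le _⟩
    | succ m ih =>
      rw [lp_succ]
      set x := lp (fun _ x => dst T (f1 a) (f2 a) (f3 a) (f4 a) (f5 a) (f6 a) x)
        (f7 a, f8 a, 0, 0) m with hx
      obtain ⟨i1, i2, i3, i4⟩ := ih
      have hu : ∀ A i y, upd (f1 a) T.K0 A i y ≤ f1 a + f7 a := fun A i y =>
        (upd_le _ _ _ _ _).trans (Nat.le_add_right _ _)
      unfold dst
      by_cases c1 : topn T (f1 a) (f2 a) x.1 = 0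
      · rw [if_pos c1]
        by_cases c2 : x.2.1 = 0
        · rw [if_pos c2]
          exact ⟨i1, i2, by omega, i4⟩
        · rw [if_neg c2]
          exact ⟨hu _ _ _, by simp only; omega, by simp only; omega, i4⟩
      · rw [if_neg c1]
        by_cases c2 : topn T (f1 a) (f2 a) x.1 = f2 a
        · rw [if_pos c2]
          refine ⟨hu _ _ _, i2, by simp only; omega, ?_⟩
          simp only
          split_ifs
          · exact T.hHd _
          · exact i4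
        · rw [if_neg c2]
          exact ⟨hu _ _ _, i2, by simp only; omega, i4⟩
  refine ls_lp (f := fun a => (f7 a, f8 a, 0, 0)) (n := f1)
    (g := fun a _ x => dst T (f1 a) (f2 a) (f3 a) (f4 a) (f5 a) (f6 a) x) (by fun_prop) h1
    (by fun_prop) (Bq.pair ?_ (Bq.pair ?_ (Bq.pair ?_ ?_)))
  · exact Bq.of_le (f := fun a => f1 a + f7 a) (by fun_prop) fun a m _ => (key a m).1
  · exact Bq.of_le h8 fun a m _ => (key a m).2.1
  · exact Bq.of_le h1 fun a m hm => (key a m).2.2.1.trans hm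
  · exact Bq.of_le (f := fun _ => T.Hd) (by fun_prop) fun a m _ => (key a m).2.2.2

end

end Pool.Agent.W_5d512e_h57
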