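import Pool.Agent.W_5d512e_h57.Par

/-!
# Synchronising transducers: space `n^{1/3} log n`
-/

set_option autoImplicit false

namespace Pool.Agent.W_5d512e_h57

open Pool.Agent.W_MP_5d512e_h33 Pool.Agent.W_MP_5d512e_dic

section

variable {p d : ℕ} (Y : Sys (Fin p) (Fin d)) (T : Tab (δo Y.δ Y.q0) (outo Y.out) Y.q0) (m : ℕ)

/-- The prime. -/
def Pr (d m n c : ℕ) : ℕ := npr ((m * c + 2) * qq d n + 2)

/-- The depth. -/
def Jn (n c : ℕ) : ℕ := 3 * (n / (c * c) + 1) + 1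

/-- The number `z` is large enough. -/
def Big (m d K0 Cm n z c : ℕ) : Prop :=
  pw z (Pr d m n c) (m * c + 2) ≠ 0 ∧ pw z (qq d n) (m * c + 2) ≠ 0 ∧
  pw z ((n + m * c + 2) * Pr d m n c * 5) (Jn n c) ≠ 0 ∧ pw z K0 c ≠ 0 ∧ pw z (d + 1) c ≠ 0 ∧
  pw z (Cm + 1) c ≠ 0 ∧ (m * c + 1) * pw z (Cm + 1) c ≤ z ∧ 3 * (n + m * c + 3) ≤ z

instance (m d K0 Cm n z c : ℕ) : Decidable (Big m d K0 Cm n z c) := by
  unfold Big
  infer_instance

/-- The function. -/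
def FF (n z : ℕ) : ℕ :=
  if Big m d T.K0 T.Cm n z (cr n) then
    cat z (Pr d m n (cr n)) (qq d n) (m * cr n + 2) (n + m * cr n + 2) (hh Y T m z n (cr n))
      (tgg m n (cr n)) (chh Y z (cr n)) (Jn n (cr n)) (3 * n)
  else 0

@[fun_prop]
lemma ls_Pr {α : Type} [Cd α] {f g : α → ℕ} (hf : LS f) (hg : LS g) :
    LS (fun a => Pr d m (f a) (g a)) := by
  unfold Pr
  fun_prop

@[fun_prop]
lemma ls_Jn {α : Type} [Cd α] {f g : α → ℕ} (hf : LS f) (hg : LS g) :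
    LS (fun a => Jn (f a) (g a)) := by
  unfold Jn
  fun_prop

@[fun_prop]
lemma ls_Big {α : Type} [Cd α] (K0 Cm : ℕ) {f g h : α → ℕ} (hf : LS f) (hg : LS g) (hh : LS h) :
    LSp (fun a => Big m d K0 Cm (f a) (g a) (h a)) := by
  unfold Big
  fun_prop

lemma ls_FF : LS (fun x : ℕ × ℕ => FF Y T m x.1 x.2) := by
  unfold FF
  refine LS.ite (by fun_prop) ?_ (by fun_prop)
  exact ls_cat (z := fun x : ℕ × ℕ => x.2) (p := fun x : ℕ × ℕ => Pr d m x.1 (cr x.1))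
    (q := fun x : ℕ × ℕ => qq d x.1) (D := fun x : ℕ × ℕ => m * cr x.1 + 2)
    (R := fun x : ℕ × ℕ => x.1 + m * cr x.1 + 2) (h := fun x : ℕ × ℕ => hh Y T m x.2 x.1 (cr x.1))
    (tg := fun x : ℕ × ℕ => tgg m x.1 (cr x.1)) (ch := fun x : ℕ × ℕ => chh Y x.2 (cr x.1))
    (J := fun x : ℕ × ℕ => Jn x.1 (cr x.1)) (v := fun x : ℕ × ℕ => 3 * x.1)
    (by fun_prop) (by fun_prop) (by fun_prop) (by fun_prop) (by fun_prop) (by fun_prop)
    (by fun_prop) (by fun_prop) (by fun_prop) (by fun_prop)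

variable {m}

lemma FF_ok (hT : T.cA = cAo) (hm : Syn Y.δ Y.out Y.lim m) {n z : ℕ}
    (h : Big m d T.K0 T.Cm n z (cr n)) : FF Y T m n z = (Y.lim n : ℕ) + 1 := by
  unfold FF
  rw [if_pos h]
  obtain ⟨b1, b2, b3, b4, b5, b6, b7, b8⟩ := h
  have hc := cr_pos n
  obtain ⟨pp, p1, -⟩ := npr_spec (x := (m * cr n + 2) * qq d n + 2) (by omega)
  have hPr : npr ((m * cr n + 2) * qq d n + 2) = Pr d m n (cr n) := rfl
  rw [hPr] at pp p1
  have hq1 : n + d + 2 ≤ qq d n := by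
    unfold qq
    nlinarith
  have hqq : qq d n ≤ (m * cr n + 2) * qq d n := Nat.le_mul_of_pos_left _ (by omega)
  have : Fact (Pr d m n (cr n)).Prime := ⟨pp⟩
  have e6 := (pw_ne b6).2
  rw [e6] at b7
  have hlim := (Y.lim n).2
  rw [cat_eq (p := Pr d m n (cr n)) (pw_ne b1).1 (pw_ne b2).1 (by omega) (by omega) ?_
    (tgg_lt m n (cr n)) (chh_le Y z (cr n)) (pw_ne b3).1 (by omega) (by omega)]
  · rw [VV_ok Y T hT hm hc (pw_ne b4).1 b7 (pw_ne b2).1 (pw_ne b5).1 b8 (by omega) (Jn n (cr n))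
      (3 * n) (by omega) ?_ 0 (by omega)]
    · have e : vv Y m n (cr n) (3 * n) 0 = (Y.lim n : ℕ) + 1 := by
        unfold vv
        rw [if_pos (by omega), if_pos rfl, show 3 * n / 3 = n by omega]
      rw [e, ZMod.val_natCast, Nat.mod_eq_of_lt (by omega)]
    · unfold dp gd Jn
      rw [if_pos (by omega), show 3 * n / 3 = n by omega]
      split_ifs <;> omega
  · rw [Nat.mul_sub, mul_one]
    omega

/-! ### The size of `z` -/

lemma le_two_pow_log (n : ℕ) : n + 1 ≤ 2 ^ (Nat.log 2 n + 1) := by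
  have := Nat.lt_pow_succ_log_self (b := 2) (by omega) n
  exact this

lemma le_two_pow_mul (k : ℕ) {l : ℕ} (hl : 1 ≤ l) : k + 1 ≤ 2 ^ (k * l) := by
  have h1 : k < 2 ^ k := Nat.lt_two_pow_self
  exact h1.trans_le (Nat.pow_le_pow_right (by omega) (Nat.le_mul_of_pos_right _ hl))

lemma pow_le_big {x e l k c A B : ℕ} (h1 : x ≤ 2 ^ (A * l)) (h2 : k ≤ B * c)
    (h3 : A * B ≤ e) : x ^ k ≤ 2 ^ (e * (c * l)) := by
  refine (Nat.pow_le_pow_left h1 k).trans ?_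
  rw [← pow_mul]
  apply Nat.pow_le_pow_right (by omega)
  calc A * l * k ≤ A * l * (B * c) := Nat.mul_le_mul_left _ h2
    _ = A * B * (c * l) := by ring
    _ ≤ e * (c * l) := Nat.mul_le_mul_right _ h3

/-- The constant. -/
def Cst (m d K0 Cm : ℕ) : ℕ :=
  (m + 2 * d + 20) * (m + 2) + (2 * d + 6) * (m + 2) + (2 * m + 2 * d + 30) * 7 + K0 + (d + 1) +
    (Cm + m + 6) + 8

lemma big_of {m d K0 Cm n z c : ℕ} (hP : 1 ≤ Pr d m n c) (hq : 1 ≤ qq d n) (hK : 1 ≤ K0)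
    (g1 : Pr d m n c ^ (m * c + 2) ≤ z) (g2 : qq d n ^ (m * c + 2) ≤ z)
    (g3 : ((n + m * c + 2) * Pr d m n c * 5) ^ (Jn n c) ≤ z) (g4 : K0 ^ c ≤ z)
    (g5 : (d + 1) ^ c ≤ z) (g6 : (Cm + 1) ^ c ≤ z) (g7 : (m * c + 1) * (Cm + 1) ^ c ≤ z)
    (g8 : 3 * (n + m * c + 3) ≤ z) : Big m d K0 Cm n z c := by
  have h3 : 1 ≤ (n + m * c + 2) * Pr d m n c * 5 :=
    Nat.mul_pos (Nat.mul_pos (Nat.succ_pos _) hP) (Nat.succ_pos 4)
  refine ⟨pw_pos hP g1, pw_pos hq g2, pw_pos h3 g3, pw_pos hK g4, pw_pos (by omega) g5,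
    pw_pos (by omega) g6, ?_, g8⟩
  rw [pw_eq (by omega) g6]
  exact g7

lemma big_ok (m d K0 Cm n : ℕ) (hK : 1 ≤ K0) :
    Big m d K0 Cm n (2 ^ (Cst m d K0 Cm * (cr n * (Nat.log 2 n + 1)))) (cr n) := by
  have hc := cr_pos n
  have hcn := cr_le n
  have hdc := div_cr n
  set c := cr n with hcdef
  set l := Nat.log 2 n + 1 with hldef
  have hl : 1 ≤ l := by omega
  have hn : n + 1 ≤ 2 ^ l := le_two_pow_log n
  have e2 : ∀ a b : ℕ, 2 ^ (a * l) * 2 ^ (b * l) = 2 ^ ((a + b) * l) := by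
    intro a b
    rw [← pow_add]
    congr 1
    ring
  -- sizes
  have s1 : n + 1 ≤ 2 ^ (1 * l) := by rwa [one_mul]
  have s2 : n + d + 2 ≤ 2 ^ ((d + 2) * l) := by
    have h1 := le_two_pow_mul (d + 1) hl
    calc n + d + 2 ≤ (d + 1 + 1) * (n + 1) := by nlinarith
      _ ≤ 2 ^ ((d + 1) * l) * 2 ^ (1 * l) := Nat.mul_le_mul h1 s1
      _ = 2 ^ ((d + 2) * l) := e2 _ _
  have s3 : qq d n ≤ 2 ^ ((2 * d + 4) * l) := by
    calc qq d n ≤ 2 ^ ((d + 2) * l) * 2 ^ ((d + 2) * l) := Nat.mul_le_mul s2 s2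
      _ = 2 ^ ((2 * d + 4) * l) := by
        rw [e2]
        congr 2
        ring
  have s4 : m * c + 2 ≤ 2 ^ ((m + 2) * l) := by
    have h1 := le_two_pow_mul (m + 1) hl
    calc m * c + 2 ≤ (m + 1 + 1) * c := by nlinarith
      _ ≤ 2 ^ ((m + 1) * l) * 2 ^ (1 * l) := Nat.mul_le_mul h1 (hcn.trans s1)
      _ = 2 ^ ((m + 2) * l) := e2 _ _
  have hq4 : 4 ≤ qq d n := by
    unfold qq
    nlinarith
  have s5 : Pr d m n c ≤ 2 ^ ((m + 2 * d + 9) * l) := by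
    obtain ⟨-, -, p2⟩ := npr_spec (x := (m * c + 2) * qq d n + 2) (by omega)
    have h1 := le_two_pow_mul 3 hl
    have h2 : 8 ≤ (m * c + 2) * qq d n := by
      have : 2 * 4 ≤ (m * c + 2) * qq d n := Nat.mul_le_mul (by omega) hq4
      omega
    calc Pr d m n c ≤ 2 * ((m * c + 2) * qq d n + 2) + 1 := p2
      _ ≤ 4 * ((m * c + 2) * qq d n) := by omega
      _ ≤ 2 ^ (3 * l) * (2 ^ ((m + 2) * l) * 2 ^ ((2 * d + 4) * l)) :=
        Nat.mul_le_mul h1 (Nat.mul_le_mul s4 s3)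
      _ = 2 ^ ((m + 2 * d + 9) * l) := by
        rw [e2, e2]
        congr 2
        ring
  have s6 : n + m * c + 2 ≤ 2 ^ ((m + 3) * l) := by
    have h1 := le_two_pow_mul (m + 2) hl
    calc n + m * c + 2 ≤ (m + 2 + 1) * (n + 1) := by nlinarith
      _ ≤ 2 ^ ((m + 2) * l) * 2 ^ (1 * l) := Nat.mul_le_mul h1 s1
      _ = 2 ^ ((m + 3) * l) := e2 _ _
  have s7 : (n + m * c + 2) * Pr d m n c * 5 ≤ 2 ^ ((2 * m + 2 * d + 16) * l) := by
    have h1 := le_two_pow_mul 4 hl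
    calc (n + m * c + 2) * Pr d m n c * 5 ≤
        2 ^ ((m + 3) * l) * 2 ^ ((m + 2 * d + 9) * l) * 2 ^ (4 * l) :=
        Nat.mul_le_mul (Nat.mul_le_mul s6 s5) h1
      _ = 2 ^ ((2 * m + 2 * d + 16) * l) := by
        rw [e2, e2]
        congr 2
        ring
  have hD : m * c + 2 ≤ (m + 2) * c := by nlinarith
  have hJ : Jn n c ≤ 7 * c := by
    unfold Jn
    omega
  have hPr1 : 1 ≤ Pr d m n c := by
    obtain ⟨-, p1, -⟩ := npr_spec (x := (m * c + 2) * qq d n + 2) (by omega)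
    exact le_trans (by omega) p1
  have hCm : (Cm + 1) ^ c ≤ 2 ^ (Cm * (c * l)) :=
    pow_le_big (A := Cm) (B := 1) (le_two_pow_mul Cm hl) (by omega) (by omega)
  have mono : ∀ {a}, a ≤ Cst m d K0 Cm → 2 ^ (a * (c * l)) ≤ 2 ^ (Cst m d K0 Cm * (c * l)) :=
    fun h => Nat.pow_le_pow_right (by omega) (Nat.mul_le_mul_right _ h)
  have g1 : Pr d m n c ^ (m * c + 2) ≤ 2 ^ (Cst m d K0 Cm * (c * l)) := by
    refine pow_le_big s5 hD ?_
    unfold Cst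
    nlinarith
  have g2 : qq d n ^ (m * c + 2) ≤ 2 ^ (Cst m d K0 Cm * (c * l)) := by
    refine pow_le_big s3 hD ?_
    unfold Cst
    nlinarith
  have g3 : ((n + m * c + 2) * Pr d m n c * 5) ^ (Jn n c) ≤ 2 ^ (Cst m d K0 Cm * (c * l)) := by
    refine pow_le_big s7 hJ ?_
    unfold Cst
    nlinarith
  have g4 : K0 ^ c ≤ 2 ^ (Cst m d K0 Cm * (c * l)) := by
    refine pow_le_big (A := K0) (B := 1) ((Nat.le_add_right _ 1).trans (le_two_pow_mul K0 hl))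
      (by omega) ?_
    unfold Cst
    omega
  have g5 : (d + 1) ^ c ≤ 2 ^ (Cst m d K0 Cm * (c * l)) := by
    refine pow_le_big (A := d) (B := 1) (le_two_pow_mul d hl) (by omega) ?_
    unfold Cst
    omega
  have g6 : (Cm + 1) ^ c ≤ 2 ^ (Cst m d K0 Cm * (c * l)) := by
    refine hCm.trans (mono ?_)
    unfold Cst
    omega
  have hlc : l ≤ c * l := Nat.le_mul_of_pos_left _ (by omega)
  have g7 : (m * c + 1) * (Cm + 1) ^ c ≤ 2 ^ (Cst m d K0 Cm * (c * l)) := by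
    calc (m * c + 1) * (Cm + 1) ^ c ≤ 2 ^ ((m + 2) * l) * 2 ^ (Cm * (c * l)) :=
        Nat.mul_le_mul (by omega) hCm
      _ ≤ 2 ^ ((m + 2) * (c * l)) * 2 ^ (Cm * (c * l)) :=
        Nat.mul_le_mul_right _ (Nat.pow_le_pow_right (by omega) (Nat.mul_le_mul_left _ hlc))
      _ = 2 ^ ((m + 2 + Cm) * (c * l)) := by
        rw [← pow_add]
        congr 1
        ring
      _ ≤ _ := mono (by unfold Cst; omega)
  have g8 : 3 * (n + m * c + 3) ≤ 2 ^ (Cst m d K0 Cm * (c * l)) := by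
    have h1 := le_two_pow_mul 5 hl
    calc 3 * (n + m * c + 3) ≤ (5 + 1) * (n + m * c + 2) := by omega
      _ ≤ 2 ^ (5 * l) * 2 ^ ((m + 3) * l) := Nat.mul_le_mul h1 s6
      _ = 2 ^ ((m + 8) * l) := by
        rw [e2]
        congr 2
        ring
      _ ≤ 2 ^ ((m + 8) * (c * l)) :=
        Nat.pow_le_pow_right (by omega) (Nat.mul_le_mul_left _ hlc)
      _ ≤ _ := mono (by unfold Cst; omega)
  exact big_of hPr1 (le_trans (by norm_num) hq4) hK g1 g2 g3 g4 g5 g6 g7 g8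

lemma e2_of_ls {f : ℕ × ℕ → ℕ} (h : LS f) : E2 (fun x => f (ku x)) := h

/-- The word generated by a synchronising system. -/
theorem gs_sys (Y : Sys (Fin p) (Fin d)) (m : ℕ) (hm : Syn Y.δ Y.out Y.lim m) :
    GSpace (fun n => cr n * (Nat.log 2 n + 1)) Y.lim := by
  obtain ⟨T, hT⟩ := exists_tab (δo Y.δ Y.q0) (outo Y.out) Y.q0
  have hF := e2_of_ls (ls_FF Y T m)
  have hz : ∀ n z, FF Y T m (ku (kp n z)).1 (ku (kp n z)).2 = FF Y T m n z := by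
    intro n z
    rw [ku_kp]
  refine gs_of_E2 Y.lim _ hF _ ?_ ?_ (Cst m d T.K0 T.Cm) ?_ ?_
  · intro a b h
    exact Nat.mul_le_mul (cr_mono h) (Nat.add_le_add_right (Nat.log_mono_right h) 1)
  · intro n
    exact Nat.le_mul_of_pos_left _ (cr_pos n)
  · intro n z h
    rw [hz] at h ⊢
    by_cases hb : Big m d T.K0 T.Cm n z (cr n)
    · exact FF_ok Y T hT hm hb
    · unfold FF at h
      rw [if_neg hb] at h
      exact absurd rfl h
  · intro n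
    refine ⟨_, le_rfl, ?_⟩
    rw [hz, FF_ok Y T hT hm (big_ok m d T.K0 T.Cm n T.hK0)]
    exact Nat.succ_ne_zero _

end

end Pool.Agent.W_5d512e_h57
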