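import Pool.Agent.W_5d512e_h57.Ls

/-!
# Unrolling of recursive procedures
-/

set_option autoImplicit false

namespace Pool.Agent.W_5d512e_h57

section

variable {σ : Type}

lemma lp_succ (g : ℕ → σ → σ) (s : σ) (n : ℕ) : lp g s (n + 1) = g n (lp g s n) := rfl

lemma lp_add (g : ℕ → σ → σ) (s : σ) (m n : ℕ) :
    lp g s (m + n) = lp (fun i => g (m + i)) (lp g s m) n := by
  induction n with
  | zero => rfl
  | succ n ih =>
    rw [← add_assoc, lp_succ, lp_succ, ih]

lemma lp_succ' (g : ℕ → σ → σ) (s : σ) (n : ℕ) :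
    lp g s (n + 1) = lp (fun i => g (i + 1)) (g 0 s) n := by
  rw [add_comm, lp_add]
  congr 1
  funext i
  rw [add_comm]

lemma lp_mul (g : ℕ → σ → σ) (s : σ) (a b : ℕ) :
    lp g s (a * b) = lp (fun r s => lp (fun j => g (r * b + j)) s b) s a := by
  induction a with
  | zero => rw [zero_mul]; rfl
  | succ a ih => rw [Nat.add_mul, one_mul, lp_add, lp_succ, ih]

lemma lp_congr {g g' : ℕ → σ → σ} {s : σ} {n : ℕ} (h : ∀ i < n, ∀ s, g i s = g' i s) :
    lp g s n = lp g' s n := by
  induction n with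
  | zero => rfl
  | succ n ih => rw [lp_succ, lp_succ, ih (fun i hi => h i (by omega)), h n (by omega)]

lemma lp_fix {g : ℕ → σ → σ} {s : σ} {n : ℕ} (h : ∀ i < n, g i s = s) : lp g s n = s := by
  induction n with
  | zero => rfl
  | succ n ih => rw [lp_succ, ih (fun i hi => h i (by omega)), h n (by omega)]

lemma lp_inv {P : σ → Prop} {g : ℕ → σ → σ} {s : σ} (h0 : P s) {n : ℕ}
    (h : ∀ i < n, ∀ s, P s → P (g i s)) : P (lp g s n) := by
  induction n with
  | zero => exact h0
  | succ n ih => exact h n (by omega) _ (ih fun i hi => h i (by omega))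

end

section

variable {C S : Type} (sf : C → ℕ → ℕ) (sc : C → ℕ → C) (act : C → ℕ → S → S) (Q : ℕ)

/-- The recursive procedure. -/
def run : ℕ → C → S → S
  | 0, _, s => s
  | k + 1, c, s => lp (fun r s => if sf c r = 0 then act c r s else run k (sc c r) s) s Q

/-- What happens at one time. -/
def flat : ℕ → C → ℕ → S → S
  | 0, _, _, s => s
  | k + 1, c, i, s => if sf c (i / Q ^ k) = 0 then
      (if i % Q ^ k = 0 then act c (i / Q ^ k) s else s)
      else flat k (sc c (i / Q ^ k)) (i % Q ^ k) s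

lemma lp_first (g : S → S) (s : S) (b : ℕ) (hb : 0 < b) :
    lp (fun j s => if j = 0 then g s else s) s b = g s := by
  obtain ⟨b, rfl⟩ : ∃ b', b = b' + 1 := ⟨b - 1, by omega⟩
  rw [lp_succ', if_pos rfl]
  apply lp_fix
  intro i _
  rw [if_neg (by omega)]

theorem lp_flat (hQ : 0 < Q) (k : ℕ) (c : C) (s : S) :
    lp (flat sf sc act Q k c) s (Q ^ k) = run sf sc act Q k c s := by
  induction k generalizing c s with
  | zero =>
    rw [pow_zero]
    rfl
  | succ k ih =>
    have hb : 0 < Q ^ k := pow_pos hQ k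
    rw [pow_succ', lp_mul, run]
    apply lp_congr
    intro r _ s
    have e : ∀ j < Q ^ k, (r * Q ^ k + j) / Q ^ k = r ∧ (r * Q ^ k + j) % Q ^ k = j := by
      intro j hj
      constructor
      · rw [mul_comm, Nat.mul_add_div hb, Nat.div_eq_of_lt hj, add_zero]
      · rw [mul_comm, Nat.mul_add_mod, Nat.mod_eq_of_lt hj]
    split_ifs with h
    · rw [← lp_first (act c r) s (Q ^ k) hb]
      apply lp_congr
      intro j hj s
      unfold flat
      rw [(e j hj).1, (e j hj).2, if_pos h]
    · rw [← ih (sc c r) s]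
      apply lp_congr
      intro j hj s
      conv_lhs => unfold flat
      rw [(e j hj).1, (e j hj).2, if_neg h]

/-- One step of the search for the action. -/
def ls1 (b : ℕ) (x : C × ℕ × ℕ × ℕ) : C × ℕ × ℕ × ℕ :=
  if x.2.2.2 = 0 then
    if sf x.1 (x.2.1 / b) = 0 then (x.1, 0, x.2.1 / b, if x.2.1 % b = 0 then 1 else 2)
    else (sc x.1 (x.2.1 / b), x.2.1 % b, 0, 0)
  else x

/-- The search for the action. -/
def loc (bl : ℕ → ℕ) (J : ℕ) (x : C × ℕ × ℕ × ℕ) : C × ℕ × ℕ × ℕ :=
  lp (fun l x => ls1 sf sc (bl (J - 1 - l)) x) x J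

/-- One step. -/
def stp (bl : ℕ → ℕ) (J : ℕ) (c : C) (i : ℕ) (s : S) : S :=
  if (loc sf sc bl J (c, i, 0, 0)).2.2.2 = 1 then
    act (loc sf sc bl J (c, i, 0, 0)).1 (loc sf sc bl J (c, i, 0, 0)).2.2.1 s
  else s

theorem stp_eq (bl : ℕ → ℕ) (J : ℕ) (hbl : ∀ l < J, bl l = Q ^ l) (c : C) (i : ℕ) (s : S) :
    stp sf sc act bl J c i s = flat sf sc act Q J c i s := by
  induction J generalizing c i with
  | zero =>
    unfold stp loc flat
    rfl
  | succ J ih =>
    have e : loc sf sc bl (J + 1) (c, i, 0, 0) = loc sf sc bl J (ls1 sf sc (Q ^ J) (c, i, 0, 0)) := by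
      unfold loc
      rw [lp_succ']
      have e1 : bl (J + 1 - 1 - 0) = Q ^ J := by
        rw [hbl _ (by omega)]
        rfl
      rw [e1]
      apply lp_congr
      intro l _ x
      rw [show J + 1 - 1 - (l + 1) = J - 1 - l by omega]
    unfold flat
    by_cases h : sf c (i / Q ^ J) = 0
    · rw [if_pos h]
      have e2 : ls1 sf sc (Q ^ J) (c, i, 0, 0) =
          (c, 0, i / Q ^ J, if i % Q ^ J = 0 then 1 else 2) := by
        unfold ls1
        rw [if_pos rfl, if_pos h]
      have e3 : loc sf sc bl J (c, 0, i / Q ^ J, if i % Q ^ J = 0 then 1 else 2) =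
          (c, 0, i / Q ^ J, if i % Q ^ J = 0 then 1 else 2) := by
        unfold loc
        apply lp_fix
        intro l _
        unfold ls1
        have hne : ¬ ((c, 0, i / Q ^ J, if i % Q ^ J = 0 then 1 else 2) :
            C × ℕ × ℕ × ℕ).2.2.2 = 0 := by
          show ¬ (if i % Q ^ J = 0 then 1 else 2) = 0
          split_ifs <;> decide
        rw [if_neg hne]
      unfold stp
      rw [e, e2, e3]
      simp only
      split_ifs with h1 h2 h3
      · rfl
      · omega
      · omega
      · rfl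
    · rw [if_neg h, ← ih (fun l hl => hbl l (by omega))]
      have e2 : ls1 sf sc (Q ^ J) (c, i, 0, 0) = (sc c (i / Q ^ J), i % Q ^ J, 0, 0) := by
        unfold ls1
        rw [if_pos rfl, if_neg h]
      unfold stp
      rw [e, e2]

end

end Pool.Agent.W_5d512e_h57
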