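import Pool.Agent.W_5d512e_h57.Comp

/-!
# Generating machines from functions computed in linear space
-/

set_option autoImplicit false

namespace Pool.Agent.W_5d512e_h57

open Pool.Agent.W_MP_5d512e_dic Pool.Agent.W_MP_5d512e_lc

/-- The infinite word `w` is generated by a deterministic multi-tape machine whose heads, up to
the first time at which `n` letters are output (`n ≥ 1`), stay in the first `C * s n` cells, for
some constant `C`. -/
def GSpace {d : ℕ} (s : ℕ → ℕ) (w : ℕ → Fin d) : Prop :=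
  ∃ (m k g C : ℕ)
    (δM : Fin (m+1) → (Fin k → Fin (g+1)) →
      Fin (m+1) × (Fin k → Fin (g+1)) × (Fin k → Fin 3) × Option (Fin d))
    (conf : ℕ → Fin (m+1) × (Fin k → ℕ → Fin (g+1)) × (Fin k → ℕ) × List (Fin d)),
    conf 0 = (0, fun _ _ => 0, fun _ => 0, []) ∧
    (∀ t : ℕ, conf (t+1) =
      ((δM (conf t).1 (fun j => (conf t).2.1 j ((conf t).2.2.1 j))).1,
       fun j i => if i = (conf t).2.2.1 j
         then (δM (conf t).1 (fun j' => (conf t).2.1 j' ((conf t).2.2.1 j'))).2.1 j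
         else (conf t).2.1 j i,
       fun j => (conf t).2.2.1 j
         + ((δM (conf t).1 (fun j' => (conf t).2.1 j' ((conf t).2.2.1 j'))).2.2.1 j : ℕ) - 1,
       (conf t).2.2.2
         ++ ((δM (conf t).1 (fun j' => (conf t).2.1 j' ((conf t).2.2.1 j'))).2.2.2).toList)) ∧
    (∀ (t i : ℕ) (h : i < (conf t).2.2.2.length), (conf t).2.2.2[i] = w i) ∧
    (∀ n : ℕ, ∃ t : ℕ, n ≤ (conf t).2.2.2.length) ∧
    (∀ n t : ℕ, 1 ≤ n → (∀ t' < t, (conf t').2.2.2.length < n) →
      ∀ j : Fin k, (conf t).2.2.1 j + 1 ≤ C * s n)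

/-- A word generated by a counter program whose registers are at most `2 ^ (C * s n)`. -/
theorem gs_of_cm {Q R : Type} [Finite Q] [Finite R] [DecidableEq R] {d : ℕ}
    (P : Q → Ins Q R (Fin d)) (w : ℕ → Fin d) (s : ℕ → ℕ) (hs : Monotone s) (h1 : 1 ≤ s 0)
    (C : ℕ) (qs : ℕ → Q) (vs : ℕ → R → ℕ) (hv0 : vs 0 = fun _ => 0)
    (hrun : ∀ n, CS P (2 ^ (C * s n)) (qs n, vs n, (List.range n).map w)
      (qs (n + 1), vs (n + 1), (List.range n).map w ++ [w n])) : GSpace s w := by
  classical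
  set δ := tm P (qs 0) with hδ
  set Nf : ℕ → ℕ := fun n => 2 ^ (C * s n) with hNf
  have hmono : Monotone Nf := by
    intro a b hab
    exact Nat.pow_le_pow_right (by omega) (Nat.mul_le_mul_left _ (hs hab))
  set Bf : ℕ → ℕ := fun n => Nat.log 2 (2 * Nf n) + 1 with hBf
  have hBmono : Monotone Bf := by
    intro a b hab
    simp only [hBf]
    have := Nat.log_mono_right (b := 2) (Nat.mul_le_mul_left 2 (hmono hab))
    omega
  have hpos : ∀ n, 1 ≤ Nf n := fun n => Nat.one_le_two_pow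
  have hB : ∀ n L, 2 ^ L ≤ 2 * Nf n → L + 1 ≤ Bf n := by
    intro n L hL
    have h2 : 2 * Nf n ≠ 0 := by have := hpos n; omega
    have := Nat.le_log_of_pow_le (b := 2) (by norm_num) hL
    simp only [hBf]
    omega
  set c0 : Cfg R (Ts Q) (Fin 4) (Fin d) := (.ini, fun _ _ => 0, fun _ => 0, []) with hc0
  have key : ∀ n, ∃ ds, Rp (Nf n) ds (vs n) ∧
      Reach δ (Bf n) c0 (tc (qs n) ds ((List.range n).map w)) := by
    intro n
    induction n with
    | zero =>
      refine ⟨fun _ => [], ?_, ?_⟩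
      · intro r
        rw [hv0]
        refine ⟨rfl, ?_⟩
        have := hpos 0
        simp only [List.length_nil, pow_zero]
        omega
      · refine Reach.one ?_ (fun j => Nat.zero_le _) (fun j => Nat.zero_le _)
        rw [hc0, hδ]
        unfold step tc
        simp only [tm]
        refine Prod.ext rfl (Prod.ext ?_ (Prod.ext ?_ rfl))
        · funext j i
          simp only
          cases i with
          | zero => rfl
          | succ i => simp [enc]
        · funext j
          simp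
    | succ n ih =>
      obtain ⟨ds, k1, k2⟩ := ih
      obtain ⟨ds', k3, k4⟩ := sim_run P (qs 0) (hB n) (hpos n) (hrun n) ds k1
      have e : (List.range (n + 1)).map w = (List.range n).map w ++ [w n] := by
        rw [List.range_succ, List.map_append]
        rfl
      refine ⟨ds', k3.mono (hmono (by omega)), ?_⟩
      rw [e]
      exact Reach.monoB (k2.trans k4) (hBmono (by omega))
  -- times
  have key2 : ∀ n, ∃ t, ((step δ)^[t] c0).2.2.2 = (List.range n).map w ∧
      ∀ i ≤ t, ok (Bf n) ((step δ)^[i] c0) := by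
    intro n
    obtain ⟨ds, -, k⟩ := key n
    obtain ⟨t, k1, k2⟩ := k.iter
    exact ⟨t, by rw [k1]; rfl, k2⟩
  obtain ⟨m, k, g, δM, conf, ee, hh0, hstep, hout, hhead⟩ := encode (ι := R) (Ts.ini : Ts Q)
    (0 : Fin 4) δ
  have hout' : ∀ t, (conf t).2.2.2 = ((step δ)^[t] c0).2.2.2 := hout
  have hhead' : ∀ t j, (conf t).2.2.1 j = ((step δ)^[t] c0).2.2.1 (ee.symm j) := hhead
  refine ⟨m, k, g, C + 3, δM, conf, hh0, hstep, ?_, ?_, ?_⟩
  · intro t i h
    obtain ⟨s, hs, -⟩ := key2 ((conf t).2.2.2.length + 1)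
    have hts : t ≤ s := by
      by_contra hcon
      have hp := out_prefix_iter δ c0 s t (by omega)
      rw [hs, ← hout'] at hp
      have := hp.length_le
      simp at this
    have hp := out_prefix_iter δ c0 t s hts
    rw [hs, ← hout'] at hp
    rw [hp.getElem h]
    simp
  · intro n
    obtain ⟨t, ht, -⟩ := key2 n
    refine ⟨t, ?_⟩
    rw [hout', ht]
    simp
  · intro n t hn ht j
    obtain ⟨s', hs', hok⟩ := key2 n
    have hts : t ≤ s' := by
      by_contra hcon
      have := ht s' (by omega)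
      rw [hout', hs'] at this
      simp at this
    have h2 := hok t hts (ee.symm j)
    rw [hhead']
    have h3 : ((step δ)^[t] c0).2.2.1 (ee.symm j) ≤ Nat.log 2 (2 * Nf n) + 1 := h2
    have e1 : 2 * Nf n = 2 ^ (C * s n + 1) := by
      rw [pow_succ, mul_comm]
    rw [e1, Nat.log_pow (by norm_num)] at h3
    have h4 : 1 ≤ s n := h1.trans (hs (Nat.zero_le n))
    have h5 : (C + 3) * s n = C * s n + 3 * s n := by ring
    omega

/-- A word generated by repeating a program whose registers are at most `2 ^ (C * s n)`. -/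
theorem gs_of_prog {E R : Type} [Finite E] [Finite R] [DecidableEq R] {d : ℕ}
    (body : Cmd E R (Fin d)) (w : ℕ → Fin d) (s : ℕ → ℕ) (hs : Monotone s) (h1 : 1 ≤ s 0)
    (C : ℕ) (Inv : ℕ → E × (R → ℕ) → Prop) (σ0 : E) (h0 : Inv 0 (σ0, fun _ => 0))
    (hstep : ∀ n c, Inv n c → ∃ c', Ev (2 ^ (C * s n)) body c [w n] c' ∧ Inv (n + 1) c') :
    GSpace s w := by
  classical
  choose! f hf using hstep
  let ss : ℕ → E × (R → ℕ) := fun n => Nat.rec (σ0, fun _ => 0) (fun n s => f n s) n
  have hss : ∀ n, Inv n (ss n) := by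
    intro n
    induction n with
    | zero => exact h0
    | succ n ih => exact (hf n _ ih).2
  let Z : Set (List (Cmd E R (Fin d)) × E) := {q | q.1 ∈ cls body []}
  have hfin : Z.Finite := by
    have : Z ⊆ (cls body []) ×ˢ (Set.univ : Set E) := fun q hq => ⟨hq, trivial⟩
    exact ((cls_finite body []).prod Set.finite_univ).subset this
  have hZfin : Finite Z := hfin
  let z0 : Z := ⟨([], σ0), tail_mem_cls body []⟩
  let ρ : List (Cmd E R (Fin d)) × E → Z := fun q => if h : q ∈ Z then ⟨q, h⟩ else z0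
  have hρ : ∀ q ∈ Z, (ρ q).1 = q := by
    intro q hq
    simp only [ρ, dif_pos hq]
  let P' : Z → Ins Z R (Fin d) := fun z => (pg body z.1).map ρ
  have hP : ∀ q ∈ Z, P' (ρ q) = (pg body q).map ρ := by
    intro q hq
    simp only [P', hρ q hq]
  have hZ : ∀ q ∈ Z, ∀ q' ∈ tg (pg body q), q' ∈ Z := by
    rintro ⟨L, σ⟩ hq q' hq'
    by_cases hL : L = []
    · subst hL
      have : q' = ([body], σ) := hq'
      rw [this]
      exact head_mem_cls body []
    · exact cls_closed body body [] L hq hL σ q' hq'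
  refine gs_of_cm P' w s hs h1 C (fun n => ρ ([], (ss n).1)) (fun n => (ss n).2) rfl ?_
  intro n
  have k1 := run_of_ev body (hf n _ (hss n)).1 [] ((List.range n).map w)
  have k0 : CStep (pg body) (2 ^ (C * s n)) (([], (ss n).1), (ss n).2, (List.range n).map w)
      (([body], (ss n).1), (ss n).2, (List.range n).map w) := CStep.jmp _ _ _ _ rfl
  have k2 := (Relation.ReflTransGen.single k0).trans k1
  exact (CS.transfer ρ Z hZ hP k2 (tail_mem_cls body [])).2

/-- States of the search. -/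
def St (n z f r : ℕ) : ℕ → ℕ := fun j =>
  if j = 0 then n else if j = 1 then z else if j = 2 then f else if j = 4 then r else 0

lemma St_0 (n z f r : ℕ) : St n z f r 0 = n := rfl
lemma St_1 (n z f r : ℕ) : St n z f r 1 = z := rfl
lemma St_2 (n z f r : ℕ) : St n z f r 2 = f := rfl
lemma St_3 (n z f r : ℕ) : St n z f r 3 = 0 := rfl
lemma St_4 (n z f r : ℕ) : St n z f r 4 = r := rfl
lemma St_5 (n z f r j : ℕ) (h : 5 ≤ j) : St n z f r j = 0 := by
  unfold St
  rw [if_neg (by omega), if_neg (by omega), if_neg (by omega), if_neg (by omega)]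

lemma St_u0 (n z f r x : ℕ) : Function.update (St n z f r) 0 x = St x z f r := by
  funext j
  unfold St
  simp only [Function.update_apply]
  split_ifs <;> first | rfl | omega

lemma St_u1 (n z f r x : ℕ) : Function.update (St n z f r) 1 x = St n x f r := by
  funext j
  unfold St
  simp only [Function.update_apply]
  split_ifs <;> first | rfl | omega

lemma St_u2 (n z f r x : ℕ) : Function.update (St n z f r) 2 x = St n z x r := by
  funext j
  unfold St
  simp only [Function.update_apply]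
  split_ifs <;> first | rfl | omega

lemma St_u4 (n z f r x : ℕ) : Function.update (St n z f r) 4 x = St n z f x := by
  funext j
  unfold St
  simp only [Function.update_apply]
  split_ifs <;> first | rfl | omega

section

variable {E A : Type}

/-- Evaluate the function. -/
def evl (P : ℕ → Cmd E ℕ A) : Cmd E ℕ A :=
  .sq (cp 0 3 5) (.sq (cp 1 4 5) (.sq (prg 3) (.sq (P 3) (clr 3))))

lemma ev_evl {P : ℕ → Cmd E ℕ A} {F : ℕ → ℕ} {e N : ℕ}
    (sF : ∀ (k : ℕ) (σ : E) (v : ℕ → ℕ), (∀ j, k < j → v j = 0) →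
      Ev ((v k + 2) ^ e) (P k) (σ, v) [] (σ, Function.update v (k + 1) (F (v k))))
    (n z f : ℕ) (σ : E) (hN : kp n z ≤ N) (hN2 : (kp n z + 2) ^ e ≤ N) :
    Ev N (evl P) (σ, St n z f 0) [] (σ, St n z f (F (kp n z))) := by
  have hl := left_le_kp n z
  have hr := right_le_kp n z
  set v0 := St n z f 0 with hv0
  have h1 := ev_cp (A := A) (N := N) (a := 0) (b := 3) (t := 5) (by omega) (by omega)
    (by omega) σ v0 (St_5 _ _ _ _ _ (by omega)) (by rw [hv0, St_0, St_3]; omega)
  rw [hv0, St_0, St_3, zero_add] at h1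
  set v1 := Function.update (St n z f 0) 3 n with hv1
  have a1 : v1 1 = z := by rw [hv1, Function.update_of_ne (by omega), St_1]
  have a3 : v1 3 = n := by rw [hv1, Function.update_self]
  have a4 : ∀ j, 3 < j → v1 j = 0 := by
    intro j hj
    rw [hv1, Function.update_of_ne (by omega)]
    by_cases h4 : j = 4
    · rw [h4]; rfl
    · exact St_5 _ _ _ _ _ (by omega)
  have h2 := ev_cp (A := A) (N := N) (a := 1) (b := 4) (t := 5) (by omega) (by omega)
    (by omega) σ v1 (a4 _ (by omega)) (by rw [a1, a4 _ (by omega)]; omega)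
  rw [a1, a4 4 (by omega), zero_add] at h2
  set v2 := Function.update v1 4 z with hv2
  have b3 : v2 3 = n := by rw [hv2, Function.update_of_ne (by omega), a3]
  have b4 : v2 (3 + 1) = z := by
    show v2 4 = z
    rw [hv2, Function.update_self]
  have b5 : ∀ j, 3 + 1 < j → v2 j = 0 := by
    intro j hj
    rw [hv2, Function.update_of_ne (by omega), a4 j (by omega)]
  have h3 := ev_prg (A := A) (N := N) 3 σ v2 b5 (by rw [b3, b4]; exact hN)
  rw [b3, b4] at h3
  set v3 := Function.update (Function.update v2 (3 + 1) 0) 3 (kp n z) with hv3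
  have c3 : v3 3 = kp n z := by rw [hv3, Function.update_self]
  have c4 : ∀ j, 3 < j → v3 j = 0 := by
    intro j hj
    rw [hv3, Function.update_of_ne (by omega)]
    by_cases h4 : j = 4
    · rw [h4, Function.update_self]
    · rw [Function.update_of_ne (by omega), b5 j (by omega)]
  have h4 := evm (N' := N) (sF 3 σ v3 c4) (by rw [c3]; exact hN2)
  rw [c3] at h4
  set v4 := Function.update v3 (3 + 1) (F (kp n z)) with hv4
  have h5 := ev_cl (A := A) (N := N) 3 σ v4
  have ee : Function.update v4 3 0 = St n z f (F (kp n z)) := by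
    funext j
    by_cases h3 : j = 3
    · rw [h3, Function.update_self]; rfl
    · rw [Function.update_of_ne h3]
      by_cases h4 : j = 4
      · rw [h4, hv4, Function.update_self, St_4]
      · rw [hv4, Function.update_of_ne (by omega), hv3, Function.update_of_ne h3,
          Function.update_of_ne (by omega), hv2, Function.update_of_ne h4, hv1,
          Function.update_of_ne h3]
        unfold St
        rw [if_neg h4, if_neg h4]
  rw [ee] at h5
  exact Ev.sq0 h1 (Ev.sq0 h2 (Ev.sq0 h3 (Ev.sq0 h4 h5)))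

lemma blw_evl {P : ℕ → Cmd E ℕ A} {w : ℕ} (hP : ∀ k, Blw (k + w) (P k)) :
    Blw (w + 7) (evl P) :=
  ⟨by simp only [Blw, cp, mv]; omega, by simp only [Blw, cp, mv]; omega,
    (blw_prg 3).mono (by omega), (hP 3).mono (by omega), by simp only [Blw, clr]; omega⟩

end

/-- The letter after. -/
def nxt {d : ℕ} (σ : Fin d) : Fin d := if h : (σ : ℕ) + 1 < d then ⟨(σ : ℕ) + 1, h⟩ else σ

lemma nxt_iter {d : ℕ} (hd : 0 < d) (i : ℕ) (h : i < d) :
    nxt^[i] (⟨0, hd⟩ : Fin d) = ⟨i, h⟩ := by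
  induction i with
  | zero => rfl
  | succ i ih =>
    rw [Function.iterate_succ_apply', ih (by omega)]
    unfold nxt
    rw [dif_pos h]

/-- The program. -/
def mainp {d : ℕ} (hd : 0 < d) (P : ℕ → Cmd (Fin d) ℕ (Fin d)) : Cmd (Fin d) ℕ (Fin d) :=
  .sq (.inc 2) (.sq (.wh 2 (.sq (evl P) (.ifz 4 (.inc 1) (.dec 2)))) (.sq (clr 1)
    (.sq (.act fun _ => ⟨0, hd⟩) (.sq (.dec 4) (.sq (.wh 4 (.sq (.dec 4) (.act nxt)))
      (.sq (.out _root_.id) (.inc 0)))))))

/-- A word whose letters are found by an unbounded search with a function computed in linear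
space. -/
theorem gs_of_E2 {d : ℕ} (w : ℕ → Fin d) (F : ℕ → ℕ) (hF : E2 F) (s : ℕ → ℕ)
    (hs : Monotone s) (hl : ∀ n, Nat.log 2 n + 1 ≤ s n) (C : ℕ)
    (h1 : ∀ n z, F (kp n z) ≠ 0 → F (kp n z) = (w n : ℕ) + 1)
    (h2 : ∀ n, ∃ z, z ≤ 2 ^ (C * s n) ∧ F (kp n z) ≠ 0) : GSpace s w := by
  classical
  have hd : 0 < d := (w 0).pos
  obtain ⟨P, wd, e, hP, bF, sF⟩ := im_of_E2 (E := Fin d) (A := Fin d) hF
  have hs1 : ∀ n, 1 ≤ s n := fun n => (Nat.le_add_left 1 _).trans (hl n)
  have hbl : Blw (wd + 7) (mainp hd P) := by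
    refine ⟨by simp only [Blw]; omega, ⟨by omega, (blw_evl hP).mono (by omega), ?_⟩, ?_, trivial,
      by simp only [Blw]; omega, ?_, trivial, by simp only [Blw]; omega⟩
    · simp only [Blw]; omega
    · simp only [Blw, clr]; omega
    · simp only [Blw]
      exact ⟨by omega, by omega, trivial⟩
  set K := (2 * C + 10) * (e + 1) with hK
  refine gs_of_prog (rmap (rf (wd + 7)) (mainp hd P)) w s hs (hs1 0) K
    (fun n c => c.2 = fun i : Fin (wd + 7 + 1) => St n 0 0 0 (i : ℕ)) ⟨0, hd⟩ ?_ ?_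
  · funext i
    show 0 = St 0 0 0 0 i
    unfold St
    simp
  rintro n ⟨σ, v⟩ hv
  simp only at hv
  subst hv
  set N := 2 ^ (K * s n) with hN
  -- the least argument
  obtain ⟨z0, hz1, hz2, hz3⟩ : ∃ z0, z0 ≤ 2 ^ (C * s n) ∧ F (kp n z0) ≠ 0 ∧
      ∀ z < z0, F (kp n z) = 0 := by
    obtain ⟨z, h3, h4⟩ := h2 n
    refine ⟨Nat.find (h2 n), (Nat.find_spec (h2 n)).1, (Nat.find_spec (h2 n)).2, ?_⟩
    intro z' hz'
    by_contra hcon
    exact Nat.find_min (h2 n) hz' ⟨hz'.le.trans (Nat.find_spec (h2 n)).1, hcon⟩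
  -- bounds
  have hn : n + 1 ≤ 2 ^ s n := by
    have : n < 2 ^ (Nat.log 2 n + 1) := Nat.lt_pow_succ_log_self (by omega) _
    exact this.trans_le (Nat.pow_le_pow_right (by omega) (hl n))
  have hkp : ∀ z ≤ z0, kp n z + 2 ≤ 2 ^ ((2 * C + 8) * s n) := by
    intro z hz
    have k1 := kp_le n z
    have k2 : n + z + 1 ≤ 2 ^ ((C + 2) * s n) := by
      have k3 : (2 : ℕ) ^ ((C + 2) * s n) = 2 ^ (C * s n) * 2 ^ s n * 2 ^ s n := by
        rw [add_mul, pow_add, two_mul, pow_add]
        ring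
      have k4 : 1 ≤ 2 ^ (C * s n) := Nat.one_le_two_pow
      have k5 : 2 ≤ 2 ^ s n := by
        calc 2 = 2 ^ 1 := rfl
          _ ≤ 2 ^ s n := Nat.pow_le_pow_right (by omega) (hs1 n)
      have k6 : z ≤ 2 ^ (C * s n) := hz.trans hz1
      rw [k3]
      have k7 : 2 ^ (C * s n) * 2 ≤ 2 ^ (C * s n) * 2 ^ s n := Nat.mul_le_mul_left _ k5
      have k8 : n + 1 ≤ 2 ^ (C * s n) * 2 ^ s n := hn.trans (Nat.le_mul_of_pos_left _ (by omega))
      nlinarith
    calc kp n z + 2 ≤ (2 ^ ((C + 2) * s n)) ^ 2 + 2 := by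
          have := Nat.pow_le_pow_left k2 2
          omega
      _ ≤ 2 ^ ((2 * C + 8) * s n) := by
          rw [← pow_mul]
          have e1 : (2 * C + 8) * s n = (C + 2) * s n * 2 + 4 * s n := by ring
          rw [e1, pow_add]
          have k9 : 2 ^ 4 ≤ 2 ^ (4 * s n) := Nat.pow_le_pow_right (by omega) (by
            have := hs1 n
            omega)
          have k10 : 1 ≤ 2 ^ ((C + 2) * s n * 2) := Nat.one_le_two_pow
          nlinarith
  have hpK : ∀ a, a ≤ K → 2 ^ (a * s n) ≤ N := by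
    intro a ha
    exact Nat.pow_le_pow_right (by omega) (Nat.mul_le_mul_right _ ha)
  have hN1 : ∀ z ≤ z0, kp n z + 2 ≤ N := fun z hz => (hkp z hz).trans (hpK _ (by
    rw [hK]
    nlinarith))
  have hN2 : ∀ z ≤ z0, (kp n z + 2) ^ e ≤ N := by
    intro z hz
    calc (kp n z + 2) ^ e ≤ (2 ^ ((2 * C + 8) * s n)) ^ e := Nat.pow_le_pow_left (hkp z hz) e
      _ = 2 ^ ((2 * C + 8) * e * s n) := by
          rw [← pow_mul]
          ring_nf
      _ ≤ N := hpK _ (by rw [hK]; nlinarith)
  have hN3 : 1 ≤ N := Nat.one_le_two_pow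
  -- the run
  set R := F (kp n z0) with hR
  have hRw : R = (w n : ℕ) + 1 := h1 n z0 hz2
  have r1 : Ev (A := Fin d) N (.inc 2) (σ, St n 0 0 0) [] (σ, St n 0 1 0) := by
    have := Ev.inc (A := Fin d) (N := N) 2 σ (St n 0 0 0) (by rw [St_2]; omega)
    rw [St_2, St_u2] at this
    exact this
  let V : ℕ → ℕ → ℕ := fun i => if i = 0 then St n z0 0 R else St n (z0 + 1 - i) 1 0
  have r2 : Ev N (.wh 2 (.sq (evl P) (.ifz 4 (.inc 1) (.dec 2)))) (σ, V (z0 + 1)) []
      (σ, V 0) := by
    refine ev_loop V (z0 + 1) rfl ?_ ?_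
    · intro i _
      simp only [V]
      rw [if_neg (by omega), St_2]
      omega
    · intro i hi
      simp only [V]
      rw [if_neg (show i + 1 ≠ 0 by omega)]
      have q1 := ev_evl (N := N) sF n (z0 + 1 - (i + 1)) 1 σ
        (by have := hN1 (z0 + 1 - (i + 1)) (by omega); omega)
        (hN2 (z0 + 1 - (i + 1)) (by omega))
      refine Ev.sq0 q1 ?_
      by_cases hi0 : i = 0
      · subst hi0
        rw [if_pos rfl]
        have e1 : z0 + 1 - (0 + 1) = z0 := by omega
        rw [e1, ← hR]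
        refine Ev.ifz1 _ _ _ _ _ _ _ (by rw [St_4]; exact hz2) ?_
        have := Ev.dec (A := Fin d) (N := N) 2 σ (St n z0 1 R) (by rw [St_2]; omega)
        rw [St_2, St_u2] at this
        exact this
      · rw [if_neg hi0]
        have hz : F (kp n (z0 + 1 - (i + 1))) = 0 := hz3 _ (by omega)
        rw [hz]
        refine Ev.ifz0 _ _ _ _ _ _ _ (by rw [St_4]) ?_
        have := Ev.inc (A := Fin d) (N := N) 1 σ (St n (z0 + 1 - (i + 1)) 1 0) (by
          rw [St_1]
          have h5 := hN1 z0 le_rfl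
          have h6 := right_le_kp n z0
          omega)
        rw [St_1, St_u1] at this
        have e1 : z0 + 1 - (i + 1) + 1 = z0 + 1 - i := by omega
        rw [e1] at this
        exact this
  have eV : V (z0 + 1) = St n 0 1 0 := by
    simp only [V]
    rw [if_neg (by omega)]
    congr 1
    omega
  rw [eV] at r2
  have eV0 : V 0 = St n z0 0 R := rfl
  rw [eV0] at r2
  have r3 := ev_cl (A := Fin d) (N := N) 1 σ (St n z0 0 R)
  rw [St_u1] at r3
  have r4 := Ev.act (A := Fin d) (N := N) (fun _ : Fin d => (⟨0, hd⟩ : Fin d)) σ (St n 0 0 R)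
  have r5 := Ev.dec (A := Fin d) (N := N) 4 (⟨0, hd⟩ : Fin d) (St n 0 0 R) (by
    rw [St_4, hRw]
    omega)
  rw [St_4, St_u4, hRw, Nat.add_sub_cancel] at r5
  have r6 : ∀ i, (hi : i < d) → ∀ σ : Fin d, Ev (A := Fin d) N (.wh 4 (.sq (.dec 4) (.act nxt)))
      (σ, St n 0 0 i) [] (nxt^[i] σ, St n 0 0 0) := by
    intro i
    induction i with
    | zero => exact fun _ σ => Ev.wh0 _ _ _ _ rfl
    | succ i ih =>
      intro hi σ
      have q1 := Ev.dec (A := Fin d) (N := N) 4 σ (St n 0 0 (i + 1)) (by rw [St_4]; omega)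
      rw [St_4, St_u4, Nat.add_sub_cancel] at q1
      have q2 := Ev.act (A := Fin d) (N := N) nxt σ (St n 0 0 i)
      exact Ev.wh1' (by rw [St_4]; omega) (Ev.sq0 q1 q2) (ih (by omega) (nxt σ))
  have r6' := r6 (w n) (w n).2 ⟨0, hd⟩
  rw [nxt_iter hd _ (w n).2] at r6'
  have r7 := Ev.out (N := N) (_root_.id : Fin d → Fin d) (w n) (St n 0 0 0)
  have r8 := Ev.inc (A := Fin d) (N := N) 0 (w n) (St n 0 0 0) (by
    rw [St_0]
    calc n + 1 ≤ 2 ^ s n := hn
      _ = 2 ^ (1 * s n) := by rw [one_mul]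
      _ ≤ N := hpK 1 (by rw [hK]; nlinarith))
  rw [St_0, St_u0] at r8
  have r9 := Ev.sq _ _ _ _ _ _ _ r7 r8
  rw [hRw] at r2 r3 r4
  have r10 := Ev.sq _ _ _ _ _ _ _ r1 (Ev.sq _ _ _ _ _ _ _ r2 (Ev.sq _ _ _ _ _ _ _ r3
    (Ev.sq _ _ _ _ _ _ _ r4 (Ev.sq _ _ _ _ _ _ _ r5 (Ev.sq _ _ _ _ _ _ _ r6' r9)))))
  have r11 := ev_fin r10 hbl
  exact ⟨_, r11, rfl⟩

end Pool.Agent.W_5d512e_h57
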