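import Pool.Agent.W_5d512e_h57.Pair

/-!
# Functions computed in linear space, on tuples of numbers
-/

set_option autoImplicit false

namespace Pool.Agent.W_5d512e_h57

/-- Cantor pairing as an equivalence. -/
def kpE : ℕ × ℕ ≃ ℕ where
  toFun x := kp x.1 x.2
  invFun n := ku n
  left_inv x := ku_kp x.1 x.2
  right_inv n := kp_ku n

/-- Coded types. -/
class Cd (α : Type) where
  /-- the coding -/
  eq : α ≃ ℕ

instance : Cd ℕ := ⟨Equiv.refl ℕ⟩

instance {α β : Type} [Cd α] [Cd β] : Cd (α × β) := ⟨(Equiv.prodCongr Cd.eq Cd.eq).trans kpE⟩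

/-- The code. -/
def en {α : Type} [Cd α] (a : α) : ℕ := Cd.eq a

lemma en_nat (n : ℕ) : en n = n := rfl

lemma en_pair {α β : Type} [Cd α] [Cd β] (x : α × β) : en x = kp (en x.1) (en x.2) := rfl

lemma en_symm {α : Type} [Cd α] (n : ℕ) : en (Cd.eq.symm n : α) = n := Cd.eq.apply_symm_apply n

/-- Functions computed in linear space. -/
@[fun_prop]
def LS {α β : Type} [Cd α] [Cd β] (f : α → β) : Prop := E2 (fun x => en (f (Cd.eq.symm x)))

section

variable {α β γ σ : Type} [Cd α] [Cd β] [Cd γ] [Cd σ]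

@[fun_prop]
lemma LS.id : LS (fun a : α => a) := by
  unfold LS
  simp only [en_symm]
  exact E2.id

lemma e2_const (n : ℕ) : E2 (fun _ => n) := by
  induction n with
  | zero => exact E2.zero
  | succ n ih => exact E2.comp (fun x => x + 1) (fun _ => n) E2.succ ih

@[fun_prop]
lemma LS.const (b : β) : LS (fun _ : α => b) := e2_const _

@[fun_prop]
lemma LS.comp {f : β → γ} {g : α → β} (hf : LS f) (hg : LS g) : LS (fun a => f (g a)) := by
  have h := E2.comp _ _ hf hg
  unfold en at h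
  simp only [Equiv.symm_apply_apply] at h
  exact h

@[fun_prop]
lemma LS.prodMk {f : α → β} {g : α → γ} (hf : LS f) (hg : LS g) : LS (fun a => (f a, g a)) :=
  E2.pair _ _ hf hg

@[fun_prop]
lemma LS.fst {f : α → β × γ} (hf : LS f) : LS (fun a => (f a).1) := by
  have h := E2.comp _ _ E2.fst hf
  simp only [en_pair, ku_kp] at h
  exact h

@[fun_prop]
lemma LS.snd {f : α → β × γ} (hf : LS f) : LS (fun a => (f a).2) := by
  have h := E2.comp _ _ E2.snd hf
  simp only [en_pair, ku_kp] at h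
  exact h

@[fun_prop]
lemma LS.succ {f : α → ℕ} (hf : LS f) : LS (fun a => f a + 1) :=
  E2.comp (fun x => x + 1) _ E2.succ hf

/-- Polynomial bounds. -/
def Bq (Q : α → ℕ → Prop) (s : α → ℕ → σ) : Prop :=
  ∃ c : ℕ, ∀ a i, Q a i → en (s a i) ≤ (en a + 2) ^ c

lemma LS.iter {f : α → σ} {n : α → ℕ} {g : α → σ → σ} (hf : LS f) (hn : LS n)
    (hg : LS (fun x : α × σ => g x.1 x.2)) (hb : Bq (fun a i => i ≤ n a)
      (fun a i => (g a)^[i] (f a))) : LS (fun a => (g a)^[n a] (f a)) := by
  obtain ⟨c, hc⟩ := hb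
  set G : ℕ → ℕ := fun y => en (g (Cd.eq.symm (ku y).1 : α) (Cd.eq.symm (ku y).2 : σ)) with hG
  have hG' : E2 G := hg
  have key : ∀ (a : α) (s : σ) (i : ℕ),
      (fun s => G (kp (en a) s))^[i] (en s) = en ((g a)^[i] s) := by
    intro a s i
    induction i with
    | zero => rfl
    | succ i ih =>
      rw [Function.iterate_succ_apply', Function.iterate_succ_apply', ih, hG]
      simp only [ku_kp]
      unfold en
      simp only [Equiv.symm_apply_apply]
  have h := E2.iter (fun x => en (f (Cd.eq.symm x : α))) (fun x => n (Cd.eq.symm x : α)) G hf hn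
    hG' c (by
      intro x i hi
      have k := key (Cd.eq.symm x) (f (Cd.eq.symm x)) i
      rw [en_symm] at k
      rw [k]
      have := hc (Cd.eq.symm x) i hi
      rw [en_symm] at this
      exact this)
  unfold LS
  have e : (fun x => (fun s => G (kp x s))^[n (Cd.eq.symm x : α)] (en (f (Cd.eq.symm x : α)))) =
      fun x => en ((g (Cd.eq.symm x : α))^[n (Cd.eq.symm x : α)] (f (Cd.eq.symm x : α))) := by
    funext x
    have k := key (Cd.eq.symm x) (f (Cd.eq.symm x)) (n (Cd.eq.symm x))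
    rw [en_symm] at k
    exact k
  rw [e] at h
  exact h

lemma LS.bound {f : α → β} (hf : LS f) : ∃ c : ℕ, ∀ a, en (f a) ≤ (en a + 2) ^ c := by
  obtain ⟨c, hc⟩ := E2.bound hf
  refine ⟨c, fun a => ?_⟩
  have := hc (en a)
  unfold en at this ⊢
  simp only [Equiv.symm_apply_apply] at this
  exact this

lemma Bq.pair {Q : α → ℕ → Prop} {s : α → ℕ → β × γ} (h1 : Bq Q (fun a i => (s a i).1))
    (h2 : Bq Q (fun a i => (s a i).2)) : Bq Q s := by
  obtain ⟨c1, h1⟩ := h1
  obtain ⟨c2, h2⟩ := h2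
  exact ⟨2 * (c1 + c2) + 4, fun a i h => kp_le_pow ((h1 a i h).trans (pow_le_pow2 (by omega)))
    ((h2 a i h).trans (pow_le_pow2 (by omega)))⟩

lemma Bq.of_le {Q : α → ℕ → Prop} {s : α → ℕ → ℕ} {f : α → ℕ} (hf : LS f)
    (h : ∀ a i, Q a i → s a i ≤ f a) : Bq Q s := by
  obtain ⟨c, hc⟩ := hf.bound
  exact ⟨c, fun a i hq => (h a i hq).trans (hc a)⟩

/-! ### Arithmetic -/

lemma iter_succ (n k : ℕ) : (fun s : ℕ => s + 1)^[k] n = n + k := by
  induction k with
  | zero => rfl
  | succ k ih =>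
    rw [Function.iterate_succ_apply', ih]
    rfl

@[fun_prop]
lemma LS.add {f g : α → ℕ} (hf : LS f) (hg : LS g) : LS (fun a => f a + g a) := by
  have h := LS.iter (g := fun (_ : α) (s : ℕ) => s + 1) hf hg (by fun_prop) (by
    obtain ⟨c1, h1⟩ := hf.bound
    obtain ⟨c2, h2⟩ := hg.bound
    refine ⟨c1 + c2 + 1, fun a i hi => ?_⟩
    simp only [iter_succ]
    have k1 : f a ≤ (en a + 2) ^ (c1 + c2) := (h1 a).trans (pow_le_pow2 (by omega))
    have k2 : g a ≤ (en a + 2) ^ (c1 + c2) := (h2 a).trans (pow_le_pow2 (by omega))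
    have k3 : (en a + 2) ^ (c1 + c2 + 1) = (en a + 2) ^ (c1 + c2) * (en a + 2) := pow_succ _ _
    rw [k3]
    show f a + i ≤ _
    nlinarith)
  simp only [iter_succ] at h
  exact h

lemma iter_add (n m k : ℕ) : (fun s : ℕ => s + m)^[k] n = n + m * k := by
  induction k with
  | zero => rfl
  | succ k ih =>
    rw [Function.iterate_succ_apply', ih, Nat.mul_succ]
    omega

@[fun_prop]
lemma LS.mul {f g : α → ℕ} (hf : LS f) (hg : LS g) : LS (fun a => f a * g a) := by
  have h := LS.iter (f := fun _ : α => 0) (g := fun (a : α) (s : ℕ) => s + f a)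
    (by fun_prop) hg (by fun_prop) (by
    obtain ⟨c1, h1⟩ := hf.bound
    obtain ⟨c2, h2⟩ := hg.bound
    refine ⟨c1 + c2, fun a i hi => ?_⟩
    simp only [iter_add, zero_add]
    rw [pow_add]
    exact Nat.mul_le_mul (h1 a) (hi.trans (h2 a)))
  simp only [iter_add, zero_add] at h
  exact h

lemma iter_pred (k : ℕ) : (fun s : ℕ × ℕ => (s.2, s.2 + 1))^[k] (0, 0) = (k - 1, k) := by
  induction k with
  | zero => rfl
  | succ k ih =>
    rw [Function.iterate_succ_apply', ih]
    rfl

lemma LS.pred {f : α → ℕ} (hf : LS f) : LS (fun a => f a - 1) := by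
  have h := LS.iter (f := fun _ : α => ((0 : ℕ), (0 : ℕ)))
    (g := fun (_ : α) (s : ℕ × ℕ) => (s.2, s.2 + 1)) (by fun_prop) hf (by fun_prop)
    (Bq.pair (Bq.of_le hf (fun a i hi => by simp only [iter_pred]; omega))
      (Bq.of_le hf (fun a i hi => by simp only [iter_pred]; omega)))
  simp only [iter_pred] at h
  exact LS.fst h

lemma iter_sub (n k : ℕ) : (fun s : ℕ => s - 1)^[k] n = n - k := by
  induction k with
  | zero => rfl
  | succ k ih =>
    rw [Function.iterate_succ_apply', ih]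
    omega

@[fun_prop]
lemma LS.sub {f g : α → ℕ} (hf : LS f) (hg : LS g) : LS (fun a => f a - g a) := by
  have h := LS.iter (g := fun (_ : α) (s : ℕ) => s - 1) hf hg
    (LS.pred (f := fun x : α × ℕ => x.2) (by fun_prop))
    (Bq.of_le hf (fun a i hi => by simp only [iter_sub]; omega))
  simp only [iter_sub] at h
  exact h

/-! ### Conditions -/

/-- Conditions decided in linear space. -/
@[fun_prop]
def LSp (p : α → Prop) : Prop := ∃ f : α → ℕ, LS f ∧ ∀ a, p a ↔ f a ≠ 0

omit [Cd σ] in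
lemma iter_const (x y : σ) (k : ℕ) : (fun _ : σ => y)^[k] x = if k = 0 then x else y := by
  cases k with
  | zero => rfl
  | succ k =>
    rw [Function.iterate_succ_apply', if_neg (by omega)]

@[fun_prop]
lemma LS.ite {p : α → Prop} [DecidablePred p] {f g : α → β} (hp : LSp p) (hf : LS f)
    (hg : LS g) : LS (fun a => if p a then f a else g a) := by
  obtain ⟨c, hc, hpc⟩ := hp
  have h := LS.iter (n := c) (f := g) (g := fun (a : α) (_ : β) => f a)
    hg hc (LS.comp (g := fun x : α × β => x.1) hf (by fun_prop)) (by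
      obtain ⟨c1, h1⟩ := hf.bound
      obtain ⟨c2, h2⟩ := hg.bound
      refine ⟨c1 + c2, fun a i hi => ?_⟩
      simp only [iter_const]
      split_ifs
      · exact (h2 a).trans (pow_le_pow2 (by omega))
      · exact (h1 a).trans (pow_le_pow2 (by omega)))
  simp only [iter_const] at h
  have e : (fun a => if p a then f a else g a) = fun a => if c a = 0 then g a else f a := by
    funext a
    by_cases hp : p a
    · rw [if_pos hp, if_neg ((hpc a).1 hp)]
    · rw [if_neg hp, if_pos (by_contra fun hh => hp ((hpc a).2 hh))]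
  rw [e]
  exact h

@[fun_prop]
lemma LSp.eq {f g : α → ℕ} (hf : LS f) (hg : LS g) : LSp (fun a => f a = g a) :=
  ⟨fun a => 1 - ((f a - g a) + (g a - f a)), by fun_prop, fun a => by beta_reduce; omega⟩

@[fun_prop]
lemma LSp.ne {f g : α → ℕ} (hf : LS f) (hg : LS g) : LSp (fun a => f a ≠ g a) :=
  ⟨fun a => (f a - g a) + (g a - f a), by fun_prop, fun a => by beta_reduce; omega⟩

@[fun_prop]
lemma LSp.le {f g : α → ℕ} (hf : LS f) (hg : LS g) : LSp (fun a => f a ≤ g a) :=
  ⟨fun a => 1 - (f a - g a), by fun_prop, fun a => by beta_reduce; omega⟩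

@[fun_prop]
lemma LSp.lt {f g : α → ℕ} (hf : LS f) (hg : LS g) : LSp (fun a => f a < g a) :=
  ⟨fun a => g a - f a, by fun_prop, fun a => by beta_reduce; omega⟩

@[fun_prop]
lemma LSp.not {p : α → Prop} (hp : LSp p) : LSp (fun a => ¬ p a) := by
  obtain ⟨c, hc, hpc⟩ := hp
  exact ⟨fun a => 1 - c a, by fun_prop, fun a => by beta_reduce; rw [hpc]; omega⟩

@[fun_prop]
lemma LSp.and {p q : α → Prop} (hp : LSp p) (hq : LSp q) : LSp (fun a => p a ∧ q a) := by
  obtain ⟨c, hc, hpc⟩ := hp
  obtain ⟨c', hc', hpc'⟩ := hq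
  refine ⟨fun a => c a * c' a, by fun_prop, fun a => ?_⟩
  beta_reduce
  rw [hpc, hpc', Nat.mul_ne_zero_iff]

@[fun_prop]
lemma LSp.or {p q : α → Prop} (hp : LSp p) (hq : LSp q) : LSp (fun a => p a ∨ q a) := by
  obtain ⟨c, hc, hpc⟩ := hp
  obtain ⟨c', hc', hpc'⟩ := hq
  refine ⟨fun a => c a + c' a, by fun_prop, fun a => ?_⟩
  beta_reduce
  rw [hpc, hpc']
  omega

/-! ### Loops -/

/-- Repeat with a counter. -/
def lp {σ : Type} (g : ℕ → σ → σ) (s : σ) : ℕ → σ
  | 0 => s
  | n + 1 => g n (lp g s n)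

omit [Cd σ] in
lemma lp_iter (g : ℕ → σ → σ) (s : σ) (n : ℕ) :
    (fun x : ℕ × σ => (x.1 + 1, g x.1 x.2))^[n] (0, s) = (n, lp g s n) := by
  induction n with
  | zero => rfl
  | succ n ih =>
    rw [Function.iterate_succ_apply', ih]
    rfl

lemma ls_lp {f : α → σ} {n : α → ℕ} {g : α → ℕ → σ → σ} (hf : LS f) (hn : LS n)
    (hg : LS (fun x : α × ℕ × σ => g x.1 x.2.1 x.2.2))
    (hb : Bq (fun a i => i ≤ n a) (fun a i => lp (g a) (f a) i)) :
    LS (fun a => lp (g a) (f a) (n a)) := by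
  have h := LS.iter (f := fun a => ((0 : ℕ), f a)) (n := n)
    (g := fun (a : α) (x : ℕ × σ) => (x.1 + 1, g a x.1 x.2)) (by fun_prop) hn (by fun_prop)
    (Bq.pair (Bq.of_le hn (fun a i hi => by simp only [lp_iter]; exact hi))
      (by simp only [lp_iter]; exact hb))
  simp only [lp_iter] at h
  exact LS.snd h

/-- Division with remainder by repetition. -/
lemma dm_step (m n : ℕ) : (fun s : ℕ × ℕ => if s.2 + 1 = m then (s.1 + 1, 0) else (s.1, s.2 + 1))^[n]
    (0, 0) = (n / m, n % m) := by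
  induction n with
  | zero => simp
  | succ n ih =>
    rw [Function.iterate_succ_apply', ih]
    simp only
    rcases Nat.eq_zero_or_pos m with hm | hm
    · subst hm
      simp
    · have h1 := Nat.div_add_mod n m
      have h2 := Nat.mod_lt n hm
      split_ifs with h
      · have e : n + 1 = m * (n / m + 1) := by
          rw [Nat.mul_add, mul_one]
          omega
        rw [e, Nat.mul_div_cancel_left _ hm, Nat.mul_mod_right]
      · have e : n + 1 = m * (n / m) + (n % m + 1) := by omega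
        have h3 : n % m + 1 < m := by omega
        rw [e, Nat.mul_add_div hm, Nat.div_eq_of_lt h3, Nat.mul_add_mod, Nat.mod_eq_of_lt h3,
          add_zero]

lemma LS.divmod {f g : α → ℕ} (hf : LS f) (hg : LS g) :
    LS (fun a => (f a / g a, f a % g a)) := by
  have h := LS.iter (f := fun _ : α => ((0 : ℕ), (0 : ℕ))) (n := f)
    (g := fun (a : α) (s : ℕ × ℕ) => if s.2 + 1 = g a then (s.1 + 1, 0) else (s.1, s.2 + 1))
    (by fun_prop) hf (by fun_prop)
    (Bq.pair (Bq.of_le hf (fun a i hi => by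
        simp only [dm_step]
        exact (Nat.div_le_self _ _).trans hi))
      (Bq.of_le hf (fun a i hi => by
        simp only [dm_step]
        exact (Nat.mod_le _ _).trans hi)))
  simp only [dm_step] at h
  exact h

@[fun_prop]
lemma LS.div {f g : α → ℕ} (hf : LS f) (hg : LS g) : LS (fun a => f a / g a) :=
  LS.fst (LS.divmod hf hg)

@[fun_prop]
lemma LS.mod {f g : α → ℕ} (hf : LS f) (hg : LS g) : LS (fun a => f a % g a) :=
  LS.snd (LS.divmod hf hg)

@[fun_prop]
lemma ls_min {f g : α → ℕ} (hf : LS f) (hg : LS g) : LS (fun a => min (f a) (g a)) := by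
  have e : (fun a => min (f a) (g a)) = fun a => if f a ≤ g a then f a else g a := by
    funext a
    rw [min_def]
  rw [e]
  fun_prop

/-- Cut off at `z`. -/
def cut (z x : ℕ) : ℕ := if x ≤ z then x else 0

lemma cut_le (z x : ℕ) : cut z x ≤ z := by
  unfold cut
  split_ifs <;> omega

lemma cut_of_le {z x : ℕ} (h : x ≤ z) : cut z x = x := if_pos h

@[fun_prop]
lemma ls_cut {f g : α → ℕ} (hf : LS f) (hg : LS g) : LS (fun a => cut (f a) (g a)) := by
  unfold cut
  fun_prop

/-- Powers, as long as they are at most `z`. -/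
def pw (z p k : ℕ) : ℕ := lp (fun _ y => cut z (y * p)) (cut z 1) k

lemma pw_le (z p k : ℕ) : pw z p k ≤ z := by
  unfold pw
  cases k with
  | zero => exact cut_le _ _
  | succ k => exact cut_le _ _

@[fun_prop]
lemma ls_pw {f g h : α → ℕ} (hf : LS f) (hg : LS g) (hh : LS h) :
    LS (fun a => pw (f a) (g a) (h a)) := by
  unfold pw
  exact ls_lp (f := fun a => cut (f a) 1) (n := h) (g := fun (a : α) _ y => cut (f a) (y * g a))
    (by fun_prop) hh (by fun_prop) (Bq.of_le hf (fun a i _ => pw_le (f a) (g a) i))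

lemma pw_eq {z p k : ℕ} (hp : 1 ≤ p) (h : p ^ k ≤ z) : pw z p k = p ^ k := by
  induction k with
  | zero =>
    rw [pow_zero] at h ⊢
    exact cut_of_le h
  | succ k ih =>
    have h1 : p ^ k ≤ p ^ (k + 1) := Nat.pow_le_pow_right hp (by omega)
    have h2 := ih (h1.trans h)
    unfold pw at h2 ⊢
    rw [lp, h2]
    exact cut_of_le (by rw [← pow_succ]; exact h)

end

example : LS (fun x : ℕ × ℕ × ℕ => (x.1 + 1 * x.1, if x.1 ≤ x.2.1 ∧ x.1 = 0 then x.2.2 else 0,
    x.1 % 5)) := by fun_prop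

end Pool.Agent.W_5d512e_h57
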