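import Pool.Agent.W_5d512e_h57.Que
import Pool.Agent.W_5d512e_h57.Corr

/-!
# The nodes of the recursion
-/

set_option autoImplicit false

namespace Pool.Agent.W_5d512e_h57

open Pool.Agent.W_MP_5d512e_h33 Pool.Agent.W_MP_5d512e_dic

section

variable {p d : ℕ} (Y : Sys (Fin p) (Fin d)) (T : Tab (δo Y.δ Y.q0) (outo Y.out) Y.q0) (m : ℕ)

/-- Base of the digits. -/
def qq (d n : ℕ) : ℕ := (n + d + 2) * (n + d + 2)

/-- Number of letters written before the last letter of the window. -/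
def cnt1 (z n c E : ℕ) : ℕ := (dfs T z c (qq d n) E 1 0 0 (m * c)).2.2.1

/-- Number of letters written. -/
def cnt0 (z n c E : ℕ) : ℕ := (dfs T z c (qq d n) E 0 0 0 (m * c + 1)).2.2.1

/-- Length of the image of the last letter of the window, capped. -/
def lbn (z n c E : ℕ) : ℕ := min (n + 1) (cnt0 Y T m z n c E - cnt1 Y T m z n c E)

/-- Letters of the image. -/
def ltr (z n c E idx : ℕ) : ℕ := (dfs T z c (qq d n) E 0 idx 0 (m * c + 1)).2.2.2

/-- Contributions. -/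
def hh (z n c v t E : ℕ) : ℕ :=
  if v % 3 = 0 then
    if lf Y z c (v / 3) ≠ 0 then (if t = 0 then lf Y z c (v / 3) else 0)
    else if t < v / 3 ∧ (lf Y z c t ≠ 0 ∨ t + c * c ≤ v / 3) ∧
      dgt z (qq d n) E (m * c + 1) ≤ v / 3 ∧
      v / 3 < dgt z (qq d n) E (m * c + 1) + lbn Y T m z n c E then
      ltr Y T m z n c E (cnt1 Y T m z n c E + (v / 3 - dgt z (qq d n) E (m * c + 1)))
    else 0
  else if v % 3 = 1 then
    if t < v / 3 then lbn Y T m z n c E
    else if n + 1 ≤ t ∧ t ≤ n + 1 + m * c then dgt z (qq d n) E (t - (n + 1)) else 0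
  else if t ≤ m * c ∧ t ≤ v / 3 then dgt z (qq d n) E 0 else 0

/-- Targets. -/
def tgg (n c v t : ℕ) : ℕ :=
  if v % 3 = 1 then
    if t < v / 3 then m * c + 1 else if n + 1 ≤ t ∧ t ≤ n + 1 + m * c then t - (n + 1) else 0
  else if v % 3 = 2 ∧ t ≤ m * c then t else 0

/-- Children. -/
def chh (z c v t : ℕ) : ℕ :=
  cut z (if v % 3 = 0 then (if lf Y z c (v / 3) ≠ 0 then v else 3 * t + 1)
    else if v % 3 = 1 then (if t < v / 3 then 3 * t + 2 else v + 1) else 3 * (v / 3 - t))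

section

variable {α : Type} [Cd α]

@[fun_prop]
lemma ls_qq {f : α → ℕ} (hf : LS f) : LS (fun a => qq d (f a)) := by
  unfold qq
  fun_prop

@[fun_prop]
lemma ls_cnt1 {f1 f2 f3 f4 : α → ℕ} (h1 : LS f1) (h2 : LS f2) (h3 : LS f3) (h4 : LS f4) :
    LS (fun a => cnt1 Y T m (f1 a) (f2 a) (f3 a) (f4 a)) := by
  unfold cnt1
  fun_prop

@[fun_prop]
lemma ls_cnt0 {f1 f2 f3 f4 : α → ℕ} (h1 : LS f1) (h2 : LS f2) (h3 : LS f3) (h4 : LS f4) :
    LS (fun a => cnt0 Y T m (f1 a) (f2 a) (f3 a) (f4 a)) := by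
  unfold cnt0
  fun_prop

@[fun_prop]
lemma ls_lbn {f1 f2 f3 f4 : α → ℕ} (h1 : LS f1) (h2 : LS f2) (h3 : LS f3) (h4 : LS f4) :
    LS (fun a => lbn Y T m (f1 a) (f2 a) (f3 a) (f4 a)) := by
  unfold lbn
  exact ls_min (by fun_prop) (by fun_prop)

@[fun_prop]
lemma ls_ltr {f1 f2 f3 f4 f5 : α → ℕ} (h1 : LS f1) (h2 : LS f2) (h3 : LS f3) (h4 : LS f4)
    (h5 : LS f5) : LS (fun a => ltr Y T m (f1 a) (f2 a) (f3 a) (f4 a) (f5 a)) := by
  unfold ltr
  fun_prop

@[fun_prop]
lemma ls_hh {f1 f2 f3 f4 f5 f6 : α → ℕ} (h1 : LS f1) (h2 : LS f2) (h3 : LS f3) (h4 : LS f4)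
    (h5 : LS f5) (h6 : LS f6) :
    LS (fun a => hh Y T m (f1 a) (f2 a) (f3 a) (f4 a) (f5 a) (f6 a)) := by
  unfold hh
  fun_prop

@[fun_prop]
lemma ls_tgg {f1 f2 f3 f4 : α → ℕ} (h1 : LS f1) (h2 : LS f2) (h3 : LS f3) (h4 : LS f4) :
    LS (fun a => tgg m (f1 a) (f2 a) (f3 a) (f4 a)) := by
  unfold tgg
  fun_prop

@[fun_prop]
lemma ls_chh {f1 f2 f3 f4 : α → ℕ} (h1 : LS f1) (h2 : LS f2) (h3 : LS f3) (h4 : LS f4) :
    LS (fun a => chh Y (f1 a) (f2 a) (f3 a) (f4 a)) := by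
  unfold chh
  fun_prop

end

lemma tgg_lt (n c v t : ℕ) : tgg m n c v t < m * c + 2 := by
  unfold tgg
  split_ifs <;> omega

lemma chh_le (z c v t : ℕ) : chh Y z c v t ≤ z := cut_le _ _

/-! ### Values -/

/-- Iterated positions. -/
noncomputable def Fo (b : ℕ) : ℕ → ℕ := Y.fo^[b]

/-- Windows. -/
noncomputable def wl (y i : ℕ) : ℕ := if i ≤ y then (Y.lim (y - i) : ℕ) + 1 else 0

/-- Positions, capped. -/
noncomputable def La (n c y : ℕ) : ℕ :=
  ∑ i ∈ Finset.range y, min (n + 1) (Fo Y c (i + 1) - Fo Y c i)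

/-- Values of the nodes. -/
noncomputable def vv (n c v j : ℕ) : ℕ :=
  if v % 3 = 0 then (if j = 0 then (Y.lim (v / 3) : ℕ) + 1 else 0)
  else if j ≤ m * c then wl Y (v / 3) j
  else if v % 3 = 1 ∧ j = m * c + 1 then La Y n c (v / 3) else 0

lemma Fo_zero (b : ℕ) : Fo Y b 0 = 0 := by
  unfold Fo
  induction b with
  | zero => rfl
  | succ b ih => rw [Function.iterate_succ_apply, Sys.fo_zero, ih]

lemma Fo_mono (b : ℕ) : Monotone (Fo Y b) := Y.fo_mono.iterate b

lemma Fo_ge (b y : ℕ) (hy : 1 ≤ y) : y + b ≤ Fo Y b y := by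
  unfold Fo
  induction b with
  | zero => exact le_rfl
  | succ b ih =>
    rw [Function.iterate_succ_apply']
    have := Y.fo_ge (Y.fo^[b] y) (by omega)
    omega

lemma Fo_far {σ y : ℕ} (h : ¬ Lf Y σ y) (b : ℕ) : y + b * σ ≤ Fo Y b y := by
  unfold Fo
  induction b with
  | zero => simp
  | succ b ih =>
    rw [Function.iterate_succ_apply']
    have h2 : ¬ Lf Y σ (Y.fo^[b] y) := fun h' => h (Lf_mono Y (by omega) h')
    have h3 := fo_far Y h2
    rw [Nat.add_mul]
    omega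

lemma padS_F (Z b y : ℕ) : (padS Y Z).F b (Z + y) = Z + Fo Y b y := by
  unfold Self.F Fo
  induction b with
  | zero => rfl
  | succ b ih =>
    rw [Function.iterate_succ_apply', Function.iterate_succ_apply', ih]
    show (if Z + Y.fo^[b] y < Z then Z + Y.fo^[b] y else Z + Y.fo (Z + Y.fo^[b] y - Z)) = _
    rw [if_neg (by omega)]
    congr 2
    omega

lemma La_spec (n c y : ℕ) :
    La Y n c y ≤ Fo Y c y ∧ (La Y n c y = Fo Y c y ∨ n + 1 ≤ La Y n c y) := by
  unfold La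
  induction y with
  | zero => simp [Fo_zero]
  | succ y ih =>
    rw [Finset.sum_range_succ]
    have h1 := Fo_mono Y c (show y ≤ y + 1 by omega)
    obtain ⟨i1, i2⟩ := ih
    constructor
    · omega
    · rcases i2 with i2 | i2
      · rcases le_total (n + 1) (Fo Y c (y + 1) - Fo Y c y) with h | h
        · right
          rw [min_eq_left h]
          omega
        · left
          rw [min_eq_right h]
          omega
      · right
        omega

lemma La_iff {n c x t : ℕ} (hx : x ≤ n) :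
    (La Y n c t ≤ x ∧ x < La Y n c t + min (n + 1) (Fo Y c (t + 1) - Fo Y c t)) ↔
      (Fo Y c t ≤ x ∧ x < Fo Y c (t + 1)) := by
  obtain ⟨h1, h2⟩ := La_spec Y n c t
  have h3 := Fo_mono Y c (show t ≤ t + 1 by omega)
  constructor
  · rintro ⟨h4, h5⟩
    have h6 : La Y n c t = Fo Y c t := by
      rcases h2 with h2 | h2
      · exact h2
      · omega
    exact ⟨by omega, by omega⟩
  · rintro ⟨h4, h5⟩
    have h6 : La Y n c t = Fo Y c t := by
      rcases h2 with h2 | h2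
      · exact h2
      · omega
    exact ⟨by omega, by omega⟩

lemma La_le (n c y : ℕ) : La Y n c y ≤ y * (n + 1) := by
  unfold La
  refine (Finset.sum_le_card_nsmul _ _ (n + 1) fun i _ => min_le_left _ _).trans ?_
  rw [Finset.card_range, smul_eq_mul]

lemma wl_le (y i : ℕ) : wl Y y i ≤ d := by
  unfold wl
  split_ifs
  · exact (Y.lim _).2
  · exact Nat.zero_le _

lemma vv_lt {n c v : ℕ} (hv : v / 3 ≤ n) (j : ℕ) : vv Y m n c v j < qq d n := by
  have hq : n * (n + 1) + d < qq d n := by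
    unfold qq
    nlinarith
  have h1 : La Y n c (v / 3) ≤ n * (n + 1) :=
    (La_le Y n c (v / 3)).trans (Nat.mul_le_mul_right _ hv)
  unfold vv
  split_ifs
  · have := (Y.lim (v / 3)).2
    omega
  · omega
  · have := wl_le Y (v / 3) j
    omega
  · omega
  · omega

/-- The parent after `c` steps. -/
lemma exists_par (c x : ℕ) (hc : 1 ≤ c) (hx : 1 ≤ x) :
    ∃ t, t < x ∧ Fo Y c t ≤ x ∧ x < Fo Y c (t + 1) ∧
      ∀ t', Fo Y c t' ≤ x → x < Fo Y c (t' + 1) → t' = t := by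
  have hex : ∃ t, x < Fo Y c (t + 1) := ⟨x, by
    have := Fo_ge Y c (x + 1) (by omega)
    omega⟩
  classical
  set t := Nat.find hex with ht
  have h1 : x < Fo Y c (t + 1) := Nat.find_spec hex
  have h2 : Fo Y c t ≤ x := by
    rcases Nat.eq_zero_or_pos t with h0 | h0
    · rw [h0, Fo_zero]
      exact Nat.zero_le _
    · have := Nat.find_min hex (m := t - 1) (by omega)
      rw [show t - 1 + 1 = t by omega] at this
      omega
  have h3 : t < x := by
    rcases Nat.eq_zero_or_pos t with h0 | h0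
    · omega
    · have := Fo_ge Y c t h0
      omega
  refine ⟨t, h3, h2, h1, ?_⟩
  intro t' h4 h5
  rcases Nat.lt_trichotomy t' t with h | h | h
  · have := Fo_mono Y c (show t' + 1 ≤ t by omega)
    omega
  · exact h
  · have := Fo_mono Y c (show t + 1 ≤ t' by omega)
    omega

end

end Pool.Agent.W_5d512e_h57
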