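import Pool.Agent.W_5d512e_h57.Alg
import Pool.Agent.W_5d512e_h57.Flat

/-!
# Numerical evaluation of the extensions
-/

set_option autoImplicit false

namespace Pool.Agent.W_5d512e_h57

/-- Remainder. -/
def md (p x : ℕ) : ℕ := if p = 0 then 0 else x % p

lemma md_le (p x : ℕ) : md p x ≤ p := by
  unfold md
  split_ifs with h
  · exact Nat.zero_le _
  · exact (Nat.mod_lt _ (Nat.pos_of_ne_zero h)).le

lemma md_lt {p : ℕ} (hp : 0 < p) (x : ℕ) : md p x < p := by
  unfold md
  rw [if_neg (by omega)]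
  exact Nat.mod_lt _ hp

lemma md_cast {p : ℕ} (hp : 0 < p) (x : ℕ) : ((md p x : ℕ) : ZMod p) = x := by
  unfold md
  rw [if_neg (by omega), ZMod.natCast_mod]

/-- Product of the differences. -/
def nnn (p q e x : ℕ) : ℕ :=
  lp (fun e' acc => if e' = e then acc else md p (acc * (x + (p - e')))) (md p 1) q

/-- Powers modulo `p`. -/
def pwm (p b k : ℕ) : ℕ := lp (fun _ acc => md p (acc * b)) (md p 1) k

/-- Interpolation basis. -/
def ddn (p q e x : ℕ) : ℕ := md p (nnn p q e x * pwm p (nnn p q e e) (p - 2))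

/-- Product over the digits. -/
def prn (z p q D E B : ℕ) : ℕ :=
  lp (fun j acc => md p (acc * ddn p q (dgt z q E j) (dgt z p B j))) (md p 1) D

/-- Value of the extension. -/
def phn (z p q D : ℕ) (hv : ℕ → ℕ) (B : ℕ) : ℕ :=
  lp (fun E acc => md p (acc + hv E * prn z p q D E B)) 0 (pw z q D)

/-- Multiply all digits. -/
def scl (z p D B l : ℕ) : ℕ := lp (fun i S => upd z p S i (md p (dgt z p S i * l))) B D

/-! ### Linear space -/

lemma nnn_le (p q e x : ℕ) : nnn p q e x ≤ p := by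
  unfold nnn
  apply lp_inv (P := fun y => y ≤ p) (md_le _ _)
  intro i _ s hs
  split_ifs
  · exact hs
  · exact md_le _ _

lemma pwm_le (p b k : ℕ) : pwm p b k ≤ p := by
  unfold pwm
  exact lp_inv (P := fun y => y ≤ p) (md_le _ _) (fun i _ s _ => md_le _ _)

lemma prn_le (z p q D E B : ℕ) : prn z p q D E B ≤ p := by
  unfold prn
  exact lp_inv (P := fun y => y ≤ p) (md_le _ _) (fun i _ s _ => md_le _ _)

lemma scl_le {z p D B l : ℕ} (hB : B ≤ z) : scl z p D B l ≤ z := by
  unfold scl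
  exact lp_inv (P := fun y => y ≤ z) hB (fun i _ s _ => upd_le _ _ _ _ _)

section

variable {α : Type} [Cd α]

@[fun_prop]
lemma ls_md {f1 f2 : α → ℕ} (h1 : LS f1) (h2 : LS f2) : LS (fun a => md (f1 a) (f2 a)) := by
  unfold md
  fun_prop

@[fun_prop]
lemma ls_nnn {f1 f2 f3 f4 : α → ℕ} (h1 : LS f1) (h2 : LS f2) (h3 : LS f3) (h4 : LS f4) :
    LS (fun a => nnn (f1 a) (f2 a) (f3 a) (f4 a)) := by
  unfold nnn
  exact ls_lp (f := fun a => md (f1 a) 1) (n := f2) (g := fun a e' acc => if e' = f3 a then acc else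
      md (f1 a) (acc * (f4 a + (f1 a - e')))) (by fun_prop) h2 (by fun_prop)
    (Bq.of_le h1 fun a i _ => nnn_le (f1 a) i (f3 a) (f4 a))

@[fun_prop]
lemma ls_pwm {f1 f2 f3 : α → ℕ} (h1 : LS f1) (h2 : LS f2) (h3 : LS f3) :
    LS (fun a => pwm (f1 a) (f2 a) (f3 a)) := by
  unfold pwm
  exact ls_lp (f := fun a => md (f1 a) 1) (n := f3) (g := fun a _ acc => md (f1 a) (acc * f2 a))
    (by fun_prop) h3 (by fun_prop) (Bq.of_le h1 fun a i _ => pwm_le (f1 a) (f2 a) i)

@[fun_prop]
lemma ls_ddn {f1 f2 f3 f4 : α → ℕ} (h1 : LS f1) (h2 : LS f2) (h3 : LS f3) (h4 : LS f4) :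
    LS (fun a => ddn (f1 a) (f2 a) (f3 a) (f4 a)) := by
  unfold ddn
  fun_prop

@[fun_prop]
lemma ls_prn {f1 f2 f3 f4 f5 f6 : α → ℕ} (h1 : LS f1) (h2 : LS f2) (h3 : LS f3) (h4 : LS f4)
    (h5 : LS f5) (h6 : LS f6) :
    LS (fun a => prn (f1 a) (f2 a) (f3 a) (f4 a) (f5 a) (f6 a)) := by
  unfold prn
  exact ls_lp (f := fun a => md (f2 a) 1) (n := f4) (g := fun a j acc => md (f2 a) (acc *
      ddn (f2 a) (f3 a) (dgt (f1 a) (f3 a) (f5 a) j) (dgt (f1 a) (f2 a) (f6 a) j)))
    (by fun_prop) h4 (by fun_prop)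
    (Bq.of_le h2 fun a i _ => prn_le (f1 a) (f2 a) (f3 a) i (f5 a) (f6 a))

lemma ls_phn {f1 f2 f3 f4 f5 : α → ℕ} {hv : α → ℕ → ℕ} (h1 : LS f1) (h2 : LS f2) (h3 : LS f3)
    (h4 : LS f4) (h5 : LS f5) (hh : LS (fun x : α × ℕ => hv x.1 x.2)) :
    LS (fun a => phn (f1 a) (f2 a) (f3 a) (f4 a) (hv a) (f5 a)) := by
  unfold phn
  refine ls_lp (f := fun _ => 0) (n := fun a => pw (f1 a) (f3 a) (f4 a))
    (g := fun a E acc => md (f2 a) (acc + hv a E *
      prn (f1 a) (f2 a) (f3 a) (f4 a) E (f5 a)))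
    (by fun_prop) (by fun_prop) ?_
    (Bq.of_le h2 fun a i _ => lp_inv (P := fun y => y ≤ f2 a) (Nat.zero_le _)
      (fun i _ s _ => md_le _ _))
  have h6 : LS (fun x : α × ℕ × ℕ => hv x.1 x.2.1) :=
    LS.comp (f := fun x : α × ℕ => hv x.1 x.2) (g := fun x : α × ℕ × ℕ => (x.1, x.2.1)) hh
      (by fun_prop)
  fun_prop

@[fun_prop]
lemma ls_scl {f1 f2 f3 f4 f5 : α → ℕ} (h1 : LS f1) (h2 : LS f2) (h3 : LS f3) (h4 : LS f4)
    (h5 : LS f5) : LS (fun a => scl (f1 a) (f2 a) (f3 a) (f4 a) (f5 a)) := by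
  unfold scl
  exact ls_lp (f := f4) (n := f3) (g := fun a i S => upd (f1 a) (f2 a) S i
      (md (f2 a) (dgt (f1 a) (f2 a) S i * f5 a))) h4 h3 (by fun_prop)
    (Bq.of_le (f := fun a => f1 a + f4 a) (by fun_prop)
      fun a i _ => lp_inv (P := fun y => y ≤ f1 a + f4 a) (Nat.le_add_left _ _)
        (fun i _ s _ => (upd_le _ _ _ _ _).trans (Nat.le_add_right _ _)))

end

/-! ### Values -/

section

variable {p : ℕ} [hp : Fact p.Prime]

/-- The number of an array over the field. -/
def Enc (D : ℕ) (a : ℕ → ZMod p) : ℕ := arr p D (fun j => (a j).val)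

instance : NeZero p := ⟨hp.out.ne_zero⟩

lemma nnn_cast {q e x : ℕ} (hq : q ≤ p) : ((nnn p q e x : ℕ) : ZMod p) = NN q e (x : ZMod p) := by
  have hp0 : 0 < p := hp.out.pos
  have key : ∀ m, m ≤ p → ((nnn p m e x : ℕ) : ZMod p) = NN m e (x : ZMod p) := by
    intro m
    induction m with
    | zero =>
      intro _
      unfold nnn NN
      show ((md p 1 : ℕ) : ZMod p) = _
      rw [md_cast hp0]
      simp
    | succ m ih =>
      intro hm
      have ih := ih (by omega)
      unfold nnn at ih ⊢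
      rw [lp_succ]
      unfold NN at ih ⊢
      by_cases h : m = e
      · rw [if_pos h, ih]
        congr 1
        ext y
        simp only [Finset.mem_erase, Finset.mem_range]
        omega
      · rw [if_neg h, md_cast hp0, Nat.cast_mul, ih, Nat.cast_add, Nat.cast_sub (by omega),
          ZMod.natCast_self, zero_sub]
        have e1 : (Finset.range (m + 1)).erase e = insert m ((Finset.range m).erase e) := by
          ext y
          simp only [Finset.mem_erase, Finset.mem_range, Finset.mem_insert]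
          omega
        rw [e1, Finset.prod_insert (by simp), mul_comm, sub_eq_add_neg]
  exact key q hq

lemma pwm_cast (b k : ℕ) : ((pwm p b k : ℕ) : ZMod p) = (b : ZMod p) ^ k := by
  have hp0 : 0 < p := hp.out.pos
  unfold pwm
  induction k with
  | zero =>
    show ((md p 1 : ℕ) : ZMod p) = _
    rw [md_cast hp0]
    simp
  | succ k ih => rw [lp_succ, md_cast hp0, Nat.cast_mul, ih, pow_succ]

lemma ddn_cast {q e x : ℕ} (hq : q ≤ p) :
    ((ddn p q e x : ℕ) : ZMod p) = DD q e (x : ZMod p) := by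
  unfold ddn DD
  rw [md_cast hp.out.pos, Nat.cast_mul, nnn_cast hq, pwm_cast, nnn_cast hq]

lemma Enc_lt (D : ℕ) (a : ℕ → ZMod p) : Enc D a < p ^ D := arr_lt fun _ _ => ZMod.val_lt _

variable {z D : ℕ} (hz : p ^ D ≤ z)

include hz

lemma Enc_dgt (a : ℕ → ZMod p) {j : ℕ} (hj : j < D) : dgt z p (Enc D a) j = (a j).val :=
  dgt_arr hp.out.one_lt.le hz (fun _ _ => ZMod.val_lt _) hj

lemma Enc_upd (a : ℕ → ZMod p) {i : ℕ} (hi : i < D) (x : ZMod p) :
    upd z p (Enc D a) i x.val = Enc D (Function.update a i x) := by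
  unfold Enc
  rw [upd_arr hp.out.one_lt.le hz (fun _ _ => ZMod.val_lt _) hi (ZMod.val_lt _)]
  congr 1
  funext j
  by_cases hji : j = i
  · subst hji
    rw [Function.update_self, Function.update_self]
  · rw [Function.update_of_ne hji, Function.update_of_ne hji]

omit hz in
lemma md_val (x : ℕ) : md p x = (x : ZMod p).val := by
  unfold md
  rw [if_neg hp.out.ne_zero, ZMod.val_natCast]

lemma Enc_scl (b : ℕ → ZMod p) (l : ℕ) :
    scl z p D (Enc D b) l = Enc D (fun j => (l : ZMod p) * b j) := by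
  have key : ∀ m ≤ D, lp (fun i S => upd z p S i (md p (dgt z p S i * l))) (Enc D b) m =
      Enc D (fun j => if j < m then (l : ZMod p) * b j else b j) := by
    intro m
    induction m with
    | zero => intro _; simp [lp]
    | succ m ih =>
      intro hm
      rw [lp_succ, ih (by omega), Enc_dgt hz _ (by omega), md_val, Enc_upd hz _ (by omega)]
      congr 1
      funext j
      by_cases hj : j = m
      · subst hj
        rw [Function.update_self, if_neg (by omega), if_pos (by omega), Nat.cast_mul,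
          ZMod.natCast_val, ZMod.cast_id, mul_comm]
      · rw [Function.update_of_ne hj]
        by_cases hj2 : j < m
        · rw [if_pos hj2, if_pos (by omega)]
        · rw [if_neg hj2, if_neg (by omega)]
  unfold scl
  rw [key D le_rfl]
  unfold Enc
  apply arr_congr
  intro j hj
  beta_reduce
  rw [if_pos hj]

lemma phn_val {q : ℕ} (hq : q ≤ p) (hq1 : 1 ≤ q) (hzq : q ^ D ≤ z) (hv : ℕ → ℕ)
    (b : ℕ → ZMod p) : phn z p q D hv (Enc D b) =
      (Ph q D (fun E => (hv E : ZMod p)) b).val := by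
  have hp0 : 0 < p := hp.out.pos
  have h1 : ∀ E, ((prn z p q D E (Enc D b) : ℕ) : ZMod p) =
      ∏ j ∈ Finset.range D, DD q (E / q ^ j % q) (b j) := by
    intro E
    have key : ∀ m ≤ D, ((lp (fun j acc => md p (acc * ddn p q (dgt z q E j)
        (dgt z p (Enc D b) j))) (md p 1) m : ℕ) : ZMod p) =
        ∏ j ∈ Finset.range m, DD q (E / q ^ j % q) (b j) := by
      intro m
      induction m with
      | zero =>
        intro _
        show ((md p 1 : ℕ) : ZMod p) = _
        rw [md_cast hp0]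
        simp
      | succ m ih =>
        intro hm
        rw [lp_succ, md_cast hp0, Nat.cast_mul, ih (by omega), ddn_cast hq,
          Enc_dgt hz _ (by omega), Finset.prod_range_succ, ZMod.natCast_val, ZMod.cast_id]
        congr 2
        unfold dgt
        rw [pw_ok hq1 hzq (by omega)]
    exact key D le_rfl
  have key : ∀ m, ((lp (fun E acc => md p (acc + hv E * prn z p q D E (Enc D b))) 0 m : ℕ) :
      ZMod p) = ∑ E ∈ Finset.range m, (hv E : ZMod p) *
        ∏ j ∈ Finset.range D, DD q (E / q ^ j % q) (b j) := by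
    intro m
    induction m with
    | zero => simp [lp]
    | succ m ih =>
      rw [lp_succ, md_cast hp0, Nat.cast_add, Nat.cast_mul, ih, h1, Finset.sum_range_succ]
  have h2 : phn z p q D hv (Enc D b) < p := by
    unfold phn
    exact lp_inv (P := fun y => y < p) hp0 (fun i _ s _ => md_lt hp0 _)
  have h3 := key (pw z q D)
  rw [pw_eq hq1 hzq] at h3
  unfold Ph
  rw [← h3]
  unfold phn at h2 ⊢
  rw [pw_eq hq1 hzq] at h2 ⊢
  exact (ZMod.val_cast_of_lt h2).symm

end

end Pool.Agent.W_5d512e_h57
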