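import Mathlib

/-!
# Cantor pairing and the functions computed in linear space
-/

set_option autoImplicit false

namespace Pool.Agent.W_5d512e_h57

/-- Triangular numbers. -/
def tri : ℕ → ℕ
  | 0 => 0
  | k + 1 => tri k + (k + 1)

/-- Cantor pairing. -/
def kp (a b : ℕ) : ℕ := tri (a + b) + a

/-- The next pair. -/
def nx (x : ℕ × ℕ) : ℕ × ℕ := if x.2 = 0 then (0, x.1 + 1) else (x.1 + 1, x.2 - 1)

/-- The pair of a number. -/
def ku (n : ℕ) : ℕ × ℕ := nx^[n] (0, 0)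

lemma nx_iter (s a : ℕ) (h : a ≤ s) : nx^[a] (0, s) = (a, s - a) := by
  induction a with
  | zero => rfl
  | succ a ih =>
    rw [Function.iterate_succ_apply', ih (by omega)]
    unfold nx
    simp only
    rw [if_neg (by omega), Nat.sub_sub]

lemma nx_tri (s : ℕ) : nx^[tri s] (0, 0) = (0, s) := by
  induction s with
  | zero => rfl
  | succ s ih =>
    have e : tri (s + 1) = (s + 1) + tri s := by
      simp only [tri]
      omega
    rw [e, Function.iterate_add_apply, ih, Function.iterate_succ_apply', nx_iter s s le_rfl]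
    unfold nx
    simp

lemma ku_kp (a b : ℕ) : ku (kp a b) = (a, b) := by
  unfold ku kp
  rw [add_comm, Function.iterate_add_apply, nx_tri, nx_iter _ _ (by omega)]
  simp

lemma kp_nx (x : ℕ × ℕ) : kp (nx x).1 (nx x).2 = kp x.1 x.2 + 1 := by
  unfold nx kp
  obtain ⟨a, b⟩ := x
  cases b with
  | zero =>
    simp only [if_true, zero_add, add_zero, tri]
    omega
  | succ b =>
    simp only [Nat.add_eq_zero_iff, one_ne_zero, and_false, if_false, Nat.add_sub_cancel]
    rw [show a + 1 + b = a + (b + 1) by omega]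
    omega

lemma kp_ku (n : ℕ) : kp (ku n).1 (ku n).2 = n := by
  unfold ku
  induction n with
  | zero => rfl
  | succ n ih => rw [Function.iterate_succ_apply', kp_nx, ih]

lemma le_tri (s : ℕ) : s ≤ tri s := by
  cases s with
  | zero => exact le_rfl
  | succ s =>
    simp only [tri]
    omega

lemma tri_le (s : ℕ) : tri s ≤ s * s := by
  induction s with
  | zero => exact le_rfl
  | succ s ih =>
    simp only [tri]
    nlinarith

lemma left_le_kp (a b : ℕ) : a ≤ kp a b := Nat.le_add_left _ _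

lemma right_le_kp (a b : ℕ) : b ≤ kp a b := by
  unfold kp
  have := le_tri (a + b)
  omega

lemma kp_le (a b : ℕ) : kp a b ≤ (a + b + 1) ^ 2 := by
  unfold kp
  have := tri_le (a + b)
  nlinarith

/-- Functions computed in linear space. -/
inductive E2 : (ℕ → ℕ) → Prop
  | zero : E2 (fun _ => 0)
  | id : E2 (fun x => x)
  | succ : E2 (fun x => x + 1)
  | fst : E2 (fun x => (ku x).1)
  | snd : E2 (fun x => (ku x).2)
  | pair (f g : ℕ → ℕ) (hf : E2 f) (hg : E2 g) : E2 (fun x => kp (f x) (g x))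
  | comp (f g : ℕ → ℕ) (hf : E2 f) (hg : E2 g) : E2 (fun x => f (g x))
  | iter (f n g : ℕ → ℕ) (hf : E2 f) (hn : E2 n) (hg : E2 g) (c : ℕ)
      (hb : ∀ x i, i ≤ n x → (fun s => g (kp x s))^[i] (f x) ≤ (x + 2) ^ c) :
      E2 (fun x => (fun s => g (kp x s))^[n x] (f x))

lemma pow_le_pow2 {x a b : ℕ} (h : a ≤ b) : (x + 2) ^ a ≤ (x + 2) ^ b :=
  Nat.pow_le_pow_right (by omega) h

lemma kp_le_pow {x a b c : ℕ} (ha : a ≤ (x + 2) ^ c) (hb : b ≤ (x + 2) ^ c) :
    kp a b ≤ (x + 2) ^ (2 * c + 4) := by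
  refine (kp_le a b).trans ?_
  have h1 : 1 ≤ (x + 2) ^ c := Nat.one_le_pow _ _ (by omega)
  have h2 : a + b + 1 ≤ (x + 2) ^ (c + 2) := by
    rw [pow_add]
    have : 2 ^ 2 ≤ (x + 2) ^ 2 := Nat.pow_le_pow_left (by omega) 2
    nlinarith
  calc (a + b + 1) ^ 2 ≤ ((x + 2) ^ (c + 2)) ^ 2 := Nat.pow_le_pow_left h2 2
    _ = (x + 2) ^ (2 * c + 4) := by rw [← pow_mul]; ring_nf

lemma pow_comp {x y a b : ℕ} (h : y ≤ (x + 2) ^ a) : (y + 2) ^ b ≤ (x + 2) ^ ((a + 2) * b) := by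
  rw [pow_mul]
  apply Nat.pow_le_pow_left
  have h1 : 1 ≤ (x + 2) ^ a := Nat.one_le_pow _ _ (by omega)
  rw [pow_add]
  have : 2 ^ 2 ≤ (x + 2) ^ 2 := Nat.pow_le_pow_left (by omega) 2
  nlinarith

lemma E2.bound {f : ℕ → ℕ} (hf : E2 f) : ∃ c, ∀ x, f x ≤ (x + 2) ^ c := by
  induction hf with
  | zero => exact ⟨0, fun x => by simp⟩
  | id => exact ⟨1, fun x => by simp⟩
  | succ => exact ⟨1, fun x => by simp⟩
  | fst =>
    refine ⟨1, fun x => ?_⟩
    have h := left_le_kp (ku x).1 (ku x).2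
    rw [kp_ku] at h
    simp only [pow_one]
    omega
  | snd =>
    refine ⟨1, fun x => ?_⟩
    have h := right_le_kp (ku x).1 (ku x).2
    rw [kp_ku] at h
    simp only [pow_one]
    omega
  | pair f g _ _ ih1 ih2 =>
    obtain ⟨c1, h1⟩ := ih1
    obtain ⟨c2, h2⟩ := ih2
    exact ⟨2 * (c1 + c2) + 4, fun x => kp_le_pow ((h1 x).trans (pow_le_pow2 (by omega)))
      ((h2 x).trans (pow_le_pow2 (by omega)))⟩
  | comp f g _ _ ih1 ih2 =>
    obtain ⟨c1, h1⟩ := ih1
    obtain ⟨c2, h2⟩ := ih2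
    exact ⟨(c2 + 2) * c1, fun x => (h1 _).trans (pow_comp (h2 x))⟩
  | iter f n g _ _ _ c hb _ _ _ => exact ⟨c, fun x => hb x (n x) le_rfl⟩

end Pool.Agent.W_5d512e_h57
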