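import Pool.Agent.W_5d512e_h57.Val
import Pool.Agent.W_5d512e_h57.Gen

/-!
# Parameters
-/

set_option autoImplicit false

namespace Pool.Agent.W_5d512e_h57

/-! ### Primes -/

/-- Trial division. -/
def tdv (x : ℕ) : ℕ := lp (fun k acc => if 2 ≤ k ∧ x % k = 0 then 0 else acc) 1 x

lemma tdv_le (x n : ℕ) : lp (fun k acc => if 2 ≤ k ∧ x % k = 0 then 0 else acc) 1 n ≤ 1 := by
  refine lp_inv (P := fun y => y ≤ 1) le_rfl ?_
  intro i _ s hs
  split_ifs <;> omega

@[fun_prop]
lemma ls_tdv {α : Type} [Cd α] {f : α → ℕ} (hf : LS f) : LS (fun a => tdv (f a)) := by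
  unfold tdv
  exact ls_lp (f := fun _ => 1) (n := f) (g := fun a k acc =>
    if 2 ≤ k ∧ f a % k = 0 then 0 else acc) (by fun_prop) hf (by fun_prop)
    (Bq.of_le (f := fun _ => 1) (by fun_prop) fun a i _ => tdv_le (f a) i)

lemma tdv_prime {x : ℕ} (hx : 2 ≤ x) : tdv x ≠ 0 ↔ x.Prime := by
  have key : ∀ n, lp (fun k acc => if 2 ≤ k ∧ x % k = 0 then 0 else acc) 1 n ≠ 0 ↔
      ∀ k, 2 ≤ k → k < n → ¬ k ∣ x := by
    intro n
    induction n with
    | zero => simp [lp]
    | succ n ih =>
      rw [lp_succ]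
      split_ifs with h
      · constructor
        · intro h1
          exact absurd rfl h1
        · intro h1
          exact absurd (Nat.dvd_of_mod_eq_zero h.2) (h1 n h.1 (by omega))
      · rw [ih]
        constructor
        · intro h1 k hk1 hk2 hk3
          by_cases hkn : k = n
          · subst hkn
            exact h ⟨hk1, Nat.mod_eq_zero_of_dvd hk3⟩
          · exact h1 k hk1 (by omega) hk3
        · intro h1 k hk1 hk2
          exact h1 k hk1 (by omega)
  unfold tdv
  rw [key, Nat.prime_def_lt']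
  constructor
  · intro h
    exact ⟨hx, fun k h1 h2 => h k h1 h2⟩
  · intro h k h1 h2
    exact h.2 k h1 h2

/-- The next prime. -/
def npr (x : ℕ) : ℕ := lp (fun _ y => if tdv y = 0 then y + 1 else y) x (x + 1)

lemma npr_aux (x : ℕ) (hx : 2 ≤ x) (n : ℕ) :
    x ≤ lp (fun _ y => if tdv y = 0 then y + 1 else y) x n ∧
    lp (fun _ y => if tdv y = 0 then y + 1 else y) x n ≤ x + n ∧
    ((lp (fun _ y => if tdv y = 0 then y + 1 else y) x n).Prime ∨
      (lp (fun _ y => if tdv y = 0 then y + 1 else y) x n = x + n ∧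
        ∀ y, x ≤ y → y < x + n → ¬ y.Prime)) := by
  induction n with
  | zero => exact ⟨le_rfl, le_rfl, Or.inr ⟨rfl, fun y h1 h2 => by omega⟩⟩
  | succ n ih =>
    rw [lp_succ]
    set y := lp (fun _ y => if tdv y = 0 then y + 1 else y) x n with hy
    obtain ⟨i1, i2, i3⟩ := ih
    have hp := tdv_prime (show 2 ≤ y by omega)
    split_ifs with h
    · refine ⟨by omega, by omega, Or.inr ?_⟩
      have hn : ¬ y.Prime := fun hc => (hp.2 hc) h
      rcases i3 with i3 | ⟨i3, i4⟩
      · exact absurd i3 hn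
      · refine ⟨by omega, fun y' h1 h2 => ?_⟩
        by_cases hyy : y' = y
        · rw [hyy]
          exact hn
        · exact i4 y' h1 (by omega)
    · exact ⟨i1, by omega, Or.inl (hp.1 h)⟩

lemma npr_spec {x : ℕ} (hx : 2 ≤ x) : (npr x).Prime ∧ x ≤ npr x ∧ npr x ≤ 2 * x + 1 := by
  obtain ⟨i1, i2, i3⟩ := npr_aux x hx (x + 1)
  refine ⟨?_, i1, by unfold npr; omega⟩
  rcases i3 with i3 | ⟨-, i4⟩
  · exact i3
  · obtain ⟨q, h1, h2, h3⟩ := Nat.exists_prime_lt_and_le_two_mul x (by omega)
    exact absurd h1 (i4 q (by omega) (by omega))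

@[fun_prop]
lemma ls_npr {α : Type} [Cd α] {f : α → ℕ} (hf : LS f) : LS (fun a => npr (f a)) := by
  unfold npr
  refine ls_lp (f := f) (n := fun a => f a + 1) (g := fun a _ y => if tdv y = 0 then y + 1 else y)
    hf (by fun_prop) (by fun_prop)
    (Bq.of_le (f := fun a => 2 * f a + 1) (by fun_prop) fun a i hi => ?_)
  have : ∀ n, lp (fun _ y => if tdv y = 0 then y + 1 else y) (f a) n ≤ f a + n := by
    intro n
    induction n with
    | zero => exact le_rfl
    | succ n ih =>
      rw [lp_succ]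
      split_ifs <;> omega
  have := this i
  omega

/-! ### Cube roots -/

/-- The least number whose cube is larger than `n`. -/
def cr (n : ℕ) : ℕ := lp (fun _ y => if n + 1 ≤ y * y * y then y else y + 1) 0 (n + 1)

@[fun_prop]
lemma ls_cr {α : Type} [Cd α] {f : α → ℕ} (hf : LS f) : LS (fun a => cr (f a)) := by
  unfold cr
  refine ls_lp (f := fun _ => 0) (n := fun a => f a + 1)
    (g := fun a _ y => if f a + 1 ≤ y * y * y then y else y + 1)
    (by fun_prop) (by fun_prop) (by fun_prop)
    (Bq.of_le (f := fun a => f a + 1) (by fun_prop) fun a i hi => ?_)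
  have : ∀ n, lp (fun _ y => if f a + 1 ≤ y * y * y then y else y + 1) 0 n ≤ n := by
    intro n
    induction n with
    | zero => exact le_rfl
    | succ n ih =>
      rw [lp_succ]
      split_ifs <;> omega
  exact (this i).trans hi

lemma cr_spec (n : ℕ) : n + 1 ≤ cr n * cr n * cr n ∧
    ∀ y, n + 1 ≤ y * y * y → cr n ≤ y := by
  have key : ∀ i, (∀ y, n + 1 ≤ y * y * y →
      lp (fun _ y => if n + 1 ≤ y * y * y then y else y + 1) 0 i ≤ y) ∧
      (n + 1 ≤ lp (fun _ y => if n + 1 ≤ y * y * y then y else y + 1) 0 i *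
        lp (fun _ y => if n + 1 ≤ y * y * y then y else y + 1) 0 i *
        lp (fun _ y => if n + 1 ≤ y * y * y then y else y + 1) 0 i ∨
        lp (fun _ y => if n + 1 ≤ y * y * y then y else y + 1) 0 i = i) := by
    intro i
    induction i with
    | zero => exact ⟨fun y _ => Nat.zero_le _, Or.inr rfl⟩
    | succ i ih =>
      rw [lp_succ]
      set y := lp (fun _ y => if n + 1 ≤ y * y * y then y else y + 1) 0 i with hy
      obtain ⟨i1, i2⟩ := ih
      split_ifs with h
      · exact ⟨i1, Or.inl h⟩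
      · refine ⟨fun y' hy' => ?_, Or.inr ?_⟩
        · have h1 := i1 y' hy'
          rcases Nat.lt_or_ge y y' with h2 | h2
          · exact h2
          · have h3 : y = y' := by omega
            rw [h3] at h
            exact absurd hy' h
        · rcases i2 with i2 | i2
          · exact absurd i2 h
          · omega
  obtain ⟨k1, k2⟩ := key (n + 1)
  refine ⟨?_, k1⟩
  rcases k2 with k2 | k2
  · exact k2
  · unfold cr
    rw [k2]
    have : (n + 1) * (n + 1) * (n + 1) = (n + 1) + (n + 1) * (n * n + 2 * n) := by ring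
    omega

lemma cr_pos (n : ℕ) : 1 ≤ cr n := by
  have h := (cr_spec n).1
  rcases Nat.eq_zero_or_pos (cr n) with h0 | h0
  · rw [h0] at h
    omega
  · exact h0

lemma cr_mono : Monotone cr := by
  intro a b h
  apply (cr_spec a).2
  have := (cr_spec b).1
  omega

lemma cr_le (n : ℕ) : cr n ≤ n + 1 := by
  apply (cr_spec n).2
  have : (n + 1) * (n + 1) * (n + 1) = (n + 1) + (n + 1) * (n * n + 2 * n) := by ring
  omega

lemma div_cr (n : ℕ) : n / (cr n * cr n) ≤ cr n := by
  have h := (cr_spec n).1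
  have h0 := cr_pos n
  rw [Nat.div_le_iff_le_mul_add_pred (by positivity)]
  have : cr n * cr n * cr n = cr n * (cr n * cr n) := by ring
  omega

/-! ### Powers -/

lemma pw_ne {z p k : ℕ} (h : pw z p k ≠ 0) : p ^ k ≤ z ∧ pw z p k = p ^ k := by
  induction k with
  | zero =>
    have h1 : pw z p 0 = cut z 1 := rfl
    rw [h1] at h ⊢
    unfold cut at h ⊢
    split_ifs at h with h2
    · rw [if_pos h2]
      exact ⟨by simpa using h2, by simp⟩
    · exact absurd rfl h
  | succ k ih =>
    have h1 : pw z p (k + 1) = cut z (pw z p k * p) := rfl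
    rw [h1] at h ⊢
    unfold cut at h ⊢
    split_ifs at h with h2
    · rw [if_pos h2]
      have h3 : pw z p k ≠ 0 := fun h4 => h (by rw [h4, zero_mul])
      rw [(ih h3).2] at h2 ⊢
      rw [pow_succ]
      exact ⟨h2, rfl⟩
    · exact absurd rfl h

lemma pw_pos {z p k : ℕ} (hp : 1 ≤ p) (h : p ^ k ≤ z) : pw z p k ≠ 0 := by
  rw [pw_eq hp h]
  exact (pow_pos hp k).ne'

end Pool.Agent.W_5d512e_h57
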