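import Pool.Agent.W_5d512e_h57.Tbl

/-!
# The first letters, from the queue
-/

set_option autoImplicit false

namespace Pool.Agent.W_5d512e_h57

open Pool.Agent.W_MP_5d512e_h33 Pool.Agent.W_MP_5d512e_dic

section

variable {d : ℕ}

/-- The number of a word. -/
def ln : List (Fin d) → ℕ
  | [] => 0
  | x :: l => ((x : ℕ) + 1) + (d + 1) * ln l

lemma ln_append (l l' : List (Fin d)) : ln (l ++ l') = ln l + (d + 1) ^ l.length * ln l' := by
  induction l with
  | nil => simp [ln]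
  | cons x l ih =>
    rw [List.cons_append, ln, ih, ln, List.length_cons, pow_succ']
    ring

lemma ln_lt (l : List (Fin d)) : ln l < (d + 1) ^ l.length := by
  induction l with
  | nil => simp [ln]
  | cons x l ih =>
    rw [ln, List.length_cons, pow_succ']
    have := x.2
    have h1 : (d + 1) * (ln l + 1) ≤ (d + 1) * (d + 1) ^ l.length := Nat.mul_le_mul_left _ ih
    rw [Nat.mul_add, mul_one] at h1
    omega

lemma ln_mod (x : Fin d) (l : List (Fin d)) : ln (x :: l) % (d + 1) = (x : ℕ) + 1 := by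
  rw [ln, Nat.add_mul_mod_self_left, Nat.mod_eq_of_lt (by have := x.2; omega)]

lemma ln_div (x : Fin d) (l : List (Fin d)) : ln (x :: l) / (d + 1) = ln l := by
  rw [ln, Nat.add_mul_div_left _ _ (Nat.succ_pos d), Nat.div_eq_of_lt (by have := x.2; omega),
    zero_add]

end

section

variable {p d : ℕ} (Y : Sys (Fin p) (Fin d))

/-- Next state. -/
def qd (s c : ℕ) : ℕ :=
  if h : s < p ∧ c - 1 < d then (if c = 0 then 0 else (Y.δ ⟨s, h.1⟩ ⟨c - 1, h.2⟩ : ℕ)) else 0

/-- Number of the output. -/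
def qo (s c : ℕ) : ℕ :=
  if h : s < p ∧ c - 1 < d then (if c = 0 then 0 else ln (Y.out ⟨s, h.1⟩ ⟨c - 1, h.2⟩)) else 0

/-- Length of the output. -/
def ql (s c : ℕ) : ℕ :=
  if h : s < p ∧ c - 1 < d then (if c = 0 then 0 else (Y.out ⟨s, h.1⟩ ⟨c - 1, h.2⟩).length) else 0

lemma qd_eq (s : Fin p) (c : Fin d) : qd Y s ((c : ℕ) + 1) = (Y.δ s c : ℕ) := by
  unfold qd
  rw [dif_pos ⟨s.2, by have := c.2; omega⟩, if_neg (by omega)]
  rfl

lemma qo_eq (s : Fin p) (c : Fin d) : qo Y s ((c : ℕ) + 1) = ln (Y.out s c) := by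
  unfold qo
  rw [dif_pos ⟨s.2, by have := c.2; omega⟩, if_neg (by omega)]
  rfl

lemma ql_eq (s : Fin p) (c : Fin d) : ql Y s ((c : ℕ) + 1) = (Y.out s c).length := by
  unfold ql
  rw [dif_pos ⟨s.2, by have := c.2; omega⟩, if_neg (by omega)]
  rfl

section

variable {α : Type} [Cd α]

@[fun_prop]
lemma ls_qd {f g : α → ℕ} (hf : LS f) (hg : LS g) : LS (fun a => qd Y (f a) (g a)) :=
  LS.comp (f := fun x : ℕ × ℕ => qd Y x.1 x.2) (g := fun a => (f a, g a))
    (ls_tab2 p (d + 2) fun x y h => by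
      unfold qd
      by_cases h1 : x < p ∧ y - 1 < d
      · rw [dif_pos h1]
        omega
      · rw [dif_neg h1]) (by fun_prop)

@[fun_prop]
lemma ls_qo {f g : α → ℕ} (hf : LS f) (hg : LS g) : LS (fun a => qo Y (f a) (g a)) :=
  LS.comp (f := fun x : ℕ × ℕ => qo Y x.1 x.2) (g := fun a => (f a, g a))
    (ls_tab2 p (d + 2) fun x y h => by
      unfold qo
      by_cases h1 : x < p ∧ y - 1 < d
      · rw [dif_pos h1]
        omega
      · rw [dif_neg h1]) (by fun_prop)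

@[fun_prop]
lemma ls_ql {f g : α → ℕ} (hf : LS f) (hg : LS g) : LS (fun a => ql Y (f a) (g a)) :=
  LS.comp (f := fun x : ℕ × ℕ => ql Y x.1 x.2) (g := fun a => (f a, g a))
    (ls_tab2 p (d + 2) fun x y h => by
      unfold ql
      by_cases h1 : x < p ∧ y - 1 < d
      · rw [dif_pos h1]
        omega
      · rw [dif_neg h1]) (by fun_prop)

end

/-- Read one letter of the queue. -/
def qs1 (z σ : ℕ) (x : ℕ × ℕ × ℕ) : ℕ × ℕ × ℕ :=
  if σ < x.2.2 then x
  else (qd Y x.1 (x.2.1 % (d + 1)), cut z (x.2.1 / (d + 1) +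
    pw z (d + 1) (x.2.2 - 1) * qo Y x.1 (x.2.1 % (d + 1))),
    x.2.2 - 1 + ql Y x.1 (x.2.1 % (d + 1)))

/-- The queue after `n` letters. -/
def qsn (z σ n : ℕ) : ℕ × ℕ × ℕ :=
  lp (fun _ x => qs1 Y z σ x) ((Y.δ Y.q0 Y.a : ℕ), ln Y.u, Y.u.length) n

/-- The letter at position `x`, if the queue is short. -/
def lf (z σ x : ℕ) : ℕ :=
  if x = 0 then (Y.a : ℕ) + 1
  else if σ < (qsn Y z σ (x - 1)).2.2 then 0 else (qsn Y z σ (x - 1)).2.1 % (d + 1)

lemma qd_le (s c : ℕ) : qd Y s c ≤ p := by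
  unfold qd
  split_ifs with h1 h2
  · exact Nat.zero_le _
  · exact (Y.δ _ _).2.le
  · exact Nat.zero_le _

lemma exists_ql_le : ∃ B, ∀ s c, ql Y s c ≤ B := by
  obtain ⟨M, hM⟩ : ∃ M, ∀ s x, (Y.out s x).length ≤ M := by
    refine ⟨Finset.univ.sup (fun sx : Fin p × Fin d => (Y.out sx.1 sx.2).length), ?_⟩
    intro s x
    exact Finset.le_sup (f := fun sx : Fin p × Fin d => (Y.out sx.1 sx.2).length)
      (Finset.mem_univ (s, x))
  refine ⟨M, fun s c => ?_⟩
  unfold ql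
  split_ifs with h1 h2
  · exact Nat.zero_le _
  · exact hM _ _
  · exact Nat.zero_le _

@[fun_prop]
lemma ls_qsn {α : Type} [Cd α] {f1 f2 f3 : α → ℕ} (h1 : LS f1) (h2 : LS f2) (h3 : LS f3) :
    LS (fun a => qsn Y (f1 a) (f2 a) (f3 a)) := by
  unfold qsn
  obtain ⟨B, hB⟩ := exists_ql_le Y
  have key : ∀ a m, (lp (fun _ x => qs1 Y (f1 a) (f2 a) x)
      ((Y.δ Y.q0 Y.a : ℕ), ln Y.u, Y.u.length) m).1 ≤ p ∧
      (lp (fun _ x => qs1 Y (f1 a) (f2 a) x)
      ((Y.δ Y.q0 Y.a : ℕ), ln Y.u, Y.u.length) m).2.1 ≤ f1 a + ln Y.u ∧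
      (lp (fun _ x => qs1 Y (f1 a) (f2 a) x)
      ((Y.δ Y.q0 Y.a : ℕ), ln Y.u, Y.u.length) m).2.2 ≤ f2 a + B + Y.u.length := by
    intro a m
    induction m with
    | zero => exact ⟨(Y.δ Y.q0 Y.a).2.le, Nat.le_add_left _ _, Nat.le_add_left _ _⟩
    | succ m ih =>
      rw [lp_succ]
      set x := lp (fun _ x => qs1 Y (f1 a) (f2 a) x)
        ((Y.δ Y.q0 Y.a : ℕ), ln Y.u, Y.u.length) m with hx
      obtain ⟨i1, i2, i3⟩ := ih
      unfold qs1
      by_cases c1 : f2 a < x.2.2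
      · rw [if_pos c1]
        exact ⟨i1, i2, i3⟩
      · rw [if_neg c1]
        refine ⟨qd_le _ _ _, (cut_le _ _).trans (Nat.le_add_right _ _), ?_⟩
        have := hB x.1 (x.2.1 % (d + 1))
        simp only
        omega
  refine ls_lp (f := fun a => ((Y.δ Y.q0 Y.a : ℕ), ln Y.u, Y.u.length)) (n := f3)
    (g := fun a _ x => qs1 Y (f1 a) (f2 a) x) (by fun_prop) h3 ?_ (Bq.pair ?_ (Bq.pair ?_ ?_))
  · unfold qs1
    fun_prop
  · exact Bq.of_le (f := fun _ => p) (by fun_prop) fun a m _ => (key a m).1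
  · exact Bq.of_le (f := fun a => f1 a + ln Y.u) (by fun_prop) fun a m _ => (key a m).2.1
  · exact Bq.of_le (f := fun a => f2 a + B + Y.u.length) (by fun_prop)
      fun a m _ => (key a m).2.2

@[fun_prop]
lemma ls_lf {α : Type} [Cd α] {f1 f2 f3 : α → ℕ} (h1 : LS f1) (h2 : LS f2) (h3 : LS f3) :
    LS (fun a => lf Y (f1 a) (f2 a) (f3 a)) := by
  unfold lf
  fun_prop

/-! ### Correctness -/

lemma qsn_ok {z σ : ℕ} (hz : (d + 1) ^ σ ≤ z) (n : ℕ) :
    (Y.K n ≤ σ → qsn Y z σ n = ((Y.st n).1.val, ln (Y.st n).2.1, Y.K n)) ∧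
    (σ < Y.K n → σ < (qsn Y z σ n).2.2) := by
  induction n with
  | zero => exact ⟨fun _ => rfl, fun h => h⟩
  | succ n ih =>
    have hm := Y.K_mono (show n ≤ n + 1 by omega)
    have e0 : qsn Y z σ (n + 1) = qs1 Y z σ (qsn Y z σ n) := rfl
    rw [e0]
    by_cases hK : σ < Y.K n
    · have h1 := ih.2 hK
      have e1 : qs1 Y z σ (qsn Y z σ n) = qsn Y z σ n := by
        unfold qs1
        rw [if_pos h1]
      rw [e1]
      exact ⟨fun h => by omega, fun _ => h1⟩
    · have h1 := ih.1 (by omega)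
      obtain ⟨x, hT, hq, hs⟩ := Y.T_succ n
      have hKn : Y.K n = (Y.st n).2.1.length := rfl
      have hKn' : Y.K (n + 1) = (Y.st (n + 1)).2.1.length := rfl
      have hmod : ln (Y.st n).2.1 % (d + 1) = (x : ℕ) + 1 := by rw [hq, ln_mod]
      have hdiv : ln (Y.st n).2.1 / (d + 1) = ln (Y.st n).2.1.tail := by
        conv_lhs => rw [hq]
        rw [ln_div]
      have htl : (Y.st n).2.1.tail.length = Y.K n - 1 := by
        rw [List.length_tail, hKn]
      have hlen : Y.K (n + 1) = Y.K n - 1 + (Y.out (Y.st n).1 x).length := by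
        rw [hKn', hs]
        simp only [List.length_append]
        rw [htl]
      have e2 : qs1 Y z σ (qsn Y z σ n) = ((Y.δ (Y.st n).1 x : ℕ),
          cut z (ln (Y.st n).2.1.tail + pw z (d + 1) (Y.K n - 1) * ln (Y.out (Y.st n).1 x)),
          Y.K (n + 1)) := by
        rw [h1]
        unfold qs1
        rw [if_neg hK]
        simp only
        rw [hmod, hdiv, qd_eq, qo_eq, ql_eq, hlen]
      rw [e2]
      refine ⟨fun h => ?_, fun h => h⟩
      have h2 : pw z (d + 1) (Y.K n - 1) = (d + 1) ^ (Y.K n - 1) :=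
        pw_eq (by omega) ((Nat.pow_le_pow_right (by omega) (by omega)).trans hz)
      have h3 : ln (Y.st n).2.1.tail + (d + 1) ^ (Y.K n - 1) * ln (Y.out (Y.st n).1 x) =
          ln (Y.st (n + 1)).2.1 := by
        rw [hs]
        simp only
        rw [ln_append, htl]
      rw [h2, h3, cut_of_le, hs]
      refine (ln_lt _).le.trans (le_trans ?_ hz)
      exact Nat.pow_le_pow_right (by omega) h

/-- Is the letter found in the queue? -/
def Lf (σ x : ℕ) : Prop := x = 0 ∨ Y.K (x - 1) ≤ σ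

lemma Lf_mono {σ x y : ℕ} (h : x ≤ y) (hy : Lf Y σ y) : Lf Y σ x := by
  rcases hy with rfl | hy
  · exact Or.inl (by omega)
  · exact Or.inr ((Y.K_mono (by omega)).trans hy)

lemma lim_zero : Y.lim 0 = Y.a := rfl

lemma head_st (n : ℕ) : (Y.st n).2.1.head? = some (Y.lim (n + 1)) := by
  obtain ⟨-, h2, h3, h4⟩ := Y.inv n
  rw [h3, List.head?_drop, List.getElem?_eq_getElem h4, Y.T_getElem h4]

lemma lf_ok {z σ x : ℕ} (hz : (d + 1) ^ σ ≤ z) (h : Lf Y σ x) :
    lf Y z σ x = (Y.lim x : ℕ) + 1 := by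
  unfold lf
  by_cases hx : x = 0
  · rw [if_pos hx, hx, lim_zero]
  · rw [if_neg hx]
    have hK : Y.K (x - 1) ≤ σ := by
      rcases h with h | h
      · exact absurd h hx
      · exact h
    rw [(qsn_ok Y hz (x - 1)).1 hK, if_neg (by simp only; omega)]
    simp only
    have h1 := head_st Y (x - 1)
    rw [show x - 1 + 1 = x by omega] at h1
    rcases hq : (Y.st (x - 1)).2.1 with _ | ⟨c, l⟩
    · rw [hq] at h1
      simp at h1
    · rw [hq] at h1
      simp only [List.head?_cons, Option.some.injEq] at h1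
      rw [ln_mod, h1]

lemma lf_not {z σ x : ℕ} (hz : (d + 1) ^ σ ≤ z) (h : ¬ Lf Y σ x) : lf Y z σ x = 0 := by
  unfold Lf at h
  rw [not_or] at h
  unfold lf
  rw [if_neg h.1, if_pos ((qsn_ok Y hz (x - 1)).2 (by omega))]

/-- Beyond the letters found in the queue, the positions grow by more than `σ`. -/
lemma fo_far {σ x : ℕ} (h : ¬ Lf Y σ x) : x + σ < Y.fo x := by
  unfold Lf at h
  rw [not_or] at h
  have h1 : Y.fo (x - 1 + 1) = (Y.T (x - 1)).length := by
    unfold Sys.fo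
    rw [Y.run_pre]
  rw [Y.T_length, show x - 1 + 1 = x by omega] at h1
  omega

end

end Pool.Agent.W_5d512e_h57
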