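import Pool.Agent.W_5d512e_h57.Dfc
import Pool.Agent.W_MP_5d512e_lc.Machine

/-!
# Tables
-/

set_option autoImplicit false

namespace Pool.Agent.W_5d512e_h57

open Pool.Agent.W_MP_5d512e_h33 Pool.Agent.W_MP_5d512e_dic

lemma ls_tab {f : ℕ → ℕ} (N : ℕ) (h : ∀ x, N ≤ x → f x = 0) : LS f := by
  induction N generalizing f with
  | zero =>
    have e : f = fun _ => 0 := funext fun x => h x (Nat.zero_le _)
    rw [e]
    fun_prop
  | succ N ih =>
    have h1 := ih (f := fun x => if x = N then 0 else f x) (by
      intro x hx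
      by_cases hxN : x = N
      · rw [if_pos hxN]
      · rw [if_neg hxN]
        exact h x (by omega))
    have e : f = fun x => if x = N then f N else (if x = N then 0 else f x) := by
      funext x
      by_cases hxN : x = N
      · rw [if_pos hxN, hxN]
      · rw [if_neg hxN, if_neg hxN]
    rw [e]
    exact LS.ite (by fun_prop) (by fun_prop) h1

lemma ls_tab2 {f : ℕ → ℕ → ℕ} (N N' : ℕ) (h : ∀ x y, N ≤ x ∨ N' ≤ y → f x y = 0) :
    LS (fun x : ℕ × ℕ => f x.1 x.2) := by
  induction N generalizing f with
  | zero =>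
    have e : (fun x : ℕ × ℕ => f x.1 x.2) = fun _ => 0 :=
      funext fun x => h x.1 x.2 (Or.inl (Nat.zero_le _))
    rw [e]
    fun_prop
  | succ N ih =>
    have h1 := ih (f := fun x y => if x = N then 0 else f x y) (by
      intro x y hx
      by_cases hxN : x = N
      · rw [if_pos hxN]
      · rw [if_neg hxN]
        exact h x y (by omega))
    have h2 : LS (f N) := ls_tab N' fun y hy => h N y (Or.inr hy)
    have h3 : LS (fun x : ℕ × ℕ => f N x.2) := LS.comp h2 (by fun_prop)
    have e : (fun x : ℕ × ℕ => f x.1 x.2) =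
        fun x => if x.1 = N then f N x.2 else (if x.1 = N then 0 else f x.1 x.2) := by
      funext x
      by_cases hxN : x.1 = N
      · rw [if_pos hxN, hxN]
      · rw [if_neg hxN, if_neg hxN]
    rw [e]
    exact LS.ite (by fun_prop) h3 h1

/-- Code of a letter. -/
def cAo {d : ℕ} : Option (Fin d) → ℕ
  | none => 0
  | some x => (x : ℕ) + 1

/-- The letter of a code. -/
def dAo (d : ℕ) (n : ℕ) : Option (Fin d) :=
  if h : n - 1 < d ∧ n ≠ 0 then some ⟨n - 1, h.1⟩ else none

lemma dAo_cAo {d : ℕ} (x : Option (Fin d)) : dAo d (cAo x) = x := by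
  cases x with
  | none =>
    show dAo d 0 = none
    unfold dAo
    rw [dif_neg (fun h => h.2 rfl)]
  | some x =>
    show dAo d ((x : ℕ) + 1) = some x
    unfold dAo
    rw [dif_pos ⟨by have := x.2; omega, by omega⟩]
    congr 1

lemma cAo_le {d : ℕ} (x : Option (Fin d)) : cAo x ≤ d := by
  cases x with
  | none => exact Nat.zero_le _
  | some x => exact x.2

/-- A transducer on finite sets has tables. -/
theorem exists_tab {p d : ℕ} (δ : Fin p → Option (Fin d) → Fin p)
    (out : Fin p → Option (Fin d) → List (Option (Fin d))) (q0 : Fin p) :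
    ∃ T : Tab δ out q0, T.cA = cAo := by
  classical
  obtain ⟨Cm, hCm⟩ : ∃ M, ∀ s x, (out s x).length ≤ M := by
    refine ⟨Finset.univ.sup (fun sx : Fin p × Option (Fin d) => (out sx.1 sx.2).length), ?_⟩
    intro s x
    exact Finset.le_sup (f := fun sx : Fin p × Option (Fin d) => (out sx.1 sx.2).length)
      (Finset.mem_univ (s, x))
  have hfin : Finite {r : List (Option (Fin d)) // r.length ≤ Cm} := by
    have : Set.Finite {l : List (Option (Fin d)) | l.length ≤ Cm} :=
      List.finite_length_le (Option (Fin d)) Cm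
    exact this.to_subtype
  obtain ⟨K, e, he⟩ := Pool.Agent.W_MP_5d512e_lc.exists_equiv_fin
    (Fin p × {r : List (Option (Fin d)) // r.length ≤ Cm}) (q0, ⟨[], Nat.zero_le _⟩)
  let dec : ℕ → Fin p × {r : List (Option (Fin d)) // r.length ≤ Cm} := fun x =>
    if h : x < K + 1 then e.symm ⟨x, h⟩ else e.symm 0
  let cX : Fin p → List (Option (Fin d)) → ℕ := fun s r =>
    if h : r.length ≤ Cm then (e (s, ⟨r, h⟩) : ℕ) else 0
  have hlt : ∀ s r, r.length ≤ Cm → cX s r < K + 1 := by
    intro s r h
    simp only [cX, dif_pos h]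
    exact (e (s, ⟨r, h⟩)).2
  have hdec : ∀ s r (h : r.length ≤ Cm), dec (cX s r) = (s, ⟨r, h⟩) := by
    intro s r h
    have h1 := hlt s r h
    simp only [dec, dif_pos h1]
    simp only [cX, dif_pos h]
    exact e.symm_apply_apply _
  refine ⟨{
    K0 := K + 1
    Cm := Cm
    Hd := d
    cA := cAo
    cX := cX
    feedT := fun x c => if x < K + 1 ∧ c < d + 1 then
      cX (δ (dec x).1 (dAo d c)) (out (dec x).1 (dAo d c)) else 0
    popT := fun x => if x < K + 1 then cX (dec x).1 (dec x).2.1.tail else 0
    headT := fun x => if x < K + 1 then ((dec x).2.1.head?.map cAo).getD 0 else 0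
    neT := fun x => if x < K + 1 then (if (dec x).2.1 = [] then 0 else 1) else 0
    hfeed := ?_
    hpop := ?_
    hhead := ?_
    hnil := ?_
    hcons := ?_
    h0 := ?_
    hlt := hlt
    hK0 := by omega
    hCm := hCm
    hHd := ?_
    lsf := ?_
    lsp := ?_
    lsh := ?_
    lsn := ?_ }, rfl⟩
  · intro s r c h
    have h1 := cAo_le c
    rw [if_pos ⟨hlt s r h, by omega⟩, hdec s r h, dAo_cAo]
  · intro s c r h
    rw [if_pos (hlt s _ h), hdec s _ h]
    rfl
  · intro s c r h
    rw [if_pos (hlt s _ h), hdec s _ h]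
    rfl
  · intro s
    rw [if_pos (hlt s [] (Nat.zero_le _)), hdec s [] (Nat.zero_le _), if_pos rfl]
  · intro s c r h
    rw [if_pos (hlt s _ h), hdec s _ h, if_neg (by simp)]
    omega
  · simp only [cX, List.length_nil, Nat.zero_le, dif_pos]
    rw [he]
    rfl
  · intro x
    show (if x < K + 1 then ((dec x).2.1.head?.map cAo).getD 0 else 0) ≤ d
    split_ifs
    · cases (dec x).2.1.head? with
      | none => exact Nat.zero_le _
      | some y => exact cAo_le y
    · exact Nat.zero_le _
  · refine ls_tab2 (f := fun x c => if x < K + 1 ∧ c < d + 1 then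
      cX (δ (dec x).1 (dAo d c)) (out (dec x).1 (dAo d c)) else 0) (K + 1) (d + 1) ?_
    intro x y h
    exact if_neg fun hh => by omega
  · exact ls_tab (K + 1) fun x h => if_neg (by omega)
  · exact ls_tab (K + 1) fun x h => if_neg (by omega)
  · exact ls_tab (K + 1) fun x h => if_neg (by omega)

/-! ### Streams and cascades -/

section

variable {S A : Type} (δ : S → A → S) (out : S → A → List A)

lemma cas_snoc (l : List S) (s : S) (u : List A) : cas δ out (l ++ [s]) u =
    (Pool.Agent.W_MP_5d512e_h33.run δ out s (cas δ out l u)).2 := by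
  induction l generalizing u with
  | nil => rfl
  | cons t l ih =>
    rw [List.cons_append]
    simp only [cas]
    rw [ih]

lemma str_cas (V : ℕ → S × List A) (u : List A) (n : ℕ) (hV : ∀ j < n, (V j).2 = []) :
    str δ out V u n = cas δ out ((List.range n).map fun j => (V j).1) u := by
  induction n with
  | zero => rfl
  | succ n ih =>
    simp only [str]
    rw [List.range_succ, List.map_append, List.map_cons, List.map_nil, cas_snoc,
      ← ih (fun j hj => hV j (by omega)), hV n (by omega), List.nil_append]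

end

end Pool.Agent.W_5d512e_h57
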