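import Pool.Agent.W_5d512e_h57.Win2

/-!
# The values of the recursion
-/

set_option autoImplicit false

namespace Pool.Agent.W_5d512e_h57

open Pool.Agent.W_MP_5d512e_h33 Pool.Agent.W_MP_5d512e_dic

section

variable {P : ℕ} [hP : Fact P.Prime]

lemma Ph_of {q D : ℕ} (hq : q ≤ P) (h : ℕ → ZMod P) {b : ℕ → ZMod P} (e : ℕ → ℕ)
    (he : ∀ j < D, e j < q) (hb : ∀ j < D, b j = (e j : ZMod P)) :
    Ph q D h b = h (arr q D e) := by
  rw [← Ph_val hq h e he]
  unfold Ph
  refine Finset.sum_congr rfl fun E _ => ?_
  congr 1
  exact Finset.prod_congr rfl fun j hj => by rw [hb j (Finset.mem_range.1 hj)]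

lemma Ph_zero {q D : ℕ} {h : ℕ → ZMod P} (hh : ∀ E, h E = 0) (b : ℕ → ZMod P) :
    Ph q D h b = 0 := by
  unfold Ph
  apply Finset.sum_eq_zero
  intro E _
  rw [hh E, zero_mul]

end

section

variable {p d : ℕ} (Y : Sys (Fin p) (Fin d)) (T : Tab (δo Y.δ Y.q0) (outo Y.out) Y.q0) (m : ℕ)

open Classical in
/-- Depth of the positions. -/
noncomputable def gd (c x : ℕ) : ℕ := if Lf Y c x then 0 else 1 + x / (c * c)

/-- Depth of the nodes. -/
noncomputable def dp (c v : ℕ) : ℕ :=
  if v % 3 = 0 then 3 * gd Y c (v / 3) + 1
  else if v % 3 = 2 then 3 * gd Y c (v / 3) + 2 else 3 * gd Y c (v / 3) + 3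

lemma gd_mono (c : ℕ) {x y : ℕ} (h : x ≤ y) : gd Y c x ≤ gd Y c y := by
  unfold gd
  have h1 := Nat.div_le_div_right (c := c * c) h
  generalize x / (c * c) = u at *
  generalize y / (c * c) = w at *
  by_cases hy : Lf Y c y
  · rw [if_pos hy, if_pos (Lf_mono Y h hy)]
  · rw [if_neg hy]
    split_ifs <;> omega

lemma gd_lt {c x t : ℕ} (hc : 1 ≤ c) (hx : ¬ Lf Y c x) (ht : Lf Y c t ∨ t + c * c ≤ x) :
    gd Y c t + 1 ≤ gd Y c x := by
  unfold gd
  rw [if_neg hx]
  rcases ht with ht | ht
  · rw [if_pos ht]
    exact Nat.le_add_right _ _
  · have h1 : (t + c * c) / (c * c) ≤ x / (c * c) := Nat.div_le_div_right ht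
    rw [Nat.add_div_right _ (by positivity)] at h1
    generalize x / (c * c) = u at *
    generalize t / (c * c) = w at *
    split_ifs <;> omega

variable {P : ℕ} [hP : Fact P.Prime] (hT : T.cA = cAo) {m} (hm : Syn Y.δ Y.out Y.lim m)
  {z n c : ℕ} (hc : 1 ≤ c) (hz : T.K0 ^ c ≤ z) (hpot : (m * c + 1) * (T.Cm + 1) ^ c ≤ z)
  (hzq : (qq d n) ^ (m * c + 2) ≤ z) (hzd : (d + 1) ^ c ≤ z) (hzn : 3 * (n + m * c + 3) ≤ z)
  (hq : qq d n ≤ P)

include hT hm hc hz hpot hzq hzd hzn hq

theorem VV_ok (k : ℕ) : ∀ v, v / 3 ≤ n → dp Y c v ≤ k → ∀ j < m * c + 2,
    VV (qq d n) (m * c + 2) (n + m * c + 2) (hh Y T m z n c) (tgg m n c) (chh Y z c) k v j =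
      ((vv Y m n c v j : ℕ) : ZMod P) := by
  have hq1 : 1 ≤ qq d n := by
    unfold qq
    nlinarith
  -- digits of the number of a node
  have hdig : ∀ v, v / 3 ≤ n → ∀ j < m * c + 2,
      dgt z (qq d n) (arr (qq d n) (m * c + 2) (vv Y m n c v)) j = vv Y m n c v j := by
    intro v hv j hj
    exact dgt_arr hq1 hzq (fun i _ => vv_lt Y m hv i) hj
  have hwin : ∀ v, v / 3 ≤ n → v % 3 ≠ 0 →
      cnt0 Y T m z n c (arr (qq d n) (m * c + 2) (vv Y m n c v)) -
        cnt1 Y T m z n c (arr (qq d n) (m * c + 2) (vv Y m n c v)) =
        Fo Y c (v / 3 + 1) - Fo Y c (v / 3) ∧
      ∀ t, t < Fo Y c (v / 3 + 1) - Fo Y c (v / 3) →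
        ltr Y T m z n c (arr (qq d n) (m * c + 2) (vv Y m n c v))
          (cnt1 Y T m z n c (arr (qq d n) (m * c + 2) (vv Y m n c v)) + t) =
          (Y.lim (Fo Y c (v / 3) + t) : ℕ) + 1 := by
    intro v hv hv3
    apply win_ok Y T hT hm hc hz hpot
    intro i hi
    rw [hdig v hv i (by omega)]
    unfold vv
    rw [if_neg hv3, if_pos hi]
  induction k with
  | zero =>
    intro v _ hd
    exfalso
    unfold dp at hd
    split_ifs at hd <;> omega
  | succ k ih =>
    intro v hv hd j hj
    -- the value of a contribution
    have hval : ∀ t u, chh Y z c v t = u → u / 3 ≤ n → dp Y c u ≤ k →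
        Ph (qq d n) (m * c + 2) (fun E => (hh Y T m z n c v t E : ZMod P))
          (VV (qq d n) (m * c + 2) (n + m * c + 2) (hh Y T m z n c) (tgg m n c) (chh Y z c) k
            (chh Y z c v t)) =
        ((hh Y T m z n c v t (arr (qq d n) (m * c + 2) (vv Y m n c u)) : ℕ) : ZMod P) := by
      intro t u hu hu3 hdu
      rw [hu]
      exact Ph_of hq _ (vv Y m n c u) (fun j _ => vv_lt Y m hu3 j) (fun j hj => ih u hu3 hdu j hj)
    have hnull : ∀ t, (∀ E, hh Y T m z n c v t E = 0) → ∀ b : ℕ → ZMod P,
        Ph (qq d n) (m * c + 2) (fun E => (hh Y T m z n c v t E : ZMod P)) b = 0 := by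
      intro t ht b
      apply Ph_zero
      intro E
      rw [ht E, Nat.cast_zero]
    show (∑ t ∈ Finset.range (n + m * c + 2), if tgg m n c v t = j then
      Ph (qq d n) (m * c + 2) (fun E => (hh Y T m z n c v t E : ZMod P))
        (VV (qq d n) (m * c + 2) (n + m * c + 2) (hh Y T m z n c) (tgg m n c) (chh Y z c) k
          (chh Y z c v t)) else 0) = _
    obtain ⟨x, hx⟩ : ∃ x, v / 3 = x := ⟨_, rfl⟩
    by_cases h0 : v % 3 = 0
    · -- letters
      have htg : ∀ t, tgg m n c v t = 0 := by
        intro t
        unfold tgg
        rw [if_neg (by omega), if_neg (by omega)]
      simp only [htg]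
      by_cases hj0 : j = 0
      · subst hj0
        simp only [if_true]
        have hvv : vv Y m n c v 0 = (Y.lim x : ℕ) + 1 := by
          unfold vv
          rw [if_pos h0, if_pos rfl, hx]
        rw [hvv]
        by_cases hL : Lf Y c x
        · -- a letter found in the queue
          have hlf : lf Y z c (v / 3) = (Y.lim x : ℕ) + 1 := by
            rw [hx]
            exact lf_ok Y hzd hL
          rw [Finset.sum_eq_single 0]
          · have hch : chh Y z c v 0 = v := by
              unfold chh
              rw [if_pos h0, if_pos (by rw [hlf]; omega)]
              apply cut_of_le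
              omega
            have hhv : ∀ E, hh Y T m z n c v 0 E = (Y.lim x : ℕ) + 1 := by
              intro E
              unfold hh
              rw [if_pos h0, if_pos (by rw [hlf]; omega), if_pos rfl, hlf]
            simp only [hhv]
            rcases Nat.eq_zero_or_pos k with hk | hk
            · subst hk
              exact Ph_of hq _ (fun _ => 0) (fun _ _ => hq1) (fun _ _ => by
                rw [Nat.cast_zero]
                rfl)
            · rw [hch]
              refine Ph_of hq _ (vv Y m n c v) (fun j _ => vv_lt Y m hv j)
                (fun j hj => ih v hv ?_ j hj)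
              unfold dp gd
              rw [if_pos h0, hx, if_pos hL]
              omega
          · intro t _ ht
            apply hnull
            intro E
            unfold hh
            rw [if_pos h0, if_pos (by rw [hlf]; omega), if_neg ht]
          · intro hn
            exact absurd (Finset.mem_range.2 (by omega)) hn
        · -- a letter with a parent
          have hlf : lf Y z c (v / 3) = 0 := by
            rw [hx]
            exact lf_not Y hzd hL
          have hx1 : 1 ≤ x := by
            rcases Nat.eq_zero_or_pos x with h | h
            · exact absurd (Or.inl h) hL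
            · exact h
          obtain ⟨t0, p1, p2, p3, p4⟩ := exists_par Y c x hc hx1
          have hfar : Lf Y c t0 ∨ t0 + c * c ≤ x := by
            by_cases hLt : Lf Y c t0
            · exact Or.inl hLt
            · right
              have := Fo_far Y hLt c
              omega
          -- the conditions on `t`
          have hcond : ∀ t, (lf Y z c t ≠ 0 ∨ t + c * c ≤ v / 3) →
              Lf Y c t ∨ t + c * c ≤ x := by
            intro t ht
            rcases ht with ht | ht
            · left
              by_contra hcon
              exact ht (lf_not Y hzd hcon)
            · right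
              omega
          have hchild : ∀ t, t < x → chh Y z c v t = 3 * t + 1 := by
            intro t ht
            unfold chh
            rw [if_pos h0, hlf, if_neg (by simp)]
            apply cut_of_le
            omega
          have hdep : ∀ t, t < x → (Lf Y c t ∨ t + c * c ≤ x) → dp Y c (3 * t + 1) ≤ k := by
            intro t _ ht
            have h1 := gd_lt Y hc hL ht
            unfold dp at hd ⊢
            rw [if_pos h0, hx] at hd
            rw [if_neg (by omega), if_neg (by omega), show (3 * t + 1) / 3 = t by omega]
            omega
          have hhE : ∀ t, t < x → hh Y T m z n c v t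
              (arr (qq d n) (m * c + 2) (vv Y m n c (3 * t + 1))) =
              if (lf Y z c t ≠ 0 ∨ t + c * c ≤ x) ∧ Fo Y c t ≤ x ∧ x < Fo Y c (t + 1) then
                (Y.lim x : ℕ) + 1 else 0 := by
            intro t ht
            have e3 : (3 * t + 1) / 3 = t := by omega
            have hd1 := hdig (3 * t + 1) (by omega) (m * c + 1) (by omega)
            have hvL : vv Y m n c (3 * t + 1) (m * c + 1) = La Y n c t := by
              unfold vv
              rw [if_neg (by omega), if_neg (by omega), if_pos ⟨by omega, rfl⟩, e3]
            obtain ⟨w1, w2⟩ := hwin (3 * t + 1) (by omega) (by omega)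
            rw [e3] at w1 w2
            unfold hh lbn
            rw [if_pos h0, hlf, if_neg (by simp), hd1, hvL, w1, hx]
            have hiff := La_iff Y (n := n) (c := c) (x := x) (t := t) (by omega)
            by_cases hA : lf Y z c t ≠ 0 ∨ t + c * c ≤ x
            · by_cases hB : Fo Y c t ≤ x ∧ x < Fo Y c (t + 1)
              · obtain ⟨b1, b2⟩ := hiff.2 hB
                rw [if_pos ⟨ht, hA, b1, b2⟩, if_pos ⟨hA, hB⟩]
                have hLa : La Y n c t = Fo Y c t := by
                  rcases (La_spec Y n c t).2 with h | h
                  · exact h
                  · omega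
                rw [hLa, w2 _ (by omega), show Fo Y c t + (x - Fo Y c t) = x by omega]
              · rw [if_neg (fun h => hB (hiff.1 h.2.2)), if_neg (fun h => hB h.2)]
            · rw [if_neg (fun h => hA h.2.1), if_neg (fun h => hA h.1)]
          rw [Finset.sum_eq_single t0]
          · rw [hval t0 (3 * t0 + 1) (hchild t0 p1) (by omega) (hdep t0 p1 hfar), hhE t0 p1,
              if_pos]
            refine ⟨?_, p2, p3⟩
            rcases hfar with h | h
            · left
              rw [lf_ok Y hzd h]
              omega
            · right
              exact h
          · intro t _ ht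
            by_cases htx : t < x
            · by_cases hA : lf Y z c t ≠ 0 ∨ t + c * c ≤ x
              · rw [hval t (3 * t + 1) (hchild t htx) (by omega)
                  (hdep t htx (hcond t (by rw [hx]; exact hA))), hhE t htx, if_neg, Nat.cast_zero]
                rintro ⟨-, h1, h2⟩
                exact ht (p4 t h1 h2)
              · apply hnull
                intro E
                unfold hh
                rw [if_pos h0, hlf, if_neg (by simp), if_neg]
                rintro ⟨-, h1, -⟩
                rw [hx] at h1
                exact hA h1
            · apply hnull
              intro E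
              unfold hh
              rw [if_pos h0, hlf, if_neg (by simp), if_neg]
              rintro ⟨h1, -⟩
              omega
          · intro hn
            exact absurd (Finset.mem_range.2 (by omega)) hn
      · have hvv : vv Y m n c v j = 0 := by
          unfold vv
          rw [if_pos h0, if_neg hj0]
        rw [hvv, Nat.cast_zero]
        apply Finset.sum_eq_zero
        intro t _
        rw [if_neg (Ne.symm hj0)]
    · by_cases h1 : v % 3 = 1
      · -- windows with positions
        have hdk : 3 * gd Y c x + 3 ≤ k + 1 := by
          unfold dp at hd
          rw [if_neg h0, if_neg (by omega), hx] at hd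
          exact hd
        by_cases hjM : j = m * c + 1
        · -- the position
          have hvv : vv Y m n c v j = La Y n c x := by
            unfold vv
            rw [if_neg h0, if_neg (by omega), if_pos ⟨h1, hjM⟩, hx]
          rw [hvv]
          have e1 : ∀ t ∈ Finset.range (n + m * c + 2), (if tgg m n c v t = j then
              Ph (qq d n) (m * c + 2) (fun E => (hh Y T m z n c v t E : ZMod P))
              (VV (qq d n) (m * c + 2) (n + m * c + 2) (hh Y T m z n c) (tgg m n c)
                (chh Y z c) k (chh Y z c v t)) else 0) =
              if t < x then ((min (n + 1) (Fo Y c (t + 1) - Fo Y c t) : ℕ) : ZMod P) else 0 := by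
            intro t _
            by_cases htx : t < x
            · rw [if_pos htx]
              have htg : tgg m n c v t = j := by
                unfold tgg
                rw [if_pos h1, hx, if_pos htx, hjM]
              have hch : chh Y z c v t = 3 * t + 2 := by
                unfold chh
                rw [if_neg h0, if_pos h1, hx, if_pos htx]
                apply cut_of_le
                omega
              rw [if_pos htg, hval t (3 * t + 2) hch (by omega) ?_]
              · congr 1
                obtain ⟨w1, w2⟩ := hwin (3 * t + 2) (by omega) (by omega)
                rw [show (3 * t + 2) / 3 = t by omega] at w1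
                unfold hh lbn
                rw [if_neg h0, if_pos h1, hx, if_pos htx, w1]
              · have := gd_mono Y c (show t ≤ x by omega)
                unfold dp
                rw [if_neg (by omega), if_pos (by omega), show (3 * t + 2) / 3 = t by omega]
                omega
            · rw [if_neg htx, if_neg]
              unfold tgg
              rw [if_pos h1, hx, if_neg htx]
              split_ifs <;> omega
          rw [Finset.sum_congr rfl e1, Finset.sum_ite, Finset.sum_const_zero, add_zero]
          unfold La
          rw [Nat.cast_sum]
          refine Finset.sum_congr ?_ fun t _ => rfl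
          ext t
          simp only [Finset.mem_filter, Finset.mem_range]
          omega
        · -- the letters
          have hjm : j ≤ m * c := by omega
          have hvv : vv Y m n c v j = wl Y x j := by
            unfold vv
            rw [if_neg h0, if_pos hjm, hx]
          rw [hvv, Finset.sum_eq_single (n + 1 + j)]
          · have htg : tgg m n c v (n + 1 + j) = j := by
              unfold tgg
              rw [if_pos h1, hx, if_neg (by omega), if_pos ⟨by omega, by omega⟩]
              omega
            have hch : chh Y z c v (n + 1 + j) = 3 * x + 2 := by
              unfold chh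
              rw [if_neg h0, if_pos h1, hx, if_neg (by omega)]
              rw [show v + 1 = 3 * x + 2 by omega]
              apply cut_of_le
              omega
            rw [if_pos htg, hval (n + 1 + j) (3 * x + 2) hch (by omega) ?_]
            · congr 1
              unfold hh
              rw [if_neg h0, if_pos h1, hx, if_neg (by omega), if_pos ⟨by omega, by omega⟩,
                show n + 1 + j - (n + 1) = j by omega, hdig (3 * x + 2) (by omega) j hj]
              unfold vv
              rw [if_neg (by omega), if_pos hjm, show (3 * x + 2) / 3 = x by omega]
            · unfold dp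
              rw [if_neg (by omega), if_pos (by omega), show (3 * x + 2) / 3 = x by omega]
              omega
          · intro t _ ht
            by_cases htg : tgg m n c v t = j
            · rw [if_pos htg]
              unfold tgg at htg
              rw [if_pos h1, hx] at htg
              by_cases htx : t < x
              · rw [if_pos htx] at htg
                omega
              · rw [if_neg htx] at htg
                by_cases htr : n + 1 ≤ t ∧ t ≤ n + 1 + m * c
                · rw [if_pos htr] at htg
                  omega
                · apply hnull
                  intro E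
                  unfold hh
                  rw [if_neg h0, if_pos h1, hx, if_neg htx, if_neg htr]
            · rw [if_neg htg]
          · intro hn
            exact absurd (Finset.mem_range.2 (by omega)) hn
      · -- windows
        have h2 : v % 3 = 2 := by omega
        have hdk : 3 * gd Y c x + 2 ≤ k + 1 := by
          unfold dp at hd
          rw [if_neg h0, if_pos h2, hx] at hd
          exact hd
        by_cases hjm : j ≤ m * c
        · have hvv : vv Y m n c v j = wl Y x j := by
            unfold vv
            rw [if_neg h0, if_pos hjm, hx]
          rw [hvv, Finset.sum_eq_single j]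
          · have htg : tgg m n c v j = j := by
              unfold tgg
              rw [if_neg h1, if_pos ⟨h2, hjm⟩]
            rw [if_pos htg]
            by_cases hjx : j ≤ x
            · have hch : chh Y z c v j = 3 * (x - j) := by
                unfold chh
                rw [if_neg h0, if_neg h1, hx]
                apply cut_of_le
                omega
              rw [hval j (3 * (x - j)) hch (by omega) ?_]
              · congr 1
                unfold hh
                rw [if_neg h0, if_neg h1, hx, if_pos ⟨hjm, hjx⟩,
                  hdig (3 * (x - j)) (by omega) 0 (by omega)]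
                unfold vv wl
                rw [if_pos (by omega), if_pos rfl, if_pos hjx,
                  show 3 * (x - j) / 3 = x - j by omega]
              · have := gd_mono Y c (show x - j ≤ x by omega)
                unfold dp
                rw [if_pos (by omega), show 3 * (x - j) / 3 = x - j by omega]
                omega
            · rw [hnull j (by
                intro E
                unfold hh
                rw [if_neg h0, if_neg h1, hx, if_neg (fun h => hjx h.2)])]
              unfold wl
              rw [if_neg hjx, Nat.cast_zero]
          · intro t _ ht
            by_cases htg : tgg m n c v t = j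
            · rw [if_pos htg]
              unfold tgg at htg
              rw [if_neg h1] at htg
              by_cases htm : t ≤ m * c
              · rw [if_pos ⟨h2, htm⟩] at htg
                omega
              · apply hnull
                intro E
                unfold hh
                rw [if_neg h0, if_neg h1, if_neg (fun h => htm h.1)]
            · rw [if_neg htg]
          · intro hn
            exact absurd (Finset.mem_range.2 (by omega)) hn
        · have hvv : vv Y m n c v j = 0 := by
            unfold vv
            rw [if_neg h0, if_neg hjm, if_neg (fun h => h1 h.1)]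
          rw [hvv, Nat.cast_zero]
          apply Finset.sum_eq_zero
          intro t _
          rw [if_neg]
          unfold tgg
          rw [if_neg h1]
          split_ifs <;> omega

end

end Pool.Agent.W_5d512e_h57
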