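import Pool.Agent.W_5d512e_h57.Node

/-!
# Windows as numbers
-/

set_option autoImplicit false

namespace Pool.Agent.W_5d512e_h57

open Pool.Agent.W_MP_5d512e_h33 Pool.Agent.W_MP_5d512e_dic

section

variable {p d : ℕ} (Y : Sys (Fin p) (Fin d)) (T : Tab (δo Y.δ Y.q0) (outo Y.out) Y.q0)
  (hT : T.cA = cAo) {m : ℕ} (hm : Syn Y.δ Y.out Y.lim m)

lemma rin_blk {A : Type} (W : ℕ → A) (N lo k : ℕ) (h : lo + k ≤ N + 1) :
    rin (fun i => W (N - i)) lo k = blk W (N + 1 - lo - k) k := by
  induction k with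
  | zero => rfl
  | succ k ih =>
    rw [rin, ih (by omega), blk]
    congr 2 <;> omega

lemma wl_eq (M y i : ℕ) (hi : i ≤ M) : wl Y y i = cAo (padw Y.lim M (y + M - i)) := by
  unfold wl padw
  by_cases h : i ≤ y
  · rw [if_pos h, if_neg (by omega)]
    show _ = (Y.lim (y + M - i - M) : ℕ) + 1
    rw [show y + M - i - M = y - i by omega]
  · rw [if_neg h, if_pos (by omega)]
    rfl

include hT hm in
/-- The image of the last letter of a window. -/
theorem win_ok {z n c y E : ℕ} (hc : 1 ≤ c) (hz : T.K0 ^ c ≤ z)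
    (hpot : (m * c + 1) * (T.Cm + 1) ^ c ≤ z)
    (hE : ∀ i, i ≤ m * c → dgt z (qq d n) E i = wl Y y i) :
    cnt0 Y T m z n c E - cnt1 Y T m z n c E = Fo Y c (y + 1) - Fo Y c y ∧
    ∀ t, t < Fo Y c (y + 1) - Fo Y c y →
      ltr Y T m z n c E (cnt1 Y T m z n c E + t) = (Y.lim (Fo Y c y + t) : ℕ) + 1 := by
  set M := m * c with hM
  set W := padS Y M with hW
  have hWw : W.w = padw Y.lim M := rfl
  set V0 : ℕ → Fin p × List (Option (Fin d)) := fun _ => (Y.q0, []) with hV0
  have hV0n : arr T.K0 c (fun j => T.cX (V0 j).1 (V0 j).2) = 0 := by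
    rw [arr_congr (b := fun _ => 0) (fun j _ => T.h0), arr_zero]
  have h5 : ∀ j < c, (V0 j).2.length ≤ T.Cm := fun j _ => Nat.zero_le _
  have hE' : ∀ i, i ≤ M → dgt z (qq d n) E i = T.cA (padw Y.lim M (y + M - i)) := by
    intro i hi
    rw [hE i hi, hT, wl_eq Y M y i hi]
  have hp : ∀ k ≤ M + 1, pot T.Cm c V0 k ≤ z := by
    intro k hk
    refine le_trans ?_ hpot
    unfold pot
    have : ∑ j ∈ Finset.range c, (V0 j).2.length * (T.Cm + 1) ^ (c - 1 - j) = 0 := by
      apply Finset.sum_eq_zero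
      intro j _
      simp [hV0]
    rw [this, zero_add]
    exact Nat.mul_le_mul_right _ hk
  -- the cascade
  have hlen : ((List.range c).map fun j => (V0 j).1).length = c := by simp
  set u1 := rin (fun i => padw Y.lim M (y + M - i)) 1 M with hu1
  set u0 := rin (fun i => padw Y.lim M (y + M - i)) 0 (M + 1) with hu0
  have e1 : u1 = blk W.w y M := by
    rw [hu1, rin_blk _ _ _ _ (by omega), hWw]
    congr 1
    omega
  have e0 : u0 = blk W.w y M ++ blk W.w (y + M) 1 := by
    rw [hu0, rin_blk _ _ _ _ (by omega), hWw, ← blk_append]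
    congr 1
    omega
  have hs1 : str (δo Y.δ Y.q0) (outo Y.out) V0 u1 c =
      cas W.δ W.out ((List.range c).map fun j => (V0 j).1) u1 :=
    str_cas _ _ _ _ _ fun j _ => rfl
  have hs0 : str (δo Y.δ Y.q0) (outo Y.out) V0 u0 c =
      cas W.δ W.out ((List.range c).map fun j => (V0 j).1) u0 :=
    str_cas _ _ _ _ _ fun j _ => rfl
  have hcw := W.cas_win (syn_pad Y M m hm) ((List.range c).map fun j => (V0 j).1)
    (blk W.w y M) (y + M) 1 (by rw [hlen]; omega) ⟨[], by
      rw [hlen, List.nil_append, ← hM]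
      congr 1
      omega⟩
  rw [hlen] at hcw
  set X := cas W.δ W.out ((List.range c).map fun j => (V0 j).1) (blk W.w y M) with hX
  have hF1 : W.F c (y + M) = M + Fo Y c y := by rw [add_comm y M, hW, padS_F]
  have hF2 : W.F c (y + M + 1) = M + Fo Y c (y + 1) := by
    rw [show y + M + 1 = M + (y + 1) by ring, hW, padS_F]
  have hb2 : blk W.w (M + Fo Y c y) (Fo Y c (y + 1) - Fo Y c y) =
      (blk Y.lim (Fo Y c y) (Fo Y c (y + 1) - Fo Y c y)).map some := by
    rw [hWw, blk_padw_high _ _ _ _ (by omega), show M + Fo Y c y - M = Fo Y c y by omega]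
  rw [hF1, hF2, show M + Fo Y c (y + 1) - (M + Fo Y c y) = Fo Y c (y + 1) - Fo Y c y by omega,
    hb2] at hcw
  set ℓ := Fo Y c (y + 1) - Fo Y c y with hℓ
  -- the counts
  have r1 := dfs_ok T (q := qq d n) (E := E) (lo := 1) (idx := 0) hz (V0 := V0) (k := M)
    (inp := fun i => padw Y.lim M (y + M - i)) hc h5
    (fun i hi1 hi2 => hE' i (by omega)) (hp M (by omega))
  have r0 := fun idx => dfs_ok T (q := qq d n) (E := E) (lo := 0) (idx := idx) hz (V0 := V0)
    (k := M + 1) (inp := fun i => padw Y.lim M (y + M - i)) hc h5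
    (fun i hi1 hi2 => hE' i (by omega)) (hp (M + 1) le_rfl)
  rw [hV0n] at r1
  simp only [hV0n] at r0
  rw [← hu1, hs1, e1, ← hX] at r1
  rw [← hu0, hs0, e0, hcw] at r0
  have c1 : cnt1 Y T m z n c E = X.length := by
    unfold cnt1
    rw [r1]
  have c0 : cnt0 Y T m z n c E = X.length + ℓ := by
    unfold cnt0
    rw [r0 0]
    simp [length_blk]
  refine ⟨by rw [c1, c0]; omega, ?_⟩
  intro t ht
  unfold ltr
  rw [c1, r0 (X.length + t)]
  simp only
  rw [List.getElem?_append_right (by omega), Nat.add_sub_cancel_left, List.getElem?_map,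
    blk_get _ _ _ _ ht, hT]
  rfl

end

end Pool.Agent.W_5d512e_h57
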